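import Pool.Agent.Run7.h197.D.Near

/-!
Approximation of algebraic numbers of bounded degree by rational numbers `x / y` for which a form
`T(x, y)` is almost an `n`-th power.
-/

set_option autoImplicit false

namespace Run7.h197.D

open NumberField IsDedekindDomain Finset Pool.Agent.H691R3 Pool.Agent.Y673.Loc Pool.Agent.Y673.Cnt
open Run7.h197.ST Height Run7.h197.Q Pool.Agent.Y673.Loc.ZV
open Pool.Agent.K4H56.IF Run7.h197.FMS Run7.h197.N Run7.h197.V Run7.h197.W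
open MvPolynomial (eval IsHomogeneous aeval)
open Run7.h197.ES (len len_nonneg one_le_len)
open Polynomial (X C)
open scoped IntermediateField

/-- the field generated by a root -/
lemma field_of (f : Polynomial ℤ) (hf : f ≠ 0) (D : ℕ) (hD : f.natDegree ≤ D) (ξ : ℂ)
    (hξ : (f.map (Int.castRingHom ℂ)).eval ξ = 0) :
    ∃ (L : Type) (_ : Field L) (_ : NumberField L) (ψ : L →+* ℂ) (α : L), ψ α = ξ ∧
      Module.finrank ℚ L ≤ D ∧ (f.map (Int.castRingHom L)).eval α = 0 := by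
  have hq0 : f.map (Int.castRingHom ℚ) ≠ 0 :=
    (Polynomial.map_ne_zero_iff (RingHom.injective_int (Int.castRingHom ℚ))).2 hf
  have hξa : Polynomial.aeval ξ (f.map (Int.castRingHom ℚ)) = 0 := by
    rw [Polynomial.aeval_def, Polynomial.eval₂_map]
    rw [Polynomial.eval_map] at hξ
    rw [show (algebraMap ℚ ℂ).comp (Int.castRingHom ℚ) = Int.castRingHom ℂ from
      RingHom.ext_int _ _]
    exact hξ
  have hξi : IsIntegral ℚ ξ := IsAlgebraic.isIntegral ⟨_, hq0, hξa⟩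
  have hfin : FiniteDimensional ℚ ℚ⟮ξ⟯ := IntermediateField.adjoin.finiteDimensional hξi
  have hNF : NumberField ℚ⟮ξ⟯ := { to_charZero := inferInstance, to_finiteDimensional := hfin }
  refine ⟨ℚ⟮ξ⟯, inferInstance, hNF, ℚ⟮ξ⟯.val.toRingHom, IntermediateField.AdjoinSimple.gen ℚ ξ,
    IntermediateField.AdjoinSimple.algebraMap_gen ℚ ξ, ?_, ?_⟩
  · have h1 := IntermediateField.adjoin.finrank hξi
    have h2 : (minpoly ℚ ξ).natDegree ≤ (f.map (Int.castRingHom ℚ)).natDegree :=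
      Polynomial.natDegree_le_of_dvd (minpoly.dvd ℚ ξ hξa) hq0
    have h3 : (f.map (Int.castRingHom ℚ)).natDegree ≤ f.natDegree := Polynomial.natDegree_map_le
    calc _ = (minpoly ℚ ξ).natDegree := h1
      _ ≤ _ := (h2.trans h3).trans hD
  · apply (ℚ⟮ξ⟯.val.toRingHom).injective
    rw [map_zero, Polynomial.eval_map, Polynomial.hom_eval₂]
    rw [Polynomial.eval_map] at hξ
    rw [show (ℚ⟮ξ⟯.val.toRingHom).comp (Int.castRingHom ℚ⟮ξ⟯) = Int.castRingHom ℂ from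
      RingHom.ext_int _ _]
    exact hξ

/-- two zeros of `T` different from `ξ` -/
def SepAt (T : MvPolynomial (Fin 2) ℤ) (ξ : ℂ) : Prop :=
  ∃ z₁ z₂ : Fin 2 → ℂ, aeval z₁ T = 0 ∧ aeval z₂ T = 0 ∧ ξ * z₁ 1 ≠ z₁ 0 ∧ ξ * z₂ 1 ≠ z₂ 0 ∧
    z₁ 0 * z₂ 1 ≠ z₁ 1 * z₂ 0

/-- **approximation by rationals with almost perfect power values** -/
theorem approx {T : MvPolynomial (Fin 2) ℤ} {e : ℕ} (hT : T.IsHomogeneous e) (hT0 : T ≠ 0)
    (he : 1 ≤ e) (s D M : ℕ) :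
    ∃ κ : ℕ, ∀ (f : Polynomial ℤ) (ξ : ℂ) (Λ : ℕ), f ≠ 0 → f.natDegree ≤ D →
      (f.map (Int.castRingHom ℂ)).eval ξ = 0 →
      ∑ i ∈ range (f.natDegree + 1), |f.coeff i| ≤ Λ → SepAt T ξ →
      ∀ (n : ℕ) (C₁ C₂ z x y : ℤ), C₁ ≠ 0 → C₂ ≠ 0 → C₂.natAbs.primeFactors.card ≤ s → y ≠ 0 →
      IsCoprime x y → eval ![x, y] T ≠ 0 → eval ![x, y] T = C₁ * C₂ * z ^ n →
      max |(x : ℝ)| |(y : ℝ)| * ‖(x : ℂ) / y - ξ‖ ^ M ≤ 1 →
      min (n : ℝ) (Real.log (max |(x : ℝ)| |(y : ℝ)|)) ≤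
        (2 + Real.log C₁.natAbs + Real.log (rad C₂) + Real.log Λ) ^ κ := by
  classical
  obtain ⟨c, hc⟩ := exists_c (deh_ne hT hT0)
  have hinj : Function.Injective (Int.castRingHom ℚ) := RingHom.injective_int _
  have hG : (deh T).map (Int.castRingHom ℚ) ≠ 0 :=
    (Polynomial.map_ne_zero_iff hinj).2 (deh_ne hT hT0)
  have hGc : ((deh T).map (Int.castRingHom ℚ)).eval (c : ℚ) ≠ 0 := by
    rw [Polynomial.eval_intCast_map]
    simpa using hc
  have hcop : IsCoprime ((X - C (c : ℚ)) ^ e : Polynomial ℚ) ((deh T).map (Int.castRingHom ℚ)) := by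
    apply IsCoprime.pow_left
    rw [(Polynomial.irreducible_X_sub_C (c : ℚ)).coprime_iff_not_dvd, Polynomial.dvd_iff_isRoot]
    exact hGc
  have hcQ : (((deh T).eval c : ℤ) : ℚ) ≠ 0 := Int.cast_ne_zero.2 hc
  obtain ⟨κ₀, hκ₀⟩ := finalU ((X - C (c : ℚ)) ^ e : Polynomial ℚ) ((deh T).map (Int.castRingHom ℚ))
    hcop hG {v : HeightOneSpectrum (𝓞 ℚ) | (adv ℚ v).v (((deh T).eval c : ℤ) : ℚ) ≠ 0}
    (supp_finite hcQ) M 1 s le_rfl D
  obtain ⟨A, hA⟩ : ∃ A : ℕ, A = 1 + 2 * D := ⟨_, rfl⟩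
  obtain ⟨κ₁, hκ₁⟩ := absorb (A ^ κ₀) κ₀
  refine ⟨κ₁, ?_⟩
  intro f ξ Λ hf hfD hξ hΛ hsep n C₁ C₂ z x y hC₁ hC₂ hs hy hxy hTxy heq hnear
  obtain ⟨L, _, _, ψ, α, hψα, hLD, hα⟩ := field_of f hf D hfD ξ hξ
  have hyQ : (y : ℚ) ≠ 0 := Int.cast_ne_zero.2 hy
  have hΛ1 : 1 ≤ Λ := by
    have h1 : |f.coeff f.natDegree| ≤ ∑ i ∈ range (f.natDegree + 1), |f.coeff i| :=
      Finset.single_le_sum (f := fun i => |f.coeff i|) (fun _ _ => abs_nonneg _)
        (Finset.mem_range.2 (Nat.lt_succ_self _))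
    have h2 : 1 ≤ |f.coeff f.natDegree| := Int.one_le_abs (Polynomial.leadingCoeff_ne_zero.2 hf)
    have h3 : (1 : ℤ) ≤ Λ := h2.trans (h1.trans hΛ)
    exact_mod_cast h3
  obtain ⟨R, hR⟩ : ∃ R : ℝ, R = 2 + Real.log C₁.natAbs + Real.log (rad C₂) + Real.log Λ := ⟨_, rfl⟩
  have l1 : 0 ≤ Real.log C₁.natAbs := Real.log_natCast_nonneg _
  have l2 : 0 ≤ Real.log (rad C₂) := Real.log_natCast_nonneg _
  have l3 : 0 ≤ Real.log Λ := Real.log_natCast_nonneg _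
  have hR2 : 2 ≤ R := by rw [hR]; linarith
  rw [← hR]
  have hHt : mulHeight₁ ((x : ℚ) / y) = max |(x : ℝ)| |(y : ℝ)| := height_div hy hxy
  have hN1 : NearL ψ M ((x : ℚ) / y) (some α) := by
    show mulHeight₁ ((x : ℚ) / y) * ‖ψ (algebraMap ℚ L ((x : ℚ) / y)) - ψ α‖ ^ M ≤ 1
    have h1 : ψ (algebraMap ℚ L ((x : ℚ) / y)) = (x : ℂ) / y := by
      rw [map_div₀, map_div₀, map_intCast, map_intCast, map_intCast, map_intCast]
    rw [h1, hHt, hψα]
    exact hnear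
  have hG0 : ((deh T).map (Int.castRingHom ℚ)).eval ((x : ℚ) / y) ≠ 0 := by
    intro h0
    apply hTxy
    have h1 := ev_hom hT (y : ℚ) ((x : ℚ) / y) 1
    rw [mul_one, mul_div_cancel₀ _ hyQ, ← deh_eval, h0, mul_zero, ← ev_cast] at h1
    exact_mod_cast h1
  -- two poles
  obtain ⟨z₁, z₂, a1, a2, a3, a4, a5⟩ := hsep
  have e1 : pt ![ξ, 1] = ((some α : Option L).map ψ) := by
    unfold pt
    rw [if_neg (by simp), Option.map_some, hψα]
    simp
  have n1 : z₁ ≠ 0 := by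
    rintro rfl
    apply a3
    simp
  have n2 : z₂ ≠ 0 := by
    rintro rfl
    apply a4
    simp
  have htwo : TwoPoles ((X - C (c : ℚ)) ^ e : Polynomial ℚ) ((deh T).map (Int.castRingHom ℚ))
      (ψ.comp (algebraMap ℚ L)) ((some α : Option L).map ψ) := by
    refine ⟨pt z₁, pt z₂, pt_ne a5, ?_, ?_, pole_pt hT hT0 he c _ z₁ n1 a1,
      pole_pt hT hT0 he c _ z₂ n2 a2⟩
    · rw [← e1]
      refine (pt_ne ?_).symm
      show ξ * z₁ 1 ≠ 1 * z₁ 0
      rwa [one_mul]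
    · rw [← e1]
      refine (pt_ne ?_).symm
      show ξ * z₂ 1 ≠ 1 * z₂ 0
      rwa [one_mul]
  have hvC : ∀ v : HeightOneSpectrum (𝓞 ℚ), (adv ℚ v).v (rad C₂ : ℚ) = 0 →
      (adv ℚ v).v (C₂ : ℚ) = 0 := fun v hv => val_of_rad v hC₂ hv
  have hmain := hκ₀ n C₁.natAbs (rad C₂) ((x : ℚ) / y) L hLD (some α) ψ (Int.natAbs_ne_zero.2 hC₁)
    (rad_ne _) (by rw [rad_primeFactors]; exact hs) htwo hN1 hG0
    (poleV_of hT he c hc n C₁ C₂ z (rad C₂) hC₁ hC₂ hvC x y 1 hy hxy one_ne_zero hTxy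
      (by rw [one_pow, one_mul]; exact heq) (by
        intro v _ h1
        exfalso
        apply v.isPrime.ne_top
        rw [Ideal.eq_top_iff_one]
        simpa using h1))
  rw [hHt] at hmain
  refine hmain.trans ?_
  have hH : hp (some α) ≤ (Λ : ℝ) ^ (2 * totalWeight L) := by
    have h1 := height_root f hf (Λ : ℤ) hΛ α hα
    exact_mod_cast h1
  have hlogH : Real.log (hp (some α)) ≤ 2 * D * Real.log Λ := by
    have h1 := Real.log_le_log (lt_of_lt_of_le one_pos (one_le_hp (some α))) hH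
    rw [Real.log_pow] at h1
    push_cast at h1
    have h2 : (totalWeight L : ℝ) ≤ D := by
      rw [totalWeight_eq_finrank]
      exact_mod_cast hLD
    refine h1.trans ?_
    apply mul_le_mul_of_nonneg_right _ l3
    linarith
  have hl0 : 0 ≤ Real.log (hp (some α)) := Real.log_nonneg (one_le_hp _)
  have hAR : 2 + Real.log C₁.natAbs + Real.log (rad C₂) + Real.log (hp (some α)) ≤ A * R := by
    rw [hA, hR]
    push_cast
    have h0 : (0 : ℝ) ≤ D := Nat.cast_nonneg _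
    nlinarith [mul_nonneg h0 l1, mul_nonneg h0 l2, mul_nonneg h0 l3]
  calc (2 + Real.log C₁.natAbs + Real.log (rad C₂) + Real.log (hp (some α))) ^ κ₀ ≤ (A * R) ^ κ₀ :=
        pow_le_pow_left₀ (by linarith) hAR _
    _ = ((A ^ κ₀ : ℕ) : ℝ) * R ^ κ₀ := by rw [mul_pow]; push_cast; ring
    _ ≤ R ^ κ₁ := hκ₁ R hR2

end Run7.h197.D
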