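import Pool.Agent.Run7.h197.V.Arch
import Pool.Agent.Run7.h197.U.Uniform

/-!
Two integers of a number field which are products of `n`-th powers and of powers of a fixed number
of integers whose size is at most a power of `n`, and whose quotient is close to `1` at an
archimedean place: uniform for all number fields of bounded degree.
-/

set_option autoImplicit false

namespace Run7.h197.D

open Finset NumberField Run7.h197.BK Run7.h197.ST Run7.h197.V Run7.h197.U

/-- **the archimedean estimate** with variable coefficients, uniform in the field -/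
theorem archU (D m C : ℕ) :
    ∃ κ g₀ : ℕ, ∀ (K : Type) [Field K] [NumberField K], Module.finrank ℚ K ≤ D →
      ∀ g, g₀ ≤ g → ∀ (J : Type) [Fintype J], Fintype.card J = m →
      ∀ γ : J → 𝓞 K, (∀ j, γ j ≠ 0) → (∀ (ψ : K →+* ℂ) j, ‖ψ (γ j : K)‖ ≤ 2 ^ g) →
      ∀ n, g ^ κ ≤ n → n < 2 ^ g → ∀ (X H : ℕ) (x x' Y Y' : 𝓞 K) (e e' : J → ℕ), x ≠ 0 → x' ≠ 0 →
      Y ≠ 0 → Y' ≠ 0 → (∀ j, e j < n) → (∀ j, e' j < n) →
      (x : K) = (∏ j, (γ j : K) ^ (e j)) * (Y : K) ^ n →
      (x' : K) = (∏ j, (γ j : K) ^ (e' j)) * (Y' : K) ^ n → n * H ≤ C * (g * n + X) →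
      (∀ φ : K →+* ℂ, ‖φ (Y : K)‖ ≤ 2 ^ H ∧ ‖φ (Y' : K)‖ ≤ 2 ^ H) →
      (∀ N : ℕ, 1 ≤ N → (x : K) ^ N ≠ (x' : K) ^ N) →
      ∀ φ : K →+* ℂ, ‖φ (x : K) / φ (x' : K) - 1‖ ≤ 2 ^ g / 2 ^ X → X < g ^ κ := by
  classical
  obtain ⟨κ, g0, -, hSB'⟩ := SB_le D (m + 1)
  obtain ⟨P, hP⟩ : ∃ P, P = (D + 4) ^ κ := ⟨_, rfl⟩
  have hP1 : 1 ≤ P := by rw [hP]; exact Nat.one_le_pow _ _ (by omega)
  obtain ⟨g1, hg1⟩ : ∃ g1, g1 = g0 + 2 * (C + 1) * P + 2 * P * (C + 4) + m + 20 := ⟨_, rfl⟩
  refine ⟨κ + 3, g1, ?_⟩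
  intro K _ _ hKD g hg J _ hJ γ hγ0 hγG n hgn hn2g X H₀ x x' Y Y' e e' hx0 hx'0 hY0 hY'0 he he' hx hx' hH₀ hYH hroot φ
    hclose
  have hSB := hSB' K hKD
  have hg20 : 20 ≤ g := by omega
  have hgκ : 1 ≤ g ^ κ := Nat.one_le_pow _ _ (by omega)
  have hn1 : 1 ≤ n := by
    have : 1 ≤ g ^ (κ + 3) := Nat.one_le_pow _ _ (by omega)
    omega
  obtain ⟨g', hg'⟩ : ∃ g', g' = (D + 4) * g := ⟨_, rfl⟩
  have hgg' : g ≤ g' := by rw [hg']; exact Nat.le_mul_of_pos_left _ (by omega)
  have hg'κ : g' ^ κ = P * g ^ κ := by rw [hg', mul_pow, hP]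
  have hpoly : 2 * (C + 1) * g' ^ κ ≤ n := by
    calc 2 * (C + 1) * g' ^ κ = (2 * (C + 1) * P) * g ^ κ := by rw [hg'κ]; ring
      _ ≤ g * g ^ κ := Nat.mul_le_mul_right _ (by omega)
      _ ≤ g * g ^ κ * g ^ 2 := Nat.le_mul_of_pos_right _ (by positivity)
      _ = g ^ (κ + 3) := by ring
      _ ≤ n := hgn
  have hfinal : X ≤ 2 * ((g + 1) + g' ^ κ * ((C + 1) * g)) → X < g ^ (κ + 3) := by
    intro h1
    have h2 : 2 * ((g + 1) + g' ^ κ * ((C + 1) * g)) ≤ g ^ (κ + 2) := by
      rw [hg'κ]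
      calc 2 * ((g + 1) + P * g ^ κ * ((C + 1) * g))
          ≤ 2 * ((P * g ^ κ) * (3 * g) + P * g ^ κ * ((C + 1) * g)) := by
            have h3 : g + 1 ≤ (P * g ^ κ) * (3 * g) := by
              have : 1 * 1 ≤ P * g ^ κ := Nat.mul_le_mul hP1 hgκ
              calc g + 1 ≤ 1 * (3 * g) := by omega
                _ ≤ _ := Nat.mul_le_mul_right _ (by omega)
            omega
        _ = (2 * P * (C + 4)) * g ^ κ * g := by ring
        _ ≤ g * g ^ κ * g := by
            apply Nat.mul_le_mul_right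
            apply Nat.mul_le_mul_right
            omega
        _ = g ^ (κ + 2) := by ring
    calc X ≤ g ^ (κ + 2) := h1.trans h2
      _ < g ^ (κ + 3) := Nat.pow_lt_pow_right (by omega) (by omega)
  by_cases hXsmall : X ≤ g + 1
  · apply hfinal
    have : 0 ≤ g' ^ κ * ((C + 1) * g) := Nat.zero_le _
    omega
  push Not at hXsmall
  apply hfinal
  have hφx' : φ (x' : K) ≠ 0 := by
    rw [map_ne_zero]
    exact RingOfIntegers.coe_ne_zero_iff.mpr hx'0
  have hφx : φ (x : K) ≠ 0 := by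
    rw [map_ne_zero]
    exact RingOfIntegers.coe_ne_zero_iff.mpr hx0
  have hφY : φ (Y : K) ≠ 0 := by
    rw [map_ne_zero]
    exact RingOfIntegers.coe_ne_zero_iff.mpr hY0
  have hφY' : φ (Y' : K) ≠ 0 := by
    rw [map_ne_zero]
    exact RingOfIntegers.coe_ne_zero_iff.mpr hY'0
  have hφγ : ∀ j, φ (γ j : K) ≠ 0 := by
    intro j
    rw [map_ne_zero]
    exact RingOfIntegers.coe_ne_zero_iff.mpr (hγ0 j)
  have hvb := fun (ψ : K →+* ℂ) j => var_bounds (γ j) (hγ0 j) g (by omega) (fun ψ => hγG ψ j) ψ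
  obtain ⟨u, hu⟩ : ∃ u : ℂ, u = φ (x : K) / φ (x' : K) := ⟨_, rfl⟩
  have hu0 : u ≠ 0 := by rw [hu]; exact div_ne_zero hφx hφx'
  have hu1n : ‖u - 1‖ ≤ 2 ^ g / 2 ^ X := by
    rw [hu]
    exact hclose
  have hu1h : ‖u - 1‖ ≤ 1 / 2 := by
    refine hu1n.trans ?_
    rw [div_le_div_iff₀ (by positivity) (by norm_num), one_mul, ← pow_succ]
    exact pow_le_pow_right₀ (by norm_num) (by omega)
  have hlogu : ‖Complex.log u‖ ≤ 2 * ‖u - 1‖ := by
    have h1 := Complex.norm_log_one_add_half_le_self (z := u - 1) hu1h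
    rw [add_sub_cancel] at h1
    have := norm_nonneg (u - 1)
    linarith
  -- the relation of logarithms
  have hpow : u = (φ (Y : K) / φ (Y' : K)) ^ n * ∏ j, (φ (γ j : K)) ^ ((e j : ℤ) - (e' j : ℤ)) := by
    have h1 : φ (x : K) = (∏ j, φ (γ j : K) ^ (e j)) * φ (Y : K) ^ n := by
      rw [hx, map_mul, map_prod, map_pow]
      congr 1
      exact Finset.prod_congr rfl (fun j _ => map_pow _ _ _)
    have h2 : φ (x' : K) = (∏ j, φ (γ j : K) ^ (e' j)) * φ (Y' : K) ^ n := by
      rw [hx', map_mul, map_prod, map_pow]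
      congr 1
      exact Finset.prod_congr rfl (fun j _ => map_pow _ _ _)
    have h3 : ∏ j, (φ (γ j : K)) ^ ((e j : ℤ) - (e' j : ℤ)) =
        (∏ j, φ (γ j : K) ^ (e j)) / ∏ j, φ (γ j : K) ^ (e' j) := by
      rw [← Finset.prod_div_distrib]
      apply Finset.prod_congr rfl
      intro j _
      rw [zpow_sub₀ (hφγ j), zpow_natCast, zpow_natCast]
    have h4 : ∏ j, φ (γ j : K) ^ (e' j) ≠ 0 :=
      Finset.prod_ne_zero_iff.mpr (fun j _ => pow_ne_zero _ (hφγ j))
    rw [hu, h1, h2, h3, div_pow]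
    field_simp
  obtain ⟨k, hk⟩ : ∃ k : ℤ, (n : ℂ) * Complex.log (φ (Y : K) / φ (Y' : K)) +
      ∑ j, (((e j : ℤ) - (e' j : ℤ) : ℤ) : ℂ) * Complex.log (φ (γ j : K)) =
      Complex.log u + k * (2 * Real.pi * Complex.I) := by
    rw [← Complex.exp_eq_exp_iff_exists_int, Complex.exp_add, Complex.exp_nat_mul,
      Complex.exp_log (div_ne_zero hφY hφY'), Complex.exp_sum,
      Complex.exp_log hu0, hpow]
    congr 1
    apply Finset.prod_congr rfl
    intro j _
    rw [Complex.exp_int_mul, Complex.exp_log (hφγ j)]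
  -- the size of `k`
  have hkn : |k| ≤ g' * |(n : ℤ)| := by
    have h1 := congrArg Complex.im hk
    have h2 : (Complex.log u + k * (2 * Real.pi * Complex.I)).im =
        (Complex.log u).im + k * (2 * Real.pi) := by
      simp
    rw [h2, Complex.add_im, Complex.im_sum] at h1
    have h3 : ((n : ℂ) * Complex.log (φ (Y : K) / φ (Y' : K))).im =
        n * (Complex.log (φ (Y : K) / φ (Y' : K))).im := by simp
    have h4 : ∀ j, ((((e j : ℤ) - (e' j : ℤ) : ℤ) : ℂ) * Complex.log (φ (γ j : K))).im =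
        (((e j : ℤ) - (e' j : ℤ) : ℤ) : ℝ) * (Complex.log (φ (γ j : K))).im := by
      intro j
      rw [Complex.mul_im, Complex.intCast_im, Complex.intCast_re]
      ring
    rw [h3, Finset.sum_congr rfl (fun j _ => h4 j)] at h1
    have hpi := Real.pi_pos
    have him : ∀ z : ℂ, |(Complex.log z).im| ≤ Real.pi := by
      intro z
      rw [Complex.log_im]
      exact Complex.abs_arg_le_pi z
    have h5 : |(n : ℝ) * (Complex.log (φ (Y : K) / φ (Y' : K))).im| ≤ n * Real.pi := by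
      rw [abs_mul, Nat.abs_cast]
      exact mul_le_mul_of_nonneg_left (him _) (Nat.cast_nonneg _)
    have h6 : |∑ j, (((e j : ℤ) - (e' j : ℤ) : ℤ) : ℝ) * (Complex.log (φ (γ j : K))).im| ≤
        m * (n * Real.pi) := by
      calc _ ≤ ∑ j, |(((e j : ℤ) - (e' j : ℤ) : ℤ) : ℝ) * (Complex.log (φ (γ j : K))).im| :=
            Finset.abs_sum_le_sum_abs _ _
        _ ≤ ∑ _j : J, (n : ℝ) * Real.pi := by
            apply Finset.sum_le_sum
            intro j _
            rw [abs_mul]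
            apply mul_le_mul _ (him _) (abs_nonneg _) (Nat.cast_nonneg _)
            rw [← Int.cast_abs]
            have h7 : |(e j : ℤ) - (e' j : ℤ)| ≤ n := by
              have h8 := he j
              have h9 := he' j
              rw [abs_le]
              constructor <;> omega
            exact_mod_cast h7
        _ = _ := by rw [Finset.sum_const, Finset.card_univ, nsmul_eq_mul, hJ]
    have h8 : |(k : ℝ)| * (2 * Real.pi) ≤ n * Real.pi + m * (n * Real.pi) + Real.pi := by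
      have h9 : (k : ℝ) * (2 * Real.pi) = n * (Complex.log (φ (Y : K) / φ (Y' : K))).im +
          (∑ j, (((e j : ℤ) - (e' j : ℤ) : ℤ) : ℝ) * (Complex.log (φ (γ j : K))).im) -
          (Complex.log u).im := by linarith
      have h10 : |(k : ℝ)| * (2 * Real.pi) = |(k : ℝ) * (2 * Real.pi)| := by
        rw [abs_mul, abs_of_pos (by positivity : 0 < 2 * Real.pi)]
      rw [h10, h9]
      refine (abs_sub _ _).trans ?_
      have h11 := abs_add_le (n * (Complex.log (φ (Y : K) / φ (Y' : K))).im)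
        (∑ j, (((e j : ℤ) - (e' j : ℤ) : ℤ) : ℝ) * (Complex.log (φ (γ j : K))).im)
      have h12 := him u
      linarith
    have h9 : |(k : ℝ)| ≤ n + m * n + 1 := by
      have h10 : |(k : ℝ)| * Real.pi ≤ (n + m * n + 1) * Real.pi := by
        have h11 : 0 ≤ |(k : ℝ)| * Real.pi := by positivity
        linarith
      exact le_of_mul_le_mul_right h10 hpi
    have h10 : |k| ≤ ((n + m * n + 1 : ℕ) : ℤ) := by
      rw [← Int.cast_abs] at h9
      exact_mod_cast h9
    refine h10.trans ?_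
    have h11 : n + m * n + 1 ≤ g' * n := by
      have h13 : (1 + m + 1) * n ≤ g' * n := Nat.mul_le_mul_right _ (by omega)
      nlinarith
    rw [Nat.abs_cast]
    exact_mod_cast h11
  -- the linear form
  let τ := Option J
  let aa : Option τ → 𝓞 K := fun i => i.elim Y (fun i => i.elim 1 γ)
  let cc : Option τ → 𝓞 K := fun i => i.elim Y' (fun _ => 1)
  let ℓ : Option τ → ℂ := fun i => i.elim (Complex.log (φ (Y : K) / φ (Y' : K)))
    (fun i => i.elim (2 * Real.pi * Complex.I) (fun j => Complex.log (φ (γ j : K))))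
  let b : Option τ → ℤ := fun i => i.elim (n : ℤ) (fun i => i.elim (-k)
    (fun j => (e j : ℤ) - (e' j : ℤ)))
  have hLam : Lam ℓ b = Complex.log u := by
    unfold Lam
    rw [Fintype.sum_option, Fintype.sum_option]
    simp only [ℓ, b, Option.elim_none, Option.elim_some]
    push_cast at hk ⊢
    linear_combination hk
  have hnt : ∀ N : ℕ, 1 ≤ N → Complex.exp (N * Lam ℓ b) ≠ 1 := by
    intro N hN hexp
    rw [hLam, Complex.exp_nat_mul, Complex.exp_log hu0, hu,
      div_pow, div_eq_one_iff_eq (pow_ne_zero _ hφx')] at hexp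
    apply hroot N hN
    apply φ.injective
    rw [map_pow, map_pow]
    exact hexp
  obtain ⟨H, hH⟩ : ∃ H, H = H₀ + 1 := ⟨_, rfl⟩
  have hYb : ∀ ψ : K →+* ℂ, ‖ψ (Y : K)‖ ≤ 2 ^ H := fun ψ => by
    rw [hH]
    exact (hYH ψ).1.trans (pow_le_pow_right₀ (by norm_num) (by omega))
  have hY'b : ∀ ψ : K →+* ℂ, ‖ψ (Y' : K)‖ ≤ 2 ^ H := fun ψ => by
    rw [hH]
    exact (hYH ψ).2.trans (pow_le_pow_right₀ (by norm_num) (by omega))
  have hHg : (2 : ℝ) ^ H ≤ 2 ^ (g' * H) :=
    pow_le_pow_right₀ (by norm_num) (Nat.le_mul_of_pos_left _ (by omega))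
  have hone : (1 : ℝ) ≤ 2 ^ (g' * 1) := one_le_pow₀ (by norm_num)
  have hone' : ∀ ψ : K →+* ℂ, ψ ((1 : 𝓞 K) : K) = 1 := fun ψ => by simp
  have hH1 : 1 ≤ H := by
    rw [hH]
    exact Nat.le_add_left 1 _
  have hlow := SB.transfer hSB (τ := τ) (by rw [Fintype.card_option, hJ]) g' (by omega) H hH1 φ
    aa cc ℓ b
    (by
      rintro (_ | _ | j)
      · exact hY0
      · exact one_ne_zero
      · exact hγ0 j)
    (by
      rintro (_ | i)
      · exact hY'0
      · exact one_ne_zero)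
    (by
      rintro ψ (_ | _ | j)
      · exact (hYb ψ).trans hHg
      · show ‖ψ ((1 : 𝓞 K) : K)‖ ≤ 2 ^ (g' * 1)
        rw [hone', norm_one]
        exact hone
      · show ‖ψ (γ j : K)‖ ≤ 2 ^ (g' * 1)
        exact (hγG ψ j).trans (pow_le_pow_right₀ (by norm_num) (by omega)))
    (by
      rintro ψ (_ | i)
      · exact (hY'b ψ).trans hHg
      · show ‖ψ ((1 : 𝓞 K) : K)‖ ≤ 2 ^ (g' * 1)
        rw [hone', norm_one]
        exact hone)
    (by
      rintro (_ | _ | j)
      · show Complex.exp (Complex.log (φ (Y : K) / φ (Y' : K))) = φ (Y : K) / φ (Y' : K)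
        exact Complex.exp_log (div_ne_zero hφY hφY')
      · show Complex.exp (2 * Real.pi * Complex.I) = φ ((1 : 𝓞 K) : K) / φ ((1 : 𝓞 K) : K)
        rw [Complex.exp_two_pi_mul_I, hone', div_one]
      · show Complex.exp (Complex.log (φ (γ j : K))) = φ (γ j : K) / φ ((1 : 𝓞 K) : K)
        rw [hone', div_one, Complex.exp_log (hφγ j)])
    (by
      rintro (_ | j)
      · show ‖(2 * Real.pi * Complex.I : ℂ)‖ ≤ g'
        rw [norm_mul, norm_mul, Complex.norm_I, mul_one, Complex.norm_real, Real.norm_eq_abs,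
          abs_of_pos Real.pi_pos, Complex.norm_ofNat]
        have h1 := Real.pi_lt_d2
        have h2 : (20 : ℝ) ≤ g' := by exact_mod_cast (by omega : 20 ≤ g')
        linarith
      · show ‖Complex.log (φ (γ j : K))‖ ≤ g'
        refine (hvb φ j).2.trans ?_
        rw [hg']
        exact_mod_cast Nat.mul_le_mul_right g (by omega : Module.finrank ℚ K + 4 ≤ D + 4))
    (by
      show (n : ℤ) ≠ 0
      exact_mod_cast (by omega : n ≠ 0))
    (by
      show |(n : ℤ)| ≤ 2 ^ g'
      rw [Nat.abs_cast]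
      have h1 : n ≤ 2 ^ g' := hn2g.le.trans (Nat.pow_le_pow_right (by norm_num) hgg')
      exact_mod_cast h1)
    (by
      rintro (_ | j)
      · show |-k| ≤ g' * |(n : ℤ)|
        rw [abs_neg]
        exact hkn
      · show |(e j : ℤ) - (e' j : ℤ)| ≤ g' * |(n : ℤ)|
        have h8 := he j
        have h9 := he' j
        have h10 : |(e j : ℤ) - (e' j : ℤ)| ≤ n := by
          rw [abs_le]
          constructor <;> omega
        rw [Nat.abs_cast]
        refine h10.trans ?_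
        exact_mod_cast Nat.le_mul_of_pos_left n (by omega : 0 < g'))
    hnt
  -- conclusion
  have hup : ‖Lam ℓ b‖ ≤ 2 ^ (g + 1) / 2 ^ X := by
    rw [hLam]
    calc ‖Complex.log u‖ ≤ 2 * (2 ^ g / 2 ^ X) := by linarith
      _ = 2 ^ (g + 1) / 2 ^ X := by
          rw [pow_succ]
          ring
  have hcomb : (2 : ℝ) ^ X ≤ 2 ^ (g + 1 + g' ^ κ * H) := by
    have h1 := hlow.trans hup
    rw [le_div_iff₀ (by positivity), one_div, inv_pow, inv_mul_le_iff₀ (by positivity),
      ← pow_add] at h1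
    rw [add_comm (g + 1)]
    exact h1
  have hcomb' : X ≤ g + 1 + g' ^ κ * H := by
    by_contra hcon
    push Not at hcon
    have := pow_lt_pow_right₀ (by norm_num : (1 : ℝ) < 2) hcon
    linarith
  have hhalf : 2 * (g' ^ κ * H) ≤ X + 2 * (g' ^ κ * ((C + 1) * g)) := by
    have h1 : n * H ≤ (C + 1) * (g * n + X) := by
      rw [hH]
      have h2 : n ≤ g * n + X := by
        have : 1 * n ≤ g * n := Nat.mul_le_mul_right _ (by omega)
        omega
      calc n * (H₀ + 1) = n * H₀ + n := by ring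
        _ ≤ C * (g * n + X) + (g * n + X) := by omega
        _ = _ := by ring
    have h3 : n * (2 * (g' ^ κ * H)) ≤ n * (X + 2 * (g' ^ κ * ((C + 1) * g))) := by
      calc n * (2 * (g' ^ κ * H)) = 2 * g' ^ κ * (n * H) := by ring
        _ ≤ 2 * g' ^ κ * ((C + 1) * (g * n + X)) := Nat.mul_le_mul_left _ h1
        _ = (2 * (C + 1) * g' ^ κ) * X + n * (2 * (g' ^ κ * ((C + 1) * g))) := by ring
        _ ≤ n * X + n * (2 * (g' ^ κ * ((C + 1) * g))) :=
            Nat.add_le_add_right (Nat.mul_le_mul_right _ hpoly) _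
        _ = _ := by ring
    exact Nat.le_of_mul_le_mul_left h3 (by omega)
  generalize g' ^ κ * H = A at *
  generalize g' ^ κ * ((C + 1) * g) = B at *
  omega

end Run7.h197.D
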