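import Pool.Agent.Run7.h197.D.Cross

/-!
Points of the projective line which are close to a target of small height and bounded degree and
almost `n`-th powers at two fixed points.
-/

set_option autoImplicit false

namespace Run7.h197.D

open NumberField IsDedekindDomain Finset Pool.Agent.H691R3 Pool.Agent.Y673.Loc Pool.Agent.Y673.Cnt
open Run7.h197.ST Height Pool.Agent.H951R3.V Run7.h197.Q Pool.Agent.Y673.Loc.ZV
open Pool.Agent.K4H56.IF Run7.h197.V

variable {K : Type} [Field K] [NumberField K]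

/-- **the main theorem for `n < 2 ^ g`** -/
theorem targetsU (S : Set (HeightOneSpectrum (𝓞 K))) (hS : S.Finite) (b : K) (c : Option K)
    (hbc : c ≠ some b) (M e s : ℕ) (he : 1 ≤ e) (D : ℕ) :
    ∃ κ g₀ : ℕ, ∀ g n m N : ℕ, g₀ ≤ g → g ^ κ ≤ n → n < 2 ^ g → m ≠ 0 → N ≠ 0 → m ≤ 2 ^ g →
      N ≤ 2 ^ g → N.primeFactors.card ≤ s → ∀ (t : K) (L : Type) [Field L] [NumberField L]
      [Algebra K L], Module.finrank ℚ L ≤ D → ∀ (a : Option L) (φ : L →+* ℂ),
      a ≠ some (algebraMap K L b) →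
      a ≠ c.map (algebraMap K L) → hp a ≤ 2 ^ g → NearL φ M t a → (2 : ℝ) ^ (g ^ κ) ≤ mulHeight₁ t →
      t ≠ b → PosV S n m N e b t → PosP S n m N e c t → False := by
  classical
  obtain ⟨S₁, hS₁, hval⟩ := ratio_val b c hbc
  obtain ⟨kb, hkb⟩ := lin_height (some b)
  obtain ⟨kc, hkc⟩ := lin_height c
  obtain ⟨k₃, hk₃⟩ := height_of_ratio b c hbc
  rcases Nat.eq_zero_or_pos M with hM0 | hM
  · -- `M = 0`
    refine ⟨1, 1, ?_⟩
    intro g n m N hg hgn hn2 hm hN hmg hNg hNs t L _ _ _ hLD a φ hab hac hag hnear hH _ _ _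
    have h1 : mulHeight₁ t ≤ 1 := by
      rw [hM0] at hnear
      rcases a with _ | α
      · have h2 : mulHeight₁ t ≤ ‖φ (algebraMap K L t)‖ ^ 0 := hnear
        rwa [pow_zero] at h2
      · have h2 : mulHeight₁ t * ‖φ (algebraMap K L t) - φ α‖ ^ 0 ≤ 1 := hnear
        rwa [pow_zero, mul_one] at h2
    have h2 : (2 : ℝ) ^ 1 ≤ 2 ^ (g ^ 1) := pow_le_pow_right₀ (by norm_num) (by rw [pow_one]; exact hg)
    linarith
  obtain ⟨k, hk⟩ := cross_closeU b c M hM D
  obtain ⟨S', hS'⟩ : ∃ S' : Finset (HeightOneSpectrum (𝓞 K)), S' = (hS.union hS₁).toFinset :=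
    ⟨_, rfl⟩
  obtain ⟨C, hC⟩ : ∃ C, C = e * (kb + kc + 4 * M + 1) := ⟨_, rfl⟩
  obtain ⟨κ, g₁, hfar⟩ := farU (K := K) S' s C D
  obtain ⟨Q, hQ⟩ : ∃ Q, Q = 4 * (e + 1) * (k + 1) := ⟨_, rfl⟩
  obtain ⟨P, hP⟩ : ∃ P, P = Q ^ κ := ⟨_, rfl⟩
  have hQ1 : 1 ≤ Q := by
    rw [hQ]
    exact Nat.mul_pos (Nat.mul_pos (by norm_num) (Nat.succ_pos _)) (Nat.succ_pos _)
  have hP1 : 1 ≤ P := by rw [hP]; exact Nat.one_le_pow _ _ hQ1
  refine ⟨κ + 2, g₁ + 2 * M * (P + 2 * k + 2) + P + k₃ + 2 * k + 3, ?_⟩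
  intro g n m N hg hgn hn2 hm hN hmg hNg hNs t F _ _ _ hLD a φ hab hac hag hnear hH htb hb hc
  have hg1 : 1 ≤ g := by omega
  obtain ⟨G, hG⟩ : ∃ G, G = g ^ κ := ⟨_, rfl⟩
  have hG1 : 1 ≤ G := by rw [hG]; exact Nat.one_le_pow _ _ hg1
  have hgκ2 : g ^ (κ + 2) = G * g * g := by rw [hG]; ring
  obtain ⟨g', hg'⟩ : ∃ g', g' = Q * g := ⟨_, rfl⟩
  have hgg' : g ≤ g' := by rw [hg']; exact Nat.le_mul_of_pos_left _ (by omega)
  have hg'κ : g' ^ κ = P * G := by rw [hg', mul_pow, ← hP, ← hG]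
  have hg'n : g' ^ κ ≤ n := by
    rw [hg'κ]
    calc P * G ≤ g * G := Nat.mul_le_mul_right _ (by omega)
      _ = G * g * 1 := by ring
      _ ≤ G * g * g := Nat.mul_le_mul_left _ hg1
      _ = g ^ (κ + 2) := hgκ2.symm
      _ ≤ n := hgn
  -- the size of `t`
  have hH1 : (1 : ℝ) ≤ mulHeight₁ t := one_le_mulHeight₁ t
  obtain ⟨L, hL1, hL2⟩ := exists_nat_pow_near hH1 (by norm_num : (1 : ℝ) < 2)
  have hgL : g ^ (κ + 2) ≤ L := by
    by_contra hcon
    push Not at hcon
    have h1 : (2 : ℝ) ^ (L + 1) ≤ 2 ^ (g ^ (κ + 2)) := pow_le_pow_right₀ (by norm_num) hcon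
    linarith
  obtain ⟨X, hX⟩ : ∃ X, X = L / M := ⟨_, rfl⟩
  have hXL : X * M ≤ L := by rw [hX]; exact Nat.div_mul_le_self _ _
  have hLX : L < (X + 1) * M := by
    rw [hX, mul_comm]
    exact Nat.lt_mul_div_succ _ hM
  have hXbig : (P + 2 * k + 1) * G * g ≤ X := by
    by_contra hcon
    push Not at hcon
    have h1 : L < (P + 2 * k + 2) * G * g * M := by
      calc L < (X + 1) * M := hLX
        _ ≤ ((P + 2 * k + 1) * G * g) * M := Nat.mul_le_mul_right _ hcon
        _ ≤ (P + 2 * k + 2) * G * g * M := by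
            apply Nat.mul_le_mul_right
            apply Nat.mul_le_mul_right
            apply Nat.mul_le_mul_right
            omega
    have h2 : (P + 2 * k + 2) * G * g * M ≤ G * g * g := by
      calc (P + 2 * k + 2) * G * g * M = G * g * (M * (P + 2 * k + 2)) := by ring
        _ ≤ G * g * g := by
            apply Nat.mul_le_mul_left
            have : 2 * M * (P + 2 * k + 2) = 2 * (M * (P + 2 * k + 2)) := by ring
            omega
    omega
  have hGg1 : 1 ≤ G * g := Nat.mul_pos hG1 hg1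
  have hXP : g' ^ κ ≤ X := by
    rw [hg'κ]
    calc P * G ≤ (P + 2 * k + 1) * G * g := by
          calc P * G = P * G * 1 := by ring
            _ ≤ P * G * g := Nat.mul_le_mul_left _ hg1
            _ ≤ _ := by
                apply Nat.mul_le_mul_right
                apply Nat.mul_le_mul_right
                omega
      _ ≤ X := hXbig
  have hXk : k * (g + 1) < X := by
    have h1 : k * (g + 1) ≤ 2 * k * (G * g) := by
      calc k * (g + 1) ≤ k * (2 * g) := Nat.mul_le_mul_left _ (by omega)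
        _ = 2 * k * (1 * g) := by ring
        _ ≤ 2 * k * (G * g) := by
            apply Nat.mul_le_mul_left
            exact Nat.mul_le_mul_right _ hG1
    have h2 : (P + 2 * k + 1) * G * g = P * (G * g) + 2 * k * (G * g) + G * g := by ring
    have h3 : 1 * 1 ≤ P * (G * g) := Nat.mul_le_mul hP1 hGg1
    omega
  have hX1 : 1 ≤ X := by omega
  obtain ⟨α, hα0, hαH, hlin, hclose⟩ := hk F hLD g t a φ L X hab hac hag hnear hL1 hXL hXk.le
  -- `t` is different from `c`
  have htc : some t ≠ c := by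
    rintro rfl
    exact hlin (sub_self t)
  have htb0 : t - b ≠ 0 := sub_ne_zero.2 htb
  obtain ⟨w, hw⟩ : ∃ w, w = (t - b) / lin c t := ⟨_, rfl⟩
  have hw0 : w ≠ 0 := by rw [hw]; exact div_ne_zero htb0 hlin
  rw [← hw] at hclose
  have hkg' : e * (k * (g + 1)) ≤ g' := by
    have h1 : e * (k * (g + 1)) ≤ e * (k * (2 * g)) :=
      Nat.mul_le_mul_left _ (Nat.mul_le_mul_left _ (by omega))
    have h2 : e * (k * (2 * g)) ≤ 4 * (e + 1) * (k + 1) * g := by
      have : 4 * (e + 1) * (k + 1) * g = e * (k * (2 * g)) + (2 * e * k * g + 4 * e * g + 4 * k * g + 4 * g) := by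
        ring
      omega
    rw [hg', hQ]
    omega
  have hwv : ∀ v ∉ (S' : Set (HeightOneSpectrum (𝓞 K))), (adv K v).v (N : K) = 0 →
      ∃ r : ℤ, |r| ≤ (adv K v).v (m : K) ∧ (n : ℤ) ∣ (e : ℤ) * (adv K v).v w + r := by
    intro v hv hN0
    rw [Finset.mem_coe, hS', Set.Finite.mem_toFinset, Set.mem_union, not_or] at hv
    rw [hw]
    exact hval S n m N e hm t htb htc hb hc v hv.1 hv.2 hN0
  have hcloseV : Close (S' : Set (HeightOneSpectrum (𝓞 K))) n m N (w ^ e) := by
    intro v hv hN0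
    obtain ⟨r, hr1, hr2⟩ := hwv v hv hN0
    have e1 : (adv K v).v (w ^ e) = (e : ℤ) * (adv K v).v w :=
      ((E_of_ne (w := adv K v) hw0).pow e).2
    exact ⟨r, hr1, by rwa [e1]⟩
  -- the height
  have hHw : mulHeight₁ (w ^ e) ≤ 2 ^ (C * X) := by
    have h1 : mulHeight₁ t ≤ 2 ^ (2 * (M * X)) := by
      refine hL2.le.trans (pow_le_pow_right₀ (by norm_num) ?_)
      have h2 : (X + 1) * M ≤ 2 * (M * X) := by
        calc (X + 1) * M ≤ (2 * X) * M := Nat.mul_le_mul_right _ (by omega)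
          _ = _ := by ring
      omega
    have h2 : mulHeight₁ w ≤ 2 ^ (kb + 2 * (M * X)) * 2 ^ (kc + 2 * (M * X)) := by
      have e1 : w = (t - b) * (lin c t)⁻¹ := by rw [hw, div_eq_mul_inv]
      calc mulHeight₁ w = mulHeight₁ ((t - b) * (lin c t)⁻¹) := by rw [e1]
        _ ≤ mulHeight₁ (t - b) * mulHeight₁ (lin c t)⁻¹ := mulHeight₁_mul_le _ _
        _ = mulHeight₁ (t - b) * mulHeight₁ (lin c t) := by rw [mulHeight₁_inv]
        _ ≤ _ := by
            apply mul_le_mul _ _ (mulHeight₁_nonneg _) (by positivity)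
            · rw [pow_add]
              exact (hkb t).trans (mul_le_mul_of_nonneg_left h1 (by positivity))
            · rw [pow_add]
              exact (hkc t).trans (mul_le_mul_of_nonneg_left h1 (by positivity))
    rw [mulHeight₁_pow]
    calc mulHeight₁ w ^ e ≤ (2 ^ (kb + 2 * (M * X)) * 2 ^ (kc + 2 * (M * X))) ^ e :=
          pow_le_pow_left₀ (mulHeight₁_nonneg _) h2 _
      _ = 2 ^ ((kb + 2 * (M * X) + (kc + 2 * (M * X))) * e) := by
          rw [← pow_add, ← pow_mul]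
      _ ≤ 2 ^ (C * X) := by
          apply pow_le_pow_right₀ (by norm_num)
          rw [hC]
          have h3 : kb + kc ≤ (kb + kc) * X := Nat.le_mul_of_pos_right _ hX1
          calc (kb + 2 * (M * X) + (kc + 2 * (M * X))) * e
              ≤ ((kb + kc) * X + 4 * M * X + X) * e := by
                apply Nat.mul_le_mul_right
                have : 4 * M * X = 2 * (M * X) + 2 * (M * X) := by ring
                omega
            _ = _ := by ring
  -- roots of unity
  have hroot : ∀ j : ℕ, 1 ≤ j → (algebraMap K F (w ^ e)) ^ j ≠ (α ^ e) ^ j := by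
    intro j hj h1
    rw [← map_pow, ← pow_mul, ← pow_mul] at h1
    have h2 : mulHeight₁ (w ^ (e * j)) ^ Module.finrank K F = mulHeight₁ α ^ (e * j) := by
      rw [← mulHeight₁_ext F, h1, mulHeight₁_pow]
    have hej : e * j ≠ 0 := Nat.mul_ne_zero (by omega) (by omega)
    rw [mulHeight₁_pow, ← pow_mul, mul_comm (e * j), pow_mul] at h2
    have h3 : mulHeight₁ w ^ Module.finrank K F = mulHeight₁ α :=
      (pow_left_inj₀ (pow_nonneg (mulHeight₁_nonneg _) _) (mulHeight₁_nonneg _) hej).1 h2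
    have h4 : mulHeight₁ w ≤ 2 ^ (k * (g + 1)) := by
      have h5 : mulHeight₁ w ≤ mulHeight₁ w ^ Module.finrank K F :=
        le_self_pow₀ (one_le_mulHeight₁ w) (Module.finrank_pos (R := K) (M := F)).ne'
      exact (h5.trans h3.le).trans hαH
    have h5 : mulHeight₁ t ≤ 2 ^ (k₃ + k * (g + 1)) := by
      rw [pow_add]
      have h6 := hk₃ t hlin
      rw [← hw] at h6
      exact h6.trans (mul_le_mul_of_nonneg_left h4 (by positivity))
    have h6 : k₃ + k * (g + 1) < g ^ (κ + 2) := by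
      rw [hgκ2]
      have e1 : g * g ≤ G * g * g := by
        calc g * g = 1 * g * g := by ring
          _ ≤ G * g * g := by
              apply Nat.mul_le_mul_right
              exact Nat.mul_le_mul_right _ hG1
      have e2 : k₃ + k * (g + 1) < g * g := by
        have e3 : k * (g + 1) ≤ 2 * k * g := by
          calc k * (g + 1) ≤ k * (2 * g) := Nat.mul_le_mul_left _ (by omega)
            _ = _ := by ring
        have e4 : (k₃ + 2 * k + 1) * g ≤ g * g := Nat.mul_le_mul_right _ (by omega)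
        have e5 : (k₃ + 2 * k + 1) * g = k₃ * g + 2 * k * g + g := by ring
        have e6 : k₃ ≤ k₃ * g := Nat.le_mul_of_pos_right _ hg1
        omega
      omega
    have h7 := pow_lt_pow_right₀ (by norm_num : (1 : ℝ) < 2) h6
    linarith
  have hlt := hfar g' n m N (le_trans (by omega) hgg') hg'n
    (hn2.trans_le (Nat.pow_le_pow_right (by norm_num) hgg')) hm
    hN (hmg.trans (Nat.pow_le_pow_right (by norm_num) hgg'))
    (hNg.trans (Nat.pow_le_pow_right (by norm_num) hgg')) hNs (w ^ e) (pow_ne_zero _ hw0)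
    hcloseV F hLD (α ^ e) (pow_ne_zero _ hα0) (by
      rw [mulHeight₁_pow]
      calc mulHeight₁ α ^ e ≤ (2 ^ (k * (g + 1))) ^ e := pow_le_pow_left₀ (mulHeight₁_nonneg _) hαH _
        _ = 2 ^ (e * (k * (g + 1))) := by rw [← pow_mul, mul_comm]
        _ ≤ _ := pow_le_pow_right₀ (by norm_num) hkg') hroot X hHw hXP φ
  have hle : ‖φ (algebraMap K F (w ^ e)) / φ (α ^ e) - 1‖ ≤ 2 ^ g' / 2 ^ X := by
    rw [map_pow, map_pow, map_pow, ← div_pow]
    refine (abs_pow_sub_one _ _ _ _ hclose).trans ?_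
    apply div_le_div_of_nonneg_right _ (by positivity)
    apply pow_le_pow_right₀ (by norm_num)
    have h3 : e * (k * (g + 1) + 1) + k * (g + 1) + e ≤ (e + 1) * (2 * k * g + 2 * g) := by
      have h4 : k * (g + 1) ≤ 2 * k * g := by
        calc k * (g + 1) ≤ k * (2 * g) := Nat.mul_le_mul_left _ (by omega)
          _ = _ := by ring
      have h5 : e * (k * (g + 1) + 1) ≤ e * (2 * k * g + g) := Nat.mul_le_mul_left _ (by omega)
      have h6 : e ≤ e * g := Nat.le_mul_of_pos_right _ hg1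
      have h7 : (e + 1) * (2 * k * g + 2 * g) = e * (2 * k * g + g) + e * g + 2 * k * g + 2 * g := by
        ring
      omega
    have h4 : g' = 2 * ((e + 1) * (2 * k * g + 2 * g)) := by rw [hg', hQ]; ring
    omega
  exact absurd hlt (not_lt.mpr hle)

open Pool.Agent.Y913.Bk (PolyB) in
/-- **the main theorem for all `n`** -/
theorem targets_allU (S : Set (HeightOneSpectrum (𝓞 K))) (hS : S.Finite) (b : K) (c : Option K)
    (hbc : c ≠ some b) (M e s : ℕ) (he : 1 ≤ e) (DL : ℕ) :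
    ∃ κ g₀ : ℕ, ∀ g n m N : ℕ, g₀ ≤ g → g ^ κ ≤ n → m ≠ 0 → N ≠ 0 → m ≤ 2 ^ g →
      N ≤ 2 ^ g → N.primeFactors.card ≤ s → ∀ (t : K) (L : Type) [Field L] [NumberField L]
      [Algebra K L], Module.finrank ℚ L ≤ DL → ∀ (a : Option L) (φ : L →+* ℂ),
      a ≠ some (algebraMap K L b) →
      a ≠ c.map (algebraMap K L) → hp a ≤ 2 ^ g → NearL φ M t a → (2 : ℝ) ^ (g ^ κ) ≤ mulHeight₁ t →
      t ≠ b → some t ≠ c → PosV S n m N e b t → PosP S n m N e c t → False := by
  classical
  obtain ⟨κ, g₁, hmain⟩ := targetsU S hS b c hbc M e s he DL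
  obtain ⟨kb, hkb⟩ := lin_height (some b)
  obtain ⟨kc, hkc⟩ := lin_height c
  obtain ⟨D, hD⟩ : ∃ D, D = Module.finrank ℚ K := ⟨_, rfl⟩
  obtain ⟨C, hC⟩ : ∃ C, C = e * (kb + kc + 1) + D + 1 := ⟨_, rfl⟩
  obtain ⟨g₂, hg₂⟩ := ((PolyB.const (2 * (C + 1) * 2 ^ (κ + 1))).mul (PolyB.id.pow (κ + 1))).le_two_pow
  refine ⟨κ + 1, g₁ + g₂ + 1, ?_⟩
  intro g n m N hg hgn hm hN hmg hNg hNs t F _ _ _ hLD a φ hab hac hag hnear hH htb htc hb hc
  have hpoly : ∀ j, g ≤ j → (C + 1) * (j + 1) ^ (κ + 1) < 2 ^ j := by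
    intro j hj
    have h1 : 2 * (C + 1) * 2 ^ (κ + 1) * j ^ (κ + 1) ≤ 2 ^ j := hg₂ j (by omega)
    have h2 : (j + 1) ^ (κ + 1) ≤ 2 ^ (κ + 1) * j ^ (κ + 1) := by
      rw [← mul_pow]
      exact Nat.pow_le_pow_left (by omega) _
    have h3 : 0 < (C + 1) * (j + 1) ^ (κ + 1) := by positivity
    have h4 : 2 * ((C + 1) * (j + 1) ^ (κ + 1)) ≤ 2 * (C + 1) * 2 ^ (κ + 1) * j ^ (κ + 1) := by
      calc 2 * ((C + 1) * (j + 1) ^ (κ + 1)) ≤ 2 * ((C + 1) * (2 ^ (κ + 1) * j ^ (κ + 1))) :=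
            Nat.mul_le_mul_left _ (Nat.mul_le_mul_left _ h2)
        _ = _ := by ring
    omega
  have hH1 : (1 : ℝ) ≤ mulHeight₁ t := one_le_mulHeight₁ t
  obtain ⟨L, hL1, hL2⟩ := exists_nat_pow_near hH1 (by norm_num : (1 : ℝ) < 2)
  have hgL : g ^ (κ + 1) ≤ L := by
    by_contra hcon
    push Not at hcon
    have h1 : (2 : ℝ) ^ (L + 1) ≤ 2 ^ (g ^ (κ + 1)) := pow_le_pow_right₀ (by norm_num) hcon
    linarith
  have hmon : ∀ j, 1 ≤ j → j ^ κ ≤ j ^ (κ + 1) := fun j hj => Nat.pow_le_pow_right hj (by omega)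
  rcases le_or_gt n (C * (L + 1)) with hn | hn
  · obtain ⟨j, hgj, hj1, hj2⟩ := exists_root (κ + 1) g (min n L) (by omega) (le_min hgn hgL)
    have hjj : (2 : ℝ) ^ g ≤ 2 ^ j := pow_le_pow_right₀ (by norm_num) hgj
    have hjj' : 2 ^ g ≤ 2 ^ j := Nat.pow_le_pow_right (by norm_num) hgj
    refine hmain j n m N (by omega) ((hmon j (by omega)).trans (hj1.trans (min_le_left _ _))) ?_ hm hN
      (hmg.trans hjj') (hNg.trans hjj') hNs t F hLD a φ hab hac (hag.trans hjj) hnear ?_ htb hb hc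
    · have h1 : n ≤ (C + 1) * (j + 1) ^ (κ + 1) := by
        rcases le_total n L with h | h
        · rw [min_eq_left h] at hj2
          calc n ≤ 1 * (j + 1) ^ (κ + 1) := by omega
            _ ≤ _ := Nat.mul_le_mul_right _ (by omega)
        · rw [min_eq_right h] at hj2
          calc n ≤ C * (L + 1) := hn
            _ ≤ (C + 1) * (j + 1) ^ (κ + 1) := Nat.mul_le_mul (by omega) hj2
      exact lt_of_le_of_lt h1 (hpoly j hgj)
    · refine le_trans ?_ hL1
      exact pow_le_pow_right₀ (by norm_num) ((hmon j (by omega)).trans (hj1.trans (min_le_right _ _)))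
  · -- all valuations are smaller than `n`
    have hgLL : g ≤ L := (Nat.le_self_pow (by omega) g).trans hgL
    have hm0 : ∀ v : HeightOneSpectrum (𝓞 K), (adv K v).v (m : K) ≤ (g * D : ℕ) := fun v => by
      rw [hD]
      exact val_nat_le v m g hm hmg
    have hbig : e * (kb + kc + (L + 1)) + g * D < n := by
      refine lt_of_le_of_lt ?_ hn
      have h1 : g * D ≤ (L + 1) * D := Nat.mul_le_mul_right _ (by omega)
      have h2 : e * (kb + kc + (L + 1)) ≤ e * ((kb + kc + 1) * (L + 1)) := by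
        apply Nat.mul_le_mul_left
        nlinarith [Nat.zero_le (kb * L), Nat.zero_le (kc * L)]
      calc e * (kb + kc + (L + 1)) + g * D ≤ e * ((kb + kc + 1) * (L + 1)) + (L + 1) * D := by omega
        _ ≤ e * ((kb + kc + 1) * (L + 1)) + (L + 1) * D + (L + 1) := by omega
        _ = C * (L + 1) := by rw [hC]; ring
    have key : ∀ (v : HeightOneSpectrum (𝓞 K)) (z r : ℤ), 0 < z → z ≤ (kb + kc + (L + 1) : ℕ) →
        |r| ≤ (adv K v).v (m : K) → (n : ℤ) ∣ (e : ℤ) * z + r → (e : ℤ) * z + r = 0 := by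
      intro v z r hz1 hz2 hr hd
      apply zero_of_small hd
      have h1 : (e : ℤ) * z ≤ e * (kb + kc + (L + 1) : ℕ) := mul_le_mul_of_nonneg_left hz2 (by positivity)
      have h2 : 0 ≤ (e : ℤ) * z := by positivity
      have h3 := hm0 v
      have h4 : (e : ℤ) * (kb + kc + (L + 1) : ℕ) + (g * D : ℕ) < n := by exact_mod_cast hbig
      rw [abs_lt]
      have h5 := abs_le.1 (hr.trans h3)
      constructor <;> omega
    refine hmain g (g ^ (κ + 1)) m N (by omega) (hmon g (by omega)) ?_ hm hN hmg hNg hNs t F hLD a φ hab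
      hac hag hnear ?_ htb ?_ ?_
    · refine lt_of_le_of_lt ?_ (hpoly g le_rfl)
      calc g ^ (κ + 1) ≤ (g + 1) ^ (κ + 1) := Nat.pow_le_pow_left (by omega) _
        _ ≤ _ := Nat.le_mul_of_pos_left _ (by omega)
    · exact (pow_le_pow_right₀ (by norm_num) (hmon g (by omega))).trans hH
    · intro v hv hN0 hpos
      obtain ⟨r, hr1, hr2⟩ := hb v hv hN0 hpos
      refine ⟨r, hr1, ?_⟩
      rw [key v _ r hpos ?_ hr1 hr2]
      · exact dvd_zero _
      · have h1 : (adv K v).v (t - b) ≤ (kb + (L + 1) : ℕ) := by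
          apply val_le_of_height v (sub_ne_zero.2 htb)
          rw [pow_add]
          exact (hkb t).trans (mul_le_mul_of_nonneg_left hL2.le (by positivity))
        push_cast at h1 ⊢
        omega
    · rcases c with _ | γ
      · intro v hv hN0 hneg
        obtain ⟨r, hr1, hr2⟩ := hc v hv hN0 hneg
        refine ⟨r, hr1, ?_⟩
        have hneg' : 0 < -(adv K v).v t := by omega
        rw [key v _ r hneg' ?_ hr1 hr2]
        · exact dvd_zero _
        · have ht0 : t ≠ 0 := by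
            rintro rfl
            rw [Run7.h197.FMS.adv_zero] at hneg
            exact lt_irrefl _ hneg
          have h1 : (adv K v).v t⁻¹ ≤ ((L + 1) : ℕ) := by
            apply val_le_of_height v (inv_ne_zero ht0)
            rw [mulHeight₁_inv]
            exact hL2.le
          have h2 : (adv K v).v t⁻¹ = -(adv K v).v t := ((E_of_ne (w := adv K v) ht0).inv).2
          rw [h2] at h1
          push_cast at h1 ⊢
          omega
      · intro v hv hN0 hpos
        obtain ⟨r, hr1, hr2⟩ := hc v hv hN0 hpos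
        refine ⟨r, hr1, ?_⟩
        rw [key v _ r hpos ?_ hr1 hr2]
        · exact dvd_zero _
        · have h1 : (adv K v).v (t - γ) ≤ (kc + (L + 1) : ℕ) := by
            apply val_le_of_height v (sub_ne_zero.2 fun h => htc (by rw [h]))
            rw [pow_add]
            exact (hkc t).trans (mul_le_mul_of_nonneg_left hL2.le (by positivity))
          push_cast at h1 ⊢
          omega

end Run7.h197.D
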