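import Pool.Agent.Run7.h197.D.Far
import Pool.Agent.Run7.h197.V.Param

/-!
Cross ratios with a moving target of bounded degree.
-/

set_option autoImplicit false

namespace Run7.h197.D

open NumberField IsDedekindDomain Finset Pool.Agent.H691R3 Pool.Agent.Y673.Loc Pool.Agent.Y673.Cnt
open Run7.h197.ST Height Pool.Agent.H951R3.V Run7.h197.Q Pool.Agent.Y673.Loc.ZV Run7.h197.V

section core
variable {L : Type} [Field L] [NumberField L]

/-- closeness of the cross ratio to `1`, with explicit constants -/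
lemma cross_core (b : L) (c : Option L) (M : ℕ) (hM : 1 ≤ M) (kb kc kd : ℕ)
    (hkb : ∀ t : L, mulHeight₁ (lin (some b) t) ≤ 2 ^ kb * mulHeight₁ t)
    (hkc : ∀ t : L, mulHeight₁ (lin c t) ≤ 2 ^ kc * mulHeight₁ t) (φ : L →+* ℂ)
    (hdφ : ‖φ (lin c b)‖ ≤ 2 ^ kd) (hdγ : ∀ γ, c = some γ → ‖φ γ‖ ≤ 2 ^ kd)
    (g : ℕ) (t : L) (a : Option L) (T X : ℕ) (hab : a ≠ some b) (hac : a ≠ c) (hag : hp a ≤ 2 ^ g)
    (H : ℝ) (hT : 2 ^ T ≤ H)
    (hnear : a.elim (H ≤ ‖φ t‖ ^ M) (fun α => H * ‖φ t - φ α‖ ^ M ≤ 1)) (hXL : X * M ≤ T)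
    (hX : 2 * (kb + kc + kd + 2) * (g + 1) ≤ X) :
    ∃ α : L, α ≠ 0 ∧ mulHeight₁ α ≤ 2 ^ (2 * (kb + kc + kd + 2) * (g + 1)) ∧ lin c t ≠ 0 ∧
      ‖φ ((t - b) / lin c t / α) - 1‖ ≤ 2 ^ (2 * (kb + kc + kd + 2) * (g + 1)) / 2 ^ X := by
  obtain ⟨W, hW⟩ : ∃ W, W = (kb + kc + kd + 2) * (g + 1) := ⟨_, rfl⟩
  have hW2 : 2 * (kb + kc + kd + 2) * (g + 1) = 2 * W := by rw [hW]; ring
  rw [hW2] at hX ⊢
  have hWg : kb + kc + kd + 2 + g ≤ W := by
    rw [hW]
    nlinarith [Nat.zero_le (kb * g), Nat.zero_le (kc * g), Nat.zero_le (kd * g)]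
  rcases a with _ | α
  · -- the target is at infinity
    rcases c with _ | γ
    · exact absurd rfl hac
    have hbig : (2 : ℝ) ^ X ≤ ‖φ t‖ :=
      two_pow_le_of X M hM (norm_nonneg _) hXL (hT.trans hnear)
    have hγ : ‖φ γ‖ ≤ 2 ^ kd := hdγ γ rfl
    have hkX : (2 : ℝ) ^ (kd + 1) ≤ 2 ^ X := pow_le_pow_right₀ (by norm_num) (by omega)
    have hfar : (2 : ℝ) ^ X / 2 ≤ ‖φ (t - γ)‖ := by
      rw [map_sub]
      have h3 := norm_sub_norm_le (φ t) (φ γ)
      rw [pow_succ] at hkX
      linarith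
    have htγ : t - γ ≠ 0 := by
      intro h0
      rw [h0, map_zero, norm_zero] at hfar
      have : (0 : ℝ) < 2 ^ X := by positivity
      linarith
    refine ⟨1, one_ne_zero, ?_, htγ, ?_⟩
    · rw [mulHeight₁_one]
      exact one_le_pow₀ (by norm_num)
    · have e1 : (t - b) / lin (some γ) t / 1 - 1 = -(lin (some γ) b) / (t - γ) := by
        show (t - b) / (t - γ) / 1 - 1 = -(b - γ) / (t - γ)
        field_simp
        ring
      have e2 : φ ((t - b) / lin (some γ) t / 1) - 1 = φ (-(lin (some γ) b) / (t - γ)) := by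
        rw [← e1, map_sub, map_one]
      rw [e2, map_div₀, norm_div, map_neg, norm_neg]
      calc ‖φ (lin (some γ) b)‖ / ‖φ (t - γ)‖ ≤ 2 ^ kd / (2 ^ X / 2) :=
            div_le_div₀ (by positivity) hdφ (by positivity) hfar
        _ = 2 ^ (kd + 1) / 2 ^ X := by rw [pow_succ]; field_simp
        _ ≤ _ := by
            apply div_le_div_of_nonneg_right _ (by positivity)
            exact pow_le_pow_right₀ (by norm_num) (by omega)
  · -- a finite target
    have hαb : α - b ≠ 0 := sub_ne_zero.2 fun h => hab (by rw [h])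
    have hαc : lin c α ≠ 0 := by
      rcases c with _ | γ
      · exact one_ne_zero
      · exact sub_ne_zero.2 fun h => hac (by rw [h])
    have hnear' : H * ‖φ t - φ α‖ ^ M ≤ 1 := hnear
    have hsmall : ‖φ (t - α)‖ ≤ 1 / 2 ^ X := by
      apply two_pow_div X M hM (norm_nonneg _) hXL
      rw [map_sub]
      exact (mul_le_mul_of_nonneg_right hT (pow_nonneg (norm_nonneg _) _)).trans hnear'
    have hαg : mulHeight₁ α ≤ 2 ^ g := hag
    have hH1 : mulHeight₁ (α - b) ≤ 2 ^ (kb + g) := by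
      calc mulHeight₁ (α - b) ≤ 2 ^ kb * mulHeight₁ α := hkb α
        _ ≤ 2 ^ kb * 2 ^ g := mul_le_mul_of_nonneg_left hαg (by positivity)
        _ = _ := by rw [← pow_add]
    have hH2 : mulHeight₁ (lin c α) ≤ 2 ^ (kc + g) := by
      calc mulHeight₁ (lin c α) ≤ 2 ^ kc * mulHeight₁ α := hkc α
        _ ≤ 2 ^ kc * 2 ^ g := mul_le_mul_of_nonneg_left hαg (by positivity)
        _ = _ := by rw [← pow_add]
    have hlow : ∀ (y : L) (i : ℕ), y ≠ 0 → mulHeight₁ y ≤ 2 ^ i → 1 / 2 ^ i ≤ ‖φ y‖ := by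
      intro y i hy hyi
      refine le_trans ?_ (norm_ge_height φ hy)
      rw [one_div]
      exact inv_anti₀ (lt_of_lt_of_le one_pos (one_le_mulHeight₁ _)) hyi
    have hl1 := hlow _ _ hαb hH1
    have hl2 := hlow _ _ hαc hH2
    -- `lin c t`
    have hlt : 1 / 2 ^ (kc + g + 1) ≤ ‖φ (lin c t)‖ := by
      have e1 : (1 : ℝ) / 2 ^ (kc + g + 1) = 1 / 2 ^ (kc + g) / 2 := by rw [pow_succ]; field_simp
      have e2 : (1 : ℝ) / 2 ^ X ≤ 1 / 2 ^ (kc + g + 1) := by
        apply one_div_le_one_div_of_le (by positivity)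
        exact pow_le_pow_right₀ (by norm_num) (by omega)
      rcases c with _ | γ
      · show _ ≤ ‖φ (1 : L)‖
        rw [map_one, norm_one, div_le_one (by positivity)]
        exact one_le_pow₀ (by norm_num)
      · have e3 : φ (lin (some γ) α) = φ (lin (some γ) t) - φ (t - α) := by
          rw [← map_sub]
          congr 1
          show α - γ = (t - γ) - (t - α)
          ring
        have e4 : ‖φ (lin (some γ) α)‖ ≤ ‖φ (lin (some γ) t)‖ + ‖φ (t - α)‖ := by
          rw [e3]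
          exact norm_sub_le _ _
        rw [e1] at e2 ⊢
        linarith
    have hlt0 : lin c t ≠ 0 := by
      intro h0
      rw [h0, map_zero, norm_zero] at hlt
      have : (0 : ℝ) < 1 / 2 ^ (kc + g + 1) := by positivity
      linarith
    refine ⟨(α - b) / lin c α, div_ne_zero hαb hαc, ?_, hlt0, ?_⟩
    · calc mulHeight₁ ((α - b) / lin c α) = mulHeight₁ ((α - b) * (lin c α)⁻¹) := by rw [div_eq_mul_inv]
        _ ≤ mulHeight₁ (α - b) * mulHeight₁ (lin c α)⁻¹ := mulHeight₁_mul_le _ _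
        _ = mulHeight₁ (α - b) * mulHeight₁ (lin c α) := by rw [mulHeight₁_inv]
        _ ≤ 2 ^ (kb + g) * 2 ^ (kc + g) := mul_le_mul hH1 hH2 (mulHeight₁_nonneg _) (by positivity)
        _ = 2 ^ (kb + g + (kc + g)) := by rw [← pow_add]
        _ ≤ _ := pow_le_pow_right₀ (by norm_num) (by omega)
    · have e1 : (t - b) / lin c t / ((α - b) / lin c α) - 1 =
          (t - α) * lin c b / ((α - b) * lin c t) := by
        rcases c with _ | γ
        · show (t - b) / 1 / ((α - b) / 1) - 1 = (t - α) * 1 / ((α - b) * 1)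
          field_simp
          ring
        · have h1 : t - γ ≠ 0 := hlt0
          have h2 : α - γ ≠ 0 := hαc
          show (t - b) / (t - γ) / ((α - b) / (α - γ)) - 1 = (t - α) * (b - γ) / ((α - b) * (t - γ))
          field_simp
          ring
      have e2 : φ ((t - b) / lin c t / ((α - b) / lin c α)) - 1 =
          φ (t - α) * φ (lin c b) / (φ (α - b) * φ (lin c t)) := by
        rw [← map_mul, ← map_mul, ← map_div₀, ← e1, map_sub, map_one]
      rw [e2, norm_div, norm_mul, norm_mul]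
      calc ‖φ (t - α)‖ * ‖φ (lin c b)‖ / (‖φ (α - b)‖ * ‖φ (lin c t)‖)
          ≤ (1 / 2 ^ X * 2 ^ kd) / ((1 / 2 ^ (kb + g)) * (1 / 2 ^ (kc + g + 1))) := by
            apply div_le_div₀ (by positivity)
            · exact mul_le_mul hsmall hdφ (norm_nonneg _) (by positivity)
            · positivity
            · exact mul_le_mul hl1 hlt (by positivity) (norm_nonneg _)
        _ = 2 ^ (kd + (kb + g) + (kc + g + 1)) / 2 ^ X := by
            rw [pow_add (2 : ℝ) (kd + (kb + g)) (kc + g + 1), pow_add (2 : ℝ) kd (kb + g)]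
            field_simp
        _ ≤ _ := by
            apply div_le_div_of_nonneg_right _ (by positivity)
            exact pow_le_pow_right₀ (by norm_num) (by omega)

end core

section
variable {K : Type} [Field K] [NumberField K]

lemma finrank_le_of {L : Type} [Field L] [NumberField L] [Algebra K L] {D : ℕ}
    (h : Module.finrank ℚ L ≤ D) : Module.finrank K L ≤ D := by
  have h1 := Module.finrank_mul_finrank ℚ K L
  have h2 : 0 < Module.finrank ℚ K := Module.finrank_pos
  nlinarith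

/-- heights of linear forms, uniform in the extension -/
lemma lin_heightU (c : Option K) (D : ℕ) : ∃ k : ℕ, ∀ (L : Type) [Field L] [NumberField L]
    [Algebra K L], Module.finrank ℚ L ≤ D → ∀ t : L,
      mulHeight₁ (lin (c.map (algebraMap K L)) t) ≤ 2 ^ k * mulHeight₁ t := by
  rcases c with _ | γ
  · refine ⟨0, fun L _ _ _ _ t => ?_⟩
    show mulHeight₁ (1 : L) ≤ _
    rw [mulHeight₁_one, pow_zero, one_mul]
    exact one_le_mulHeight₁ _
  · obtain ⟨k, hk⟩ := exists_two_pow (mulHeight₁ γ)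
    refine ⟨D + k * D, fun L _ _ _ hD t => ?_⟩
    show mulHeight₁ (t - algebraMap K L γ) ≤ _
    have h1 : mulHeight₁ (algebraMap K L γ) ≤ 2 ^ (k * D) := by
      rw [mulHeight₁_ext L γ]
      calc mulHeight₁ γ ^ Module.finrank K L ≤ (2 ^ k) ^ Module.finrank K L :=
            pow_le_pow_left₀ (mulHeight₁_nonneg _) hk _
        _ = 2 ^ (k * Module.finrank K L) := by rw [← pow_mul]
        _ ≤ _ := pow_le_pow_right₀ (by norm_num) (Nat.mul_le_mul_left _ (finrank_le_of hD))
    have h2 : (2 : ℝ) ^ totalWeight L ≤ 2 ^ D :=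
      pow_le_pow_right₀ (by norm_num) (by rw [totalWeight_eq_finrank]; exact hD)
    calc mulHeight₁ (t - algebraMap K L γ)
        ≤ 2 ^ totalWeight L * mulHeight₁ t * mulHeight₁ (algebraMap K L γ) := mulHeight₁_sub_le _ _
      _ ≤ 2 ^ D * mulHeight₁ t * 2 ^ (k * D) := by
          apply mul_le_mul _ h1 (mulHeight₁_nonneg _) (mul_nonneg (by positivity) (mulHeight₁_nonneg _))
          exact mul_le_mul_of_nonneg_right h2 (mulHeight₁_nonneg _)
      _ = _ := by rw [pow_add]; ring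

lemma lin_map {L : Type} [Field L] [NumberField L] [Algebra K L] (c : Option K) (t : K) :
    algebraMap K L (lin c t) = lin (c.map (algebraMap K L)) (algebraMap K L t) := by
  rcases c with _ | γ
  · exact map_one _
  · exact map_sub _ _ _

/-- **closeness of the cross ratio**, uniform in the extension -/
lemma cross_closeU (b : K) (c : Option K) (M : ℕ) (hM : 1 ≤ M) (D : ℕ) :
    ∃ k : ℕ, ∀ (L : Type) [Field L] [NumberField L] [Algebra K L], Module.finrank ℚ L ≤ D →
      ∀ (g : ℕ) (t : K) (a : Option L) (φ : L →+* ℂ) (T X : ℕ), a ≠ some (algebraMap K L b) →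
      a ≠ c.map (algebraMap K L) → hp a ≤ 2 ^ g → NearL φ M t a → 2 ^ T ≤ mulHeight₁ t →
      X * M ≤ T → k * (g + 1) ≤ X →
      ∃ α : L, α ≠ 0 ∧ mulHeight₁ α ≤ 2 ^ (k * (g + 1)) ∧ lin c t ≠ 0 ∧
        ‖φ (algebraMap K L ((t - b) / lin c t)) / φ α - 1‖ ≤ 2 ^ (k * (g + 1)) / 2 ^ X := by
  obtain ⟨kb, hkb⟩ := lin_heightU (some b) D
  obtain ⟨kc, hkc⟩ := lin_heightU c D
  obtain ⟨kd, hkd⟩ := exists_two_pow (mulHeight₁ (lin c b) + hp c)
  have hpc : 0 ≤ hp c := by
    rcases c with _ | γ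
    · exact zero_le_one
    · exact mulHeight₁_nonneg _
  refine ⟨2 * (kb + kc + kd + 2), ?_⟩
  intro L _ _ _ hD g t a φ T X hab hac hag hnear hT hXL hX
  obtain ⟨α, h1, h2, h3, h4⟩ := cross_core (algebraMap K L b) (c.map (algebraMap K L)) M hM kb kc kd
    (hkb L hD) (hkc L hD) φ (by
      rw [← lin_map]
      have := norm_le_height (φ.comp (algebraMap K L)) (lin c b)
      have h0 : ‖φ (algebraMap K L (lin c b))‖ ≤ mulHeight₁ (lin c b) := this
      linarith) (by
      intro γ hγ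
      rcases c with _ | γ₀
      · cases hγ
      · have e : algebraMap K L γ₀ = γ := Option.some.inj hγ
        rw [← e]
        have h0 : ‖φ (algebraMap K L γ₀)‖ ≤ mulHeight₁ γ₀ := norm_le_height (φ.comp (algebraMap K L)) γ₀
        have h1 : hp (some γ₀) = mulHeight₁ γ₀ := rfl
        have h2 := mulHeight₁_nonneg (lin (some γ₀) b)
        linarith) g (algebraMap K L t) a T X hab hac hag (mulHeight₁ t) hT (by
      rcases a with _ | α
      · exact hnear
      · exact hnear) hXL hX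
  refine ⟨α, h1, h2, ?_, ?_⟩
  · rw [← lin_map] at h3
    exact (map_ne_zero (algebraMap K L)).1 h3
  · rw [← lin_map, ← map_sub, ← map_div₀, map_div₀ φ] at h4
    exact h4

end

end Run7.h197.D
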