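import Pool.Agent.Run7.h197.D.All

/-!
An explicit bound for the integer points on the curves `T(x, y) = C P(x, y) ^ n` in terms of the length
and the degree of the equation.
-/

set_option autoImplicit false

namespace Run7.h197.D

open Finset
open MvPolynomial (eval IsHomogeneous aeval)
open Run7.h197.ES (len len_nonneg one_le_len eval_bound restr restr_eval deg_sum hom_eval)
open Run7.h197.W

lemma restr_natDegree (R : MvPolynomial (Fin 2) ℤ) (x y : ℤ) {D : ℕ} (hD : R.totalDegree ≤ D) :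
    (restr R x y).natDegree ≤ D := by
  unfold restr
  apply Polynomial.natDegree_sum_le_of_forall_le
  intro d hd
  refine (Polynomial.natDegree_C_mul_X_pow_le _ _).trans (deg_sum hd hD)

lemma exists_ne {Q : MvPolynomial (Fin 2) ℤ} (hQ : Q ≠ 0) : ∃ x y : ℤ, eval ![x, y] Q ≠ 0 := by
  by_contra hcon
  push Not at hcon
  apply hQ
  apply MvPolynomial.funext
  intro v
  rw [map_zero]
  have h : v = ![v 0, v 1] := by
    funext i
    fin_cases i <;> rfl
  rw [h]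
  exact hcon _ _

/-- the degree of the equation -/
lemma le_deg {T : MvPolynomial (Fin 2) ℤ} {e : ℕ} (hT : T.IsHomogeneous e) (c : ℤ) (hc : c ≠ 0)
    (n d : ℕ) (Q P' : MvPolynomial (Fin 2) ℤ) (hd : 1 ≤ d) (hQ : Q.IsHomogeneous d) (hQ0 : Q ≠ 0)
    (hP' : P'.totalDegree < d) (hne : e < n) :
    n ≤ (T - MvPolynomial.C c * (Q + P') ^ n).totalDegree := by
  obtain ⟨x, y, hxy⟩ := exists_ne hQ0
  obtain ⟨f, hf⟩ : ∃ f, f = T - MvPolynomial.C c * (Q + P') ^ n := ⟨_, rfl⟩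
  rw [← hf]
  have h1 := restr_natDegree f x y (le_refl f.totalDegree)
  have h2 : restr f x y = Polynomial.C (eval ![x, y] T) * Polynomial.X ^ e -
      Polynomial.C c * (Polynomial.C (eval ![x, y] Q) * Polynomial.X ^ d + restr P' x y) ^ n := by
    apply Polynomial.funext
    intro t
    rw [restr_eval, hf, map_sub, map_mul, MvPolynomial.eval_C, map_pow, map_add, hom_eval hT,
      hom_eval hQ, Polynomial.eval_sub, Polynomial.eval_mul, Polynomial.eval_mul, Polynomial.eval_C,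
      Polynomial.eval_C, Polynomial.eval_pow, Polynomial.eval_pow, Polynomial.eval_X,
      Polynomial.eval_add, Polynomial.eval_mul, Polynomial.eval_C, Polynomial.eval_pow,
      Polynomial.eval_X, restr_eval]
    ring
  have h3 : (Polynomial.C (eval ![x, y] Q) * Polynomial.X ^ d + restr P' x y).natDegree = d := by
    rw [Polynomial.natDegree_add_eq_left_of_natDegree_lt]
    · exact Polynomial.natDegree_C_mul_X_pow _ _ hxy
    · rw [Polynomial.natDegree_C_mul_X_pow _ _ hxy]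
      exact lt_of_le_of_lt (restr_natDegree P' x y le_rfl) hP'
  have h4 : (Polynomial.C c * (Polynomial.C (eval ![x, y] Q) * Polynomial.X ^ d +
      restr P' x y) ^ n).natDegree = n * d := by
    rw [Polynomial.natDegree_C_mul hc, Polynomial.natDegree_pow, h3]
  have h5 : n ≤ n * d := Nat.le_mul_of_pos_right _ hd
  have h6 : (restr f x y).natDegree = n * d := by
    rw [h2, Polynomial.natDegree_sub_eq_right_of_natDegree_lt, h4]
    rw [h4]
    exact lt_of_le_of_lt (Polynomial.natDegree_C_mul_X_pow_le _ _) (lt_of_lt_of_le hne h5)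
  omega

/-- the constant term -/
lemma const_le {T : MvPolynomial (Fin 2) ℤ} {e : ℕ} (hT : T.IsHomogeneous e) (he : 1 ≤ e) (c : ℤ)
    (n d : ℕ) (Q P' : MvPolynomial (Fin 2) ℤ) (hd : 1 ≤ d) (hQ : Q.IsHomogeneous d) :
    |c| * |eval ![0, 0] P'| ^ n ≤ len (T - MvPolynomial.C c * (Q + P') ^ n) := by
  obtain ⟨f, hf⟩ : ∃ f, f = T - MvPolynomial.C c * (Q + P') ^ n := ⟨_, rfl⟩
  rw [← hf]
  have h1 := eval_bound f 0 0 1 le_rfl (by simp) (by simp) (le_refl f.totalDegree)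
  have hz : ∀ {P : MvPolynomial (Fin 2) ℤ} {m : ℕ}, P.IsHomogeneous m → 1 ≤ m → eval ![0, 0] P = 0 := by
    intro P m hP hm
    have h := hom_eval hP (0 : ℤ) 0 0
    rw [mul_zero, zero_pow (by omega), zero_mul] at h
    exact h
  have h2 : eval ![0, 0] f = -(c * (eval ![0, 0] P') ^ n) := by
    rw [hf, map_sub, map_mul, MvPolynomial.eval_C, map_pow, map_add, hz hT he, hz hQ hd]
    ring
  rw [h2, abs_neg, abs_mul, abs_pow, one_pow, mul_one] at h1
  exact h1

/-- **the bound by length and degree** -/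
theorem lenDeg {T : MvPolynomial (Fin 2) ℤ} {e : ℕ} (hT : T.IsHomogeneous e) (hT0 : T ≠ 0)
    (he : 1 ≤ e) (s D : ℕ) :
    ∃ κ : ℕ, ∀ (n : ℕ) (C₁ C₂ : ℤ) (d : ℕ) (Q P' : MvPolynomial (Fin 2) ℤ),
      C₁ ≠ 0 → C₂ ≠ 0 → 1 ≤ d → d ≤ D → Q.IsHomogeneous d → Q ≠ 0 → P'.totalDegree < d →
      Sep T Q → eval ![0, 0] P' ≠ 0 →
      (C₂ * eval ![0, 0] P').natAbs.primeFactors.card ≤ s → 
      (2 + Real.log C₁.natAbs + Real.log (rad (C₂ * eval ![0, 0] P')) +
        Real.log ((len Q + len P' : ℤ) : ℝ)) ^ κ < n →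
      ∀ x y : ℤ, eval ![x, y] (T - MvPolynomial.C (C₁ * C₂) * (Q + P') ^ n) = 0 →
        max |x| |y| ≤ len (T - MvPolynomial.C (C₁ * C₂) * (Q + P') ^ n) *
          3 ^ (T - MvPolynomial.C (C₁ * C₂) * (Q + P') ^ n).totalDegree := by
  obtain ⟨κ₀, h⟩ := allU hT hT0 he s D
  refine ⟨max κ₀ e, ?_⟩
  intro n C₁ C₂ d Q P' hC₁ hC₂ hd hdD hQ hQ0 hP' hsep h0 hs hRn x y heq
  obtain ⟨R, hR⟩ : ∃ R : ℝ, R = 2 + Real.log C₁.natAbs + Real.log (rad (C₂ * eval ![0, 0] P')) +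
        Real.log ((len Q + len P' : ℤ) : ℝ) := ⟨_, rfl⟩
  rw [← hR] at hRn
  have hu1 : 1 ≤ len Q + len P' := by
    have := one_le_len hQ0
    have := len_nonneg P'
    omega
  have l1 : 0 ≤ Real.log C₁.natAbs := Real.log_natCast_nonneg _
  have l2 : 0 ≤ Real.log (rad (C₂ * eval ![0, 0] P')) := Real.log_natCast_nonneg _
  have l3 : 0 ≤ Real.log ((len Q + len P' : ℤ) : ℝ) := Real.log_nonneg (by exact_mod_cast hu1)
  have hR2 : 2 ≤ R := by rw [hR]; linarith
  have k1 : R ^ κ₀ ≤ R ^ max κ₀ e := pow_le_pow_right₀ (by linarith) (le_max_left _ _)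
  have k2 : R ^ e ≤ R ^ max κ₀ e := pow_le_pow_right₀ (by linarith) (le_max_right _ _)
  have hen : e < n := by
    have h1 : (e : ℝ) < 2 ^ e := by exact_mod_cast Nat.lt_two_pow_self
    have h2 : (2 : ℝ) ^ e ≤ R ^ e := pow_le_pow_left₀ (by norm_num) hR2 _
    have h3 : (e : ℝ) < n := by linarith
    exact_mod_cast h3
  have hc : C₁ * C₂ ≠ 0 := mul_ne_zero hC₁ hC₂
  have hdeg := le_deg hT (C₁ * C₂) hc n d Q P' hd hQ hQ0 hP' hen
  have hcon := const_le hT he (C₁ * C₂) n d Q P' hd hQ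
  obtain ⟨f, hf⟩ : ∃ f, f = T - MvPolynomial.C (C₁ * C₂) * (Q + P') ^ n := ⟨_, rfl⟩
  rw [← hf] at heq hdeg hcon ⊢
  have heq' : eval ![x, y] T = C₁ * C₂ * (eval ![x, y] (Q + P')) ^ n := by
    rw [hf, map_sub, map_mul, MvPolynomial.eval_C, map_pow] at heq
    linarith
  obtain ⟨-, a2⟩ := h n C₁ C₂ (eval ![0, 0] P') d Q P' hC₁ hC₂ hd hdD hQ hQ0 hP' hsep rfl h0
    hs R hR (lt_of_le_of_lt k1 hRn) x y heq'
  have h3 : Real.exp (R ^ κ₀) ≤ 3 ^ n := by
    have h4 : R ^ κ₀ ≤ n := k1.trans hRn.le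
    have h5 : Real.exp (R ^ κ₀) ≤ Real.exp (n : ℝ) := Real.exp_le_exp.2 h4
    have h6 : Real.exp (n : ℝ) = Real.exp 1 ^ n := by rw [← Real.exp_nat_mul, mul_one]
    have h7 : Real.exp 1 ≤ 3 := by
      have := Real.exp_one_lt_d9
      linarith
    rw [h6] at h5
    exact h5.trans (pow_le_pow_left₀ (Real.exp_pos 1).le h7 n)
  have h4 : (3 : ℝ) ^ n ≤ 3 ^ f.totalDegree := pow_le_pow_right₀ (by norm_num) hdeg
  have hconR : |((C₁ * C₂ : ℤ) : ℝ)| * |((eval ![0, 0] P' : ℤ) : ℝ)| ^ n ≤ (len f : ℝ) := by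
    exact_mod_cast hcon
  have hlen0 : (0 : ℝ) ≤ len f := by exact_mod_cast len_nonneg f
  have h5 : max |(x : ℝ)| |(y : ℝ)| ≤ (len f : ℝ) * 3 ^ f.totalDegree := by
    refine a2.trans ?_
    exact mul_le_mul hconR (h3.trans h4) (Real.exp_pos _).le hlen0
  exact_mod_cast h5

end Run7.h197.D
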