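import Pool.Agent.Run7.h197.D.Arch
import Pool.Agent.Run7.h197.V.Far

/-!
The distance of elements of a number field which are almost `n`-th powers from elements of small
height of extensions of bounded degree.
-/

set_option autoImplicit false

namespace Run7.h197.D

open NumberField IsDedekindDomain Finset Pool.Agent.H691R3 Pool.Agent.Y673.Loc Pool.Agent.Y673.Cnt
open Run7.h197.ST Height Pool.Agent.H951R3.V Run7.h197.Q Run7.h197.V

variable {K : Type} [Field K] [NumberField K]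

/-- **the distance from `α`** -/
theorem farU (S : Finset (HeightOneSpectrum (𝓞 K))) (s C D : ℕ) :
    ∃ κ g₀ : ℕ, ∀ g n m N : ℕ, g₀ ≤ g → g ^ κ ≤ n → n < 2 ^ g → m ≠ 0 → N ≠ 0 → m ≤ 2 ^ g →
      N ≤ 2 ^ g → N.primeFactors.card ≤ s → ∀ x : K, x ≠ 0 →
      Close (S : Set (HeightOneSpectrum (𝓞 K))) n m N x →
      ∀ (L : Type) [Field L] [NumberField L] [Algebra K L], Module.finrank ℚ L ≤ D →
      ∀ α : L, α ≠ 0 → mulHeight₁ α ≤ 2 ^ g →
      (∀ k : ℕ, 1 ≤ k → (algebraMap K L x) ^ k ≠ α ^ k) →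
      ∀ X : ℕ, mulHeight₁ x ≤ 2 ^ (C * X) → g ^ κ ≤ X → ∀ φ : L →+* ℂ,
        (2 : ℝ) ^ g / 2 ^ X < ‖φ (algebraMap K L x) / φ α - 1‖ := by
  classical
  obtain ⟨h, B, m₀, hh, hrep⟩ := repV (K := K) S s
  obtain ⟨DK, hD⟩ : ∃ DK, DK = Module.finrank ℚ K := ⟨_, rfl⟩
  obtain ⟨C', hC'⟩ : ∃ C', C' = 2 * (h * C + 2 * (B * DK * m₀) + 1) := ⟨_, rfl⟩
  obtain ⟨κ, g₁, hA⟩ := archU D (m₀ + 2) C'
  obtain ⟨Q, hQ⟩ : ∃ Q, Q = B + 4 * h + 2 := ⟨_, rfl⟩
  obtain ⟨P, hP⟩ : ∃ P, P = Q ^ κ := ⟨_, rfl⟩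
  refine ⟨κ + 1, g₁ + P + h + 2, ?_⟩
  intro g n m N hg hgn hn2 hm hN hmg hNg hNs x hx0 hxS L _ _ _ hLD α hα0 hαH hroot X hxX hgX φ
  by_contra hcl
  push Not at hcl
  have hg2 : 2 ≤ g := by omega
  have hgκ : 1 ≤ g ^ κ := Nat.one_le_pow _ _ (by omega)
  obtain ⟨g', hg'⟩ : ∃ g', g' = Q * g := ⟨_, rfl⟩
  have hgg' : g ≤ g' := by rw [hg']; exact Nat.le_mul_of_pos_left _ (by omega)
  have hpow : g' ^ κ ≤ g ^ (κ + 1) := by
    rw [hg', mul_pow, ← hP, pow_succ, mul_comm]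
    exact Nat.mul_le_mul_left _ (by omega)
  have hgn' : g ≤ n := (Nat.le_self_pow (by omega) _).trans hgn
  have hn2' : 2 ≤ n := by omega
  have hn1 : 1 ≤ n := by omega
  obtain ⟨J, _, γ, e, e', Y, hJ, hγ, hγB, hY0, he, he', hxY⟩ :=
    hrep g n m N (by omega) hn2' hm hN hmg hNg hNs x hx0 hxS
  obtain ⟨k, hk0, hkH, hki⟩ := NumberField.exists_nat_le_mulHeight₁ Y
  obtain ⟨k₂, hk20, hk2H, hk2i⟩ := NumberField.exists_nat_le_mulHeight₁ α
  have hkK : (k : K) ≠ 0 := Nat.cast_ne_zero.2 hk0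
  have hk2L : (k₂ : L) ≠ 0 := Nat.cast_ne_zero.2 hk20
  have hγK : ∀ j, (γ j : K) ≠ 0 := fun j => RingOfIntegers.coe_ne_zero_iff.mpr (hγ j)
  have hprod0 : ∀ f : J → ℕ, (∏ j, (γ j : K) ^ (f j)) ≠ 0 := fun f =>
    Finset.prod_ne_zero_iff.mpr fun j _ => pow_ne_zero _ (hγK j)
  -- the height of `Y`
  have hHγ : ∀ f : J → ℕ, (∀ j, f j < n) →
      mulHeight₁ (∏ j, (γ j : K) ^ (f j)) ≤ (2 ^ (B * g * DK * m₀)) ^ n := by
    intro f hf
    refine (height_prod_pow (fun j => (γ j : K)) f n hf).trans ?_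
    apply pow_le_pow_left₀ (Finset.prod_nonneg fun j _ => mulHeight₁_nonneg _)
    calc ∏ j, mulHeight₁ (γ j : K) ≤ ∏ _j : J, (2 : ℝ) ^ (B * g * DK) := by
          apply Finset.prod_le_prod (fun j _ => mulHeight₁_nonneg _)
          intro j _
          rw [hD]
          exact height_int (γ j) (B * g) fun ψ => hγB ψ j
      _ = _ := by rw [Finset.prod_const, Finset.card_univ, hJ, ← pow_mul]
  obtain ⟨W, hW⟩ : ∃ W, W = h * (C * X) + 2 * (B * g * DK * m₀ * n) := ⟨_, rfl⟩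
  have hHY : mulHeight₁ Y ^ n ≤ 2 ^ W := by
    have h1 : Y ^ n = x ^ h * (∏ j, (γ j : K) ^ (e' j)) * (∏ j, (γ j : K) ^ (e j))⁻¹ := by
      rw [hxY]
      have := hprod0 e
      field_simp
    calc mulHeight₁ Y ^ n = mulHeight₁ (Y ^ n) := (mulHeight₁_pow _ _).symm
      _ = mulHeight₁ (x ^ h * (∏ j, (γ j : K) ^ (e' j)) * (∏ j, (γ j : K) ^ (e j))⁻¹) := by rw [h1]
      _ ≤ mulHeight₁ (x ^ h * (∏ j, (γ j : K) ^ (e' j))) * mulHeight₁ (∏ j, (γ j : K) ^ (e j))⁻¹ :=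
          mulHeight₁_mul_le _ _
      _ ≤ (mulHeight₁ (x ^ h) * mulHeight₁ (∏ j, (γ j : K) ^ (e' j))) *
            mulHeight₁ (∏ j, (γ j : K) ^ (e j))⁻¹ :=
          mul_le_mul_of_nonneg_right (mulHeight₁_mul_le _ _) (mulHeight₁_nonneg _)
      _ = (mulHeight₁ x ^ h * mulHeight₁ (∏ j, (γ j : K) ^ (e' j))) *
            mulHeight₁ (∏ j, (γ j : K) ^ (e j)) := by rw [mulHeight₁_pow, mulHeight₁_inv]
      _ ≤ ((2 ^ (C * X)) ^ h * (2 ^ (B * g * DK * m₀)) ^ n) * (2 ^ (B * g * DK * m₀)) ^ n := by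
          apply mul_le_mul _ (hHγ e he) (mulHeight₁_nonneg _) (by positivity)
          apply mul_le_mul _ (hHγ e' he') (mulHeight₁_nonneg _) (by positivity)
          exact pow_le_pow_left₀ (mulHeight₁_nonneg _) hxX _
      _ = 2 ^ W := by
          rw [hW, ← pow_mul, ← pow_mul, ← pow_add, ← pow_add]
          congr 1
          ring
  obtain ⟨V, hV⟩ : ∃ V, V = W / n + 1 := ⟨_, rfl⟩
  have hWV : W ≤ V * n := by
    rw [hV, mul_comm]
    exact (Nat.lt_mul_div_succ _ (by omega)).le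
  have hHV : mulHeight₁ Y ≤ 2 ^ V := by
    have h1 : mulHeight₁ Y ^ n ≤ (2 ^ V) ^ n := by
      rw [← pow_mul]
      exact hHY.trans (pow_le_pow_right₀ (by norm_num) hWV)
    exact (pow_le_pow_iff_left₀ (mulHeight₁_nonneg _) (by positivity) (by omega)).mp h1
  -- the integers of `L`
  let ι : K →+* L := algebraMap K L
  have hι : ∀ {z : K}, z ≠ 0 → ι z ≠ 0 := fun hz => (map_ne_zero ι).2 hz
  let Y₁ : 𝓞 L := ⟨ι ((k : K) * Y), hki.algebraMap⟩
  have hY₁ : (Y₁ : L) = ι ((k : K) * Y) := rfl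
  have hY₁0 : Y₁ ≠ 0 := RingOfIntegers.coe_ne_zero_iff.mp
    (show (Y₁ : L) ≠ 0 by rw [hY₁]; exact hι (mul_ne_zero hkK hY0))
  have hk𝓞 : ((k : 𝓞 L) : L) = (k : L) := by simp
  have hk𝓞0 : (k : 𝓞 L) ≠ 0 := RingOfIntegers.coe_ne_zero_iff.mp
    (show ((k : 𝓞 L) : L) ≠ 0 by rw [hk𝓞]; exact Nat.cast_ne_zero.2 hk0)
  have hk2𝓞 : ((k₂ : 𝓞 L) : L) = (k₂ : L) := by simp
  let α₁ : 𝓞 L := ⟨(k₂ : L) * α, hk2i⟩
  have hα₁ : (α₁ : L) = (k₂ : L) * α := rfl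
  let γL : J → 𝓞 L := fun j => ⟨ι (γ j : K), (RingOfIntegers.isIntegral_coe (γ j)).algebraMap⟩
  have hγL : ∀ j, (γL j : L) = ι (γ j : K) := fun _ => rfl
  let Γ : Option (Option J) → 𝓞 L := fun i => i.elim α₁ fun i => i.elim (k₂ : 𝓞 L) γL
  let E : Option (Option J) → ℕ := fun i => i.elim 0 fun i => i.elim h e
  let E' : Option (Option J) → ℕ := fun i => i.elim h fun i => i.elim 0 e'
  have hΓ0 : ∀ j, Γ j ≠ 0 := by
    rintro (_ | _ | j)
    · exact RingOfIntegers.coe_ne_zero_iff.mp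
        (show (α₁ : L) ≠ 0 by rw [hα₁]; exact mul_ne_zero hk2L hα0)
    · exact RingOfIntegers.coe_ne_zero_iff.mp
        (show ((k₂ : 𝓞 L) : L) ≠ 0 by rw [hk2𝓞]; exact hk2L)
    · exact RingOfIntegers.coe_ne_zero_iff.mp
        (show (γL j : L) ≠ 0 by rw [hγL]; exact hι (hγK j))
  have hΓL : ∀ j, (Γ j : L) ≠ 0 := fun j => RingOfIntegers.coe_ne_zero_iff.mpr (hΓ0 j)
  have hprodL : ∀ f : J → ℕ, ∏ j, (γL j : L) ^ (f j) = ι (∏ j, (γ j : K) ^ (f j)) := by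
    intro f
    rw [map_prod]
    exact Finset.prod_congr rfl fun j _ => by rw [hγL, map_pow]
  have hPE : ∏ i, (Γ i : L) ^ (E i) = (k₂ : L) ^ h * ι (∏ j, (γ j : K) ^ (e j)) := by
    rw [Fintype.prod_option, Fintype.prod_option]
    show (α₁ : L) ^ 0 * (((k₂ : 𝓞 L) : L) ^ h * ∏ j, (γL j : L) ^ (e j)) = _
    rw [pow_zero, one_mul, hprodL, hk2𝓞]
  have hPE' : ∏ i, (Γ i : L) ^ (E' i) = ((k₂ : L) * α) ^ h * ι (∏ j, (γ j : K) ^ (e' j)) := by
    rw [Fintype.prod_option, Fintype.prod_option]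
    show (α₁ : L) ^ h * (((k₂ : 𝓞 L) : L) ^ 0 * ∏ j, (γL j : L) ^ (e' j)) = _
    rw [pow_zero, one_mul, hprodL, hα₁]
  let a : 𝓞 L := (∏ j, Γ j ^ (E j)) * Y₁ ^ n
  let b : 𝓞 L := (∏ j, Γ j ^ (E' j)) * (k : 𝓞 L) ^ n
  have haK : (a : L) = (∏ j, (Γ j : L) ^ (E j)) * (Y₁ : L) ^ n := by
    show algebraMap (𝓞 L) L _ = _
    rw [map_mul, map_prod, map_pow]
    simp only [map_pow]
  have hbK : (b : L) = (∏ j, (Γ j : L) ^ (E' j)) * ((k : 𝓞 L) : L) ^ n := by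
    show algebraMap (𝓞 L) L _ = _
    rw [map_mul, map_prod, map_pow]
    simp only [map_pow]
  have hax : (a : L) * α ^ h = (ι x) ^ h * (b : L) := by
    rw [haK, hbK, hPE, hPE', hY₁, hk𝓞]
    have h1 := congrArg ι hxY
    rw [map_mul, map_mul, map_pow, map_pow] at h1
    rw [map_mul, map_natCast]
    calc (k₂ : L) ^ h * ι (∏ j, (γ j : K) ^ (e j)) * ((k : L) * ι Y) ^ n * α ^ h
        = (ι (∏ j, (γ j : K) ^ (e j)) * (ι Y) ^ n) * ((k₂ : L) ^ h * (k : L) ^ n * α ^ h) := by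
          rw [mul_pow]; ring
      _ = (ι x ^ h * ι (∏ j, (γ j : K) ^ (e' j))) * ((k₂ : L) ^ h * (k : L) ^ n * α ^ h) := by
          rw [h1]
      _ = _ := by rw [mul_pow]; ring
  have hb0K : (b : L) ≠ 0 := by
    rw [hbK, hk𝓞]
    exact mul_ne_zero (Finset.prod_ne_zero_iff.mpr fun j _ => pow_ne_zero _ (hΓL j))
      (pow_ne_zero _ (Nat.cast_ne_zero.2 hk0))
  have ha0K : (a : L) ≠ 0 := by
    rw [haK]
    exact mul_ne_zero (Finset.prod_ne_zero_iff.mpr fun j _ => pow_ne_zero _ (hΓL j))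
      (pow_ne_zero _ (RingOfIntegers.coe_ne_zero_iff.mpr hY₁0))
  have ha0 : a ≠ 0 := RingOfIntegers.coe_ne_zero_iff.mp ha0K
  have hb0 : b ≠ 0 := RingOfIntegers.coe_ne_zero_iff.mp hb0K
  have hquot : ∀ ψ : L →+* ℂ, ψ (a : L) / ψ (b : L) = (ψ (ι x) / ψ α) ^ h := by
    intro ψ
    have h1 : ψ (b : L) ≠ 0 := (map_ne_zero ψ).2 hb0K
    have h2 : ψ α ≠ 0 := (map_ne_zero ψ).2 hα0
    have h3 := congrArg ψ hax
    rw [map_mul, map_mul, map_pow, map_pow] at h3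
    rw [div_pow, div_eq_div_iff h1 (pow_ne_zero _ h2)]
    exact h3
  have hgg : ∀ i : ℕ, i ≤ Q * g → (2 : ℝ) ^ i ≤ 2 ^ g' := fun i hi =>
    pow_le_pow_right₀ (by norm_num) (by rw [hg']; exact hi)
  have key := hA L hLD g' (le_trans (by omega) hgg') (Option (Option J))
    (by rw [Fintype.card_option, Fintype.card_option, hJ]) Γ hΓ0 (by
      have hk2g : (k₂ : ℝ) ≤ 2 ^ g := hk2H.trans hαH
      rintro ψ (_ | _ | j)
      · show ‖ψ (α₁ : L)‖ ≤ 2 ^ g'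
        rw [hα₁, map_mul, norm_mul, map_natCast, Complex.norm_natCast]
        have h1 := (norm_le_height ψ α).trans hαH
        calc (k₂ : ℝ) * ‖ψ α‖ ≤ 2 ^ g * 2 ^ g := mul_le_mul hk2g h1 (norm_nonneg _) (by positivity)
          _ = 2 ^ (2 * g) := by rw [← pow_add]; congr 1; ring
          _ ≤ 2 ^ g' := hgg _ (Nat.mul_le_mul_right _ (by omega))
      · show ‖ψ ((k₂ : 𝓞 L) : L)‖ ≤ 2 ^ g'
        rw [hk2𝓞, map_natCast, Complex.norm_natCast]
        exact hk2g.trans (pow_le_pow_right₀ (by norm_num) hgg')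
      · show ‖ψ (γL j : L)‖ ≤ 2 ^ g'
        rw [hγL]
        have h1 := hγB (ψ.comp ι) j
        exact h1.trans (hgg _ (Nat.mul_le_mul_right _ (by omega)))) n (hpow.trans hgn)
    (hn2.trans_le (Nat.pow_le_pow_right (by norm_num) hgg')) X (2 * V) a b Y₁ (k : 𝓞 L) E E' ha0 hb0
    hY₁0 hk𝓞0 (by
      rintro (_ | _ | j)
      · show 0 < n
        omega
      · show h < n
        omega
      · exact he j) (by
      rintro (_ | _ | j)
      · show h < n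
        omega
      · show 0 < n
        omega
      · exact he' j) haK hbK ?_ ?_ ?_ φ ?_
  · -- contradiction
    omega
  · -- the size
    have h1 : n * V ≤ W + n := by
      rw [hV, mul_add, mul_one]
      exact Nat.add_le_add_right (Nat.mul_div_le _ _) _
    have h2 : W + n ≤ (h * C + 2 * (B * DK * m₀) + 1) * (g' * n + X) := by
      have e1 : g * n ≤ g' * n := Nat.mul_le_mul_right _ hgg'
      have e2 : n ≤ g' * n := Nat.le_mul_of_pos_left _ (by omega)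
      have e3 : (2 * (B * DK * m₀)) * (g * n) ≤ (2 * (B * DK * m₀)) * (g' * n + X) :=
        Nat.mul_le_mul_left _ (by omega)
      have e4 : h * C * X ≤ h * C * (g' * n + X) := Nat.mul_le_mul_left _ (by omega)
      calc W + n = h * C * X + (2 * (B * DK * m₀)) * (g * n) + n := by rw [hW]; ring
        _ ≤ h * C * (g' * n + X) + (2 * (B * DK * m₀)) * (g' * n + X) + (g' * n + X) := by omega
        _ = _ := by ring
    calc n * (2 * V) = 2 * (n * V) := by ring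
      _ ≤ 2 * ((h * C + 2 * (B * DK * m₀) + 1) * (g' * n + X)) := by omega
      _ = C' * (g' * n + X) := by rw [hC']; ring
  · intro ψ
    have hk2 : (k : ℝ) ≤ 2 ^ V := hkH.trans hHV
    have hY2 : ‖ψ (ι Y)‖ ≤ 2 ^ V := (norm_le_height (ψ.comp ι) Y).trans hHV
    constructor
    · rw [hY₁, map_mul, map_mul, norm_mul, map_natCast, map_natCast, Complex.norm_natCast, two_mul,
        pow_add]
      exact mul_le_mul hk2 hY2 (norm_nonneg _) (by positivity)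
    · rw [hk𝓞, map_natCast, Complex.norm_natCast]
      exact hk2.trans (pow_le_pow_right₀ (by norm_num) (by omega))
  · intro i hi heq
    apply hroot (h * i) (Nat.mul_pos hh hi)
    have h1 : (b : L) ^ i ≠ 0 := pow_ne_zero _ hb0K
    have h2 : ((a : L) * α ^ h) ^ i = (ι x ^ h * (b : L)) ^ i := by rw [hax]
    rw [mul_pow, mul_pow, heq, ← pow_mul, ← pow_mul, mul_comm] at h2
    exact (mul_right_cancel₀ h1 h2).symm
  · rw [hquot]
    refine (abs_pow_sub_one _ _ _ _ hcl).trans ?_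
    apply div_le_div_of_nonneg_right _ (by positivity)
    apply pow_le_pow_right₀ (by norm_num)
    rw [hg', hQ]
    nlinarith [Nat.zero_le (B * g)]

end Run7.h197.D
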