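import Pool.Agent.Run7.h197.D.Cross
import Pool.Agent.Run7.h197.U.Gap

/-!
Powers `α v ^ n` close to `1`, uniformly in all number fields of bounded degree; the archimedean sizes of
the terms of `a x ^ n + b y ^ n + c z ^ n = 0`.
-/

set_option autoImplicit false

namespace Run7.h197.D

open NumberField Finset Height Run7.h197.BK Run7.h197.ST Run7.h197.V Run7.h197.U Run7.h197.Q
open Pool.Agent.Y913.Bk (PolyB)

/-- **the estimate with natural parameters** -/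
theorem pow_close_nat (D M : ℕ) (hM : 1 ≤ M) : ∃ κ g₀ : ℕ, ∀ (K : Type) [Field K] [NumberField K],
    Module.finrank ℚ K ≤ D → ∀ (α v : K) (g n : ℕ), α ≠ 0 → v ≠ 0 → (∀ k : ℕ, 1 ≤ k → v ^ k ≠ 1) →
    g₀ ≤ g → mulHeight₁ α ≤ 2 ^ g → g ^ κ ≤ n → ∀ φ : K →+* ℂ,
    1 < mulHeight₁ v ^ n * ‖φ (α * v ^ n) - 1‖ ^ M := by
  classical
  obtain ⟨κ, g₁, hA⟩ := archU D 2 (2 * M + 2)
  obtain ⟨N₀, hN₀, hgap⟩ := gap D
  obtain ⟨g₂, hg₂⟩ := ((PolyB.const (2 ^ (κ + 2))).mul (PolyB.id.pow (κ + 2))).le_two_pow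
  obtain ⟨P, hP⟩ : ∃ P, P = 2 ^ κ := ⟨_, rfl⟩
  have hP1 : 1 ≤ P := by rw [hP]; exact Nat.one_le_pow _ _ (by norm_num)
  refine ⟨κ + 2, g₁ + g₂ + P + 4 * (N₀ * M) * (P + 2) + N₀ + 2, ?_⟩
  intro K _ _ hKD α v g n hα hv hroot hg hαg hgn φ
  by_contra hcon
  push Not at hcon
  -- the right size of the parameter
  obtain ⟨j, hgj, hj1, hj2⟩ := exists_root (κ + 2) g n (by omega) hgn
  have hj0 : 2 ≤ j := by omega
  have hnj : n < 2 ^ j := by
    have h1 : 2 ^ (κ + 2) * j ^ (κ + 2) ≤ 2 ^ j := hg₂ j (by omega)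
    have h2 : (j + 1) ^ (κ + 2) ≤ 2 ^ (κ + 2) * j ^ (κ + 2) := by
      rw [← mul_pow]
      exact Nat.pow_le_pow_left (by omega) _
    omega
  obtain ⟨g', hg'⟩ : ∃ g', g' = 2 * j := ⟨_, rfl⟩
  obtain ⟨G, hG⟩ : ∃ G, G = j ^ κ := ⟨_, rfl⟩
  have hG1 : 1 ≤ G := by rw [hG]; exact Nat.one_le_pow _ _ (by omega)
  have hg'κ : g' ^ κ = P * G := by rw [hg', mul_pow, ← hP, ← hG]
  have hjκ2 : j ^ (κ + 2) = G * j * j := by rw [hG]; ring
  rw [hjκ2] at hj1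
  have hGj : 1 ≤ G * j := Nat.mul_pos hG1 (by omega)
  have hn4 : 4 * (N₀ * M) * (P + 2) * G * j ≤ n := by
    calc 4 * (N₀ * M) * (P + 2) * G * j = (4 * (N₀ * M) * (P + 2)) * (G * j) := by ring
      _ ≤ j * (G * j) := Nat.mul_le_mul_right _ (by omega)
      _ = G * j * j := by ring
      _ ≤ n := hj1
  have hg'n : g' ^ κ ≤ n := by
    rw [hg'κ]
    calc P * G ≤ j * G := Nat.mul_le_mul_right _ (by omega)
      _ = G * j * 1 := by ring
      _ ≤ G * j * j := Nat.mul_le_mul_left _ (by omega)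
      _ ≤ n := hj1
  have hn1 : 2 ≤ n := by
    have h1 : 1 * 2 ≤ G * j * j := Nat.mul_le_mul hGj hj0
    omega
  -- the heights
  have hv1 : 1 ≤ mulHeight₁ v := one_le_mulHeight₁ v
  have hvn1 : 1 ≤ mulHeight₁ v ^ n := one_le_pow₀ hv1
  obtain ⟨T, hT1, hT2⟩ := exists_nat_pow_near hvn1 (by norm_num : (1 : ℝ) < 2)
  obtain ⟨V₀, hV1, hV2⟩ := exists_nat_pow_near hv1 (by norm_num : (1 : ℝ) < 2)
  have hgapv : 2 < mulHeight₁ v ^ N₀ := hgap K hKD v hroot hv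
  have hTn : n < (T + 2) * N₀ := by
    by_contra hh
    push Not at hh
    have h1 : (2 : ℝ) ^ (T + 2) ≤ mulHeight₁ v ^ n := by
      calc (2 : ℝ) ^ (T + 2) ≤ (mulHeight₁ v ^ N₀) ^ (T + 2) :=
            pow_le_pow_left₀ (by norm_num) hgapv.le _
        _ = mulHeight₁ v ^ ((T + 2) * N₀) := by rw [← pow_mul, mul_comm]
        _ ≤ mulHeight₁ v ^ n := pow_le_pow_right₀ hv1 hh
    have h2 : (2 : ℝ) ^ (T + 1) < 2 ^ (T + 2) := pow_lt_pow_right₀ (by norm_num) (by omega)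
    linarith
  obtain ⟨X, hX⟩ : ∃ X, X = T / M := ⟨_, rfl⟩
  have hXT : X * M ≤ T := by rw [hX]; exact Nat.div_mul_le_self _ _
  have hTX : T < (X + 1) * M := by
    rw [hX, mul_comm]
    exact Nat.lt_mul_div_succ _ (by omega)
  have hXbig : (P + 2) * G * j ≤ X := by
    by_contra hh
    push Not at hh
    have h1 : T + 2 ≤ ((P + 2) * G * j) * M + 2 := by
      have : (X + 1) * M ≤ ((P + 2) * G * j) * M := Nat.mul_le_mul_right _ hh
      omega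
    have h2 : n < (((P + 2) * G * j) * M + 2) * N₀ := lt_of_lt_of_le hTn (Nat.mul_le_mul_right _ h1)
    have h3 : (((P + 2) * G * j) * M + 2) * N₀ ≤ 4 * (N₀ * M) * (P + 2) * G * j := by
      have e1 : 1 ≤ ((P + 2) * G * j) * M :=
        Nat.mul_pos (Nat.mul_pos (Nat.mul_pos (by omega) hG1) (by omega)) hM
      calc (((P + 2) * G * j) * M + 2) * N₀ ≤ (4 * (((P + 2) * G * j) * M)) * N₀ :=
            Nat.mul_le_mul_right _ (by omega)
        _ = _ := by ring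
    omega
  have hVT : n * V₀ ≤ T := by
    by_contra hh
    push Not at hh
    have h1 : (2 : ℝ) ^ (T + 1) ≤ mulHeight₁ v ^ n := by
      calc (2 : ℝ) ^ (T + 1) ≤ 2 ^ (n * V₀) := pow_le_pow_right₀ (by norm_num) hh
        _ = (2 ^ V₀) ^ n := by rw [← pow_mul, mul_comm]
        _ ≤ _ := pow_le_pow_left₀ (by positivity) hV1 n
    linarith
  have hdist : ‖φ (α * v ^ n) - 1‖ ≤ 1 / 2 ^ X := by
    apply two_pow_div X M hM (norm_nonneg _) hXT
    exact (mul_le_mul_of_nonneg_right hT1 (pow_nonneg (norm_nonneg _) _)).trans hcon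
  -- the integers
  obtain ⟨k, hk0, hkH, hki⟩ := NumberField.exists_nat_le_mulHeight₁ v
  obtain ⟨k₂, hk20, hk2H, hk2i⟩ := NumberField.exists_nat_le_mulHeight₁ α
  have hkK : (k : K) ≠ 0 := Nat.cast_ne_zero.2 hk0
  have hk2K : (k₂ : K) ≠ 0 := Nat.cast_ne_zero.2 hk20
  let Y : 𝓞 K := ⟨(k : K) * v, hki⟩
  let α₁ : 𝓞 K := ⟨(k₂ : K) * α, hk2i⟩
  have hY : (Y : K) = (k : K) * v := rfl
  have hα₁ : (α₁ : K) = (k₂ : K) * α := rfl
  have hk𝓞 : ((k : 𝓞 K) : K) = (k : K) := by simp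
  have hk2𝓞 : ((k₂ : 𝓞 K) : K) = (k₂ : K) := by simp
  have hY0K : (Y : K) ≠ 0 := by rw [hY]; exact mul_ne_zero hkK hv
  have hα₁0K : (α₁ : K) ≠ 0 := by rw [hα₁]; exact mul_ne_zero hk2K hα
  have hY0 : Y ≠ 0 := RingOfIntegers.coe_ne_zero_iff.mp hY0K
  have hα₁0 : α₁ ≠ 0 := RingOfIntegers.coe_ne_zero_iff.mp hα₁0K
  have hk𝓞0 : (k : 𝓞 K) ≠ 0 := RingOfIntegers.coe_ne_zero_iff.mp
    (show ((k : 𝓞 K) : K) ≠ 0 by rw [hk𝓞]; exact hkK)
  have hk2𝓞0 : (k₂ : 𝓞 K) ≠ 0 := RingOfIntegers.coe_ne_zero_iff.mp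
    (show ((k₂ : 𝓞 K) : K) ≠ 0 by rw [hk2𝓞]; exact hk2K)
  let γ : Bool → 𝓞 K := fun i => if i then α₁ else (k₂ : 𝓞 K)
  let e : Bool → ℕ := fun i => if i then 1 else 0
  let e' : Bool → ℕ := fun i => if i then 0 else 1
  let a : 𝓞 K := α₁ * Y ^ n
  let b : 𝓞 K := (k₂ : 𝓞 K) * (k : 𝓞 K) ^ n
  have ha : (a : K) = (α₁ : K) * (Y : K) ^ n := by
    show algebraMap (𝓞 K) K _ = _
    rw [map_mul, map_pow]
  have hb : (b : K) = (k₂ : K) * (k : K) ^ n := by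
    show algebraMap (𝓞 K) K _ = _
    rw [map_mul, map_pow, map_natCast, map_natCast]
  have hb0K : (b : K) ≠ 0 := by rw [hb]; exact mul_ne_zero hk2K (pow_ne_zero _ hkK)
  have ha0K : (a : K) ≠ 0 := by rw [ha]; exact mul_ne_zero hα₁0K (pow_ne_zero _ hY0K)
  have hab : (a : K) = (α * v ^ n) * (b : K) := by
    rw [ha, hb, hα₁, hY, mul_pow]
    ring
  have hgg' : g ≤ g' := by omega
  have h2g : (2 : ℝ) ^ (2 * g) ≤ 2 ^ g' := pow_le_pow_right₀ (by norm_num) (by omega)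
  have key := hA K hKD g' (by omega) Bool (by simp) γ (by
      rintro (_ | _)
      · exact hk2𝓞0
      · exact hα₁0) (by
      have hk2g : (k₂ : ℝ) ≤ 2 ^ g := hk2H.trans hαg
      rintro ψ (_ | _)
      · show ‖ψ ((k₂ : 𝓞 K) : K)‖ ≤ 2 ^ g'
        rw [hk2𝓞, map_natCast, Complex.norm_natCast]
        exact hk2g.trans (pow_le_pow_right₀ (by norm_num) hgg')
      · show ‖ψ (α₁ : K)‖ ≤ 2 ^ g'
        rw [hα₁, map_mul, norm_mul, map_natCast, Complex.norm_natCast]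
        have h1 := (norm_le_height ψ α).trans hαg
        calc (k₂ : ℝ) * ‖ψ α‖ ≤ 2 ^ g * 2 ^ g := mul_le_mul hk2g h1 (norm_nonneg _) (by positivity)
          _ = 2 ^ (2 * g) := by rw [← pow_add]; congr 1; ring
          _ ≤ 2 ^ g' := h2g) n hg'n
    (hnj.trans_le (Nat.pow_le_pow_right (by norm_num) (by omega))) X (2 * (V₀ + 1)) a b Y (k : 𝓞 K) e e'
    (RingOfIntegers.coe_ne_zero_iff.mp ha0K) (RingOfIntegers.coe_ne_zero_iff.mp hb0K) hY0 hk𝓞0 (by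
      rintro (_ | _)
      · show 0 < n
        omega
      · show 1 < n
        omega) (by
      rintro (_ | _)
      · show 1 < n
        omega
      · show 0 < n
        omega) (by
      rw [Fintype.prod_bool, ha]
      show _ = ((α₁ : K) ^ 1 * ((k₂ : 𝓞 K) : K) ^ 0) * (Y : K) ^ n
      rw [pow_one, pow_zero, mul_one]) (by
      rw [Fintype.prod_bool, hb]
      show _ = ((α₁ : K) ^ 0 * ((k₂ : 𝓞 K) : K) ^ 1) * ((k : 𝓞 K) : K) ^ n
      rw [pow_one, pow_zero, one_mul, hk𝓞, hk2𝓞]) ?_ ?_ ?_ φ ?_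
  · -- contradiction
    have h1 : P * G ≤ (P + 2) * G * j := by
      calc P * G = P * G * 1 := by ring
        _ ≤ (P + 2) * G * j := Nat.mul_le_mul (Nat.mul_le_mul_right _ (by omega)) (by omega)
    rw [hg'κ] at key
    omega
  · -- the size
    have h1 : n * (2 * (V₀ + 1)) ≤ 2 * T + 2 * n := by
      calc n * (2 * (V₀ + 1)) = 2 * (n * V₀) + 2 * n := by ring
        _ ≤ _ := by omega
    have h2 : 2 * T ≤ 2 * ((X + 1) * M) := by omega
    have h3 : n ≤ g' * n := Nat.le_mul_of_pos_left _ (by omega)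
    have h4 : M ≤ M * (g' * n) := Nat.le_mul_of_pos_right _ (by
      have : 1 ≤ g' * n := Nat.mul_pos (by omega) (by omega)
      exact this)
    calc n * (2 * (V₀ + 1)) ≤ 2 * ((X + 1) * M) + 2 * n := by omega
      _ = 2 * M * X + 2 * M + 2 * n := by ring
      _ ≤ 2 * M * X + 2 * (M * (g' * n)) + 2 * (g' * n) + 2 * X := by omega
      _ = (2 * M + 2) * (g' * n + X) := by ring
  · intro ψ
    have hHV : mulHeight₁ v ≤ 2 ^ (V₀ + 1) := hV2.le
    have hk2' : (k : ℝ) ≤ 2 ^ (V₀ + 1) := hkH.trans hHV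
    have hY2 : ‖ψ v‖ ≤ 2 ^ (V₀ + 1) := (norm_le_height ψ v).trans hHV
    constructor
    · rw [hY, map_mul, norm_mul, map_natCast, Complex.norm_natCast, two_mul, pow_add]
      exact mul_le_mul hk2' hY2 (norm_nonneg _) (by positivity)
    · rw [hk𝓞, map_natCast, Complex.norm_natCast]
      exact hk2'.trans (pow_le_pow_right₀ (by norm_num) (by omega))
  · -- not a root of unity
    intro i hi heq
    rw [hab, mul_pow] at heq
    have h1 : (α * v ^ n) ^ i = 1 := by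
      have h2 : (b : K) ^ i ≠ 0 := pow_ne_zero _ hb0K
      exact mul_right_cancel₀ h2 (by rw [heq, one_mul])
    have h2 : α ^ i = (v ^ (n * i))⁻¹ := by
      rw [mul_pow, ← pow_mul] at h1
      exact eq_inv_of_mul_eq_one_left h1
    have h3 : mulHeight₁ α ^ i = mulHeight₁ v ^ (n * i) := by
      rw [← mulHeight₁_pow, h2, mulHeight₁_inv, mulHeight₁_pow]
    rw [pow_mul] at h3
    have h4 : mulHeight₁ α = mulHeight₁ v ^ n :=
      (pow_left_inj₀ (mulHeight₁_nonneg _) (by positivity) (by omega)).1 h3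
    have h5 : (2 : ℝ) ^ T ≤ 2 ^ g := hT1.trans (h4 ▸ hαg)
    have h6 : T ≤ g := by
      by_contra hh
      push Not at hh
      have := pow_lt_pow_right₀ (by norm_num : (1 : ℝ) < 2) hh
      linarith
    have h7 : 1 * 1 ≤ (P + 1) * G := Nat.mul_le_mul (by omega) hG1
    have h8 : (P + 2) * G * j = (P + 1) * G * j + G * j := by ring
    have h9 : j ≤ (P + 1) * G * j := Nat.le_mul_of_pos_left _ (by omega)
    have h10 : X ≤ X * M := Nat.le_mul_of_pos_right _ hM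
    omega
  · rw [hab, map_mul]
    have hφb : φ (b : K) ≠ 0 := (map_ne_zero φ).2 hb0K
    rw [mul_div_cancel_right₀ _ hφb]
    refine hdist.trans ?_
    apply div_le_div_of_nonneg_right _ (by positivity)
    exact one_le_pow₀ (by norm_num)

/-- **powers close to `1`** -/
theorem pow_close (D M : ℕ) (hM : 1 ≤ M) : ∃ κ : ℕ, ∀ (K : Type) [Field K] [NumberField K],
    Module.finrank ℚ K ≤ D → ∀ (α v : K) (n : ℕ), α ≠ 0 → v ≠ 0 → (∀ k : ℕ, 1 ≤ k → v ^ k ≠ 1) →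
    (2 + Real.log (mulHeight₁ α)) ^ κ < n → ∀ φ : K →+* ℂ,
    1 < mulHeight₁ v ^ n * ‖φ (α * v ^ n) - 1‖ ^ M := by
  obtain ⟨κ₁, g₀, h⟩ := pow_close_nat D M hM
  refine ⟨(g₀ + 4) * κ₁, ?_⟩
  intro K _ _ hKD α v n hα hv hroot hn φ
  obtain ⟨R, hR⟩ : ∃ R, R = 2 + Real.log (mulHeight₁ α) := ⟨_, rfl⟩
  rw [← hR] at hn
  have l3 : 0 ≤ Real.log (mulHeight₁ α) := Real.log_nonneg (one_le_mulHeight₁ α)
  have hR2 : 2 ≤ R := by rw [hR]; linarith
  obtain ⟨g, hg⟩ : ∃ g, g = g₀ + ⌈2 * R⌉₊ := ⟨_, rfl⟩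
  have hgR : 2 * R ≤ g := by
    rw [hg]
    push_cast
    have := Nat.le_ceil (2 * R)
    have h0 : (0 : ℝ) ≤ g₀ := Nat.cast_nonneg _
    linarith
  have hlog2 : (1 / 2 : ℝ) ≤ Real.log 2 := by
    have := Real.log_two_gt_d9
    linarith
  have hαg : mulHeight₁ α ≤ 2 ^ g := by
    have hpos : 0 < mulHeight₁ α := lt_of_lt_of_le one_pos (one_le_mulHeight₁ α)
    rw [← Real.log_le_log_iff hpos (by positivity), Real.log_pow]
    have h1 : R ≤ g * (1 / 2) := by linarith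
    have h2 : Real.log (mulHeight₁ α) ≤ R := by rw [hR]; linarith
    exact h2.trans (h1.trans (mul_le_mul_of_nonneg_left hlog2 (Nat.cast_nonneg _)))
  have hgκ : ((g ^ κ₁ : ℕ) : ℝ) ≤ R ^ ((g₀ + 4) * κ₁) := by
    rw [pow_mul]
    push_cast
    apply pow_le_pow_left₀ (Nat.cast_nonneg _)
    have h1 : (g : ℝ) ≤ g₀ + (2 * R + 1) := by
      rw [hg]
      push_cast
      have := (Nat.ceil_lt_add_one (show 0 ≤ 2 * R by linarith)).le
      linarith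
    have h2 : (g₀ : ℝ) + 4 ≤ 2 ^ (g₀ + 3) := by
      have h3 : g₀ + 4 ≤ 2 ^ (g₀ + 3) := by
        have h4 : g₀ + 3 < 2 ^ (g₀ + 3) := Nat.lt_two_pow_self
        omega
      exact_mod_cast h3
    calc (g : ℝ) ≤ g₀ + (2 * R + 1) := h1
      _ ≤ (g₀ + 4) * R := by nlinarith [(Nat.cast_nonneg g₀ : (0 : ℝ) ≤ g₀)]
      _ ≤ 2 ^ (g₀ + 3) * R := mul_le_mul_of_nonneg_right h2 (by linarith)
      _ ≤ R ^ (g₀ + 3) * R :=
          mul_le_mul_of_nonneg_right (pow_le_pow_left₀ (by norm_num) hR2 _) (by linarith)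
      _ = R ^ (g₀ + 4) := by rw [← pow_succ]
  have h1 : g ^ κ₁ ≤ n := by
    have : ((g ^ κ₁ : ℕ) : ℝ) ≤ n := hgκ.trans hn.le
    exact_mod_cast this
  exact h K hKD α v g n hα hv hroot (by omega) hαg h1 φ

/-- **the sizes of the terms** -/
theorem terms_size (D M : ℕ) (hM : 1 ≤ M) : ∃ κ : ℕ, ∀ (K : Type) [Field K] [NumberField K],
    Module.finrank ℚ K ≤ D → ∀ (a b c x y z : K) (n : ℕ), a ≠ 0 → b ≠ 0 → c ≠ 0 → x ≠ 0 → y ≠ 0 →
    z ≠ 0 → a * x ^ n + b * y ^ n + c * z ^ n = 0 → (∀ k : ℕ, 1 ≤ k → (z / y) ^ k ≠ 1) →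
    (2 + Real.log (mulHeight₁ (c / b))) ^ κ < n → ∀ φ : K →+* ℂ,
    1 < mulHeight₁ (z / y) ^ n * ‖φ (a * x ^ n) / φ (b * y ^ n)‖ ^ M := by
  obtain ⟨κ, h⟩ := pow_close D M hM
  refine ⟨κ, ?_⟩
  intro K _ _ hKD a b c x y z n ha hb hc hx hy hz heq hroot hn φ
  have hneg : mulHeight₁ (-(c / b)) = mulHeight₁ (c / b) := mulHeight₁_neg _
  have h1 := h K hKD (-(c / b)) (z / y) n (neg_ne_zero.2 (div_ne_zero hc hb)) (div_ne_zero hz hy) hroot
    (by rw [hneg]; exact hn) φ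
  have hby : b * y ^ n ≠ 0 := mul_ne_zero hb (pow_ne_zero _ hy)
  have h2 : -(c / b) * (z / y) ^ n - 1 = (a * x ^ n) / (b * y ^ n) := by
    have hyn : y ^ n ≠ 0 := pow_ne_zero _ hy
    rw [div_pow]
    field_simp
    linear_combination -heq
  have h3 : φ (-(c / b) * (z / y) ^ n) - 1 = φ (a * x ^ n) / φ (b * y ^ n) := by
    rw [← map_div₀, ← h2, map_sub, map_one]
  rw [h3] at h1
  exact h1

end Run7.h197.D
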