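import Pool.Agent.Run7.h197.D.Fermat

/-!
The sizes of the terms of `x ^ n + y ^ n = z ^ n`, uniformly in all number fields of bounded degree.
-/

set_option autoImplicit false

namespace Run7.h197.D

open NumberField Finset Height Run7.h197.BK Run7.h197.ST Run7.h197.V Run7.h197.U Run7.h197.Q

/-- **comparison of two terms** -/
theorem term_cmp (D M : ℕ) (hM : 1 ≤ M) : ∃ n₀ : ℕ, ∀ (K : Type) [Field K] [NumberField K],
    Module.finrank ℚ K ≤ D → ∀ (a b c x y z : K) (n : ℕ), (a = 1 ∨ a = -1) → (b = 1 ∨ b = -1) →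
    (c = 1 ∨ c = -1) → x ≠ 0 → y ≠ 0 → z ≠ 0 → a * x ^ n + b * y ^ n + c * z ^ n = 0 →
    (∀ m : ℕ, 1 ≤ m → (x / y) ^ m = 1 → (z / y) ^ m = 1 → False) → n₀ ≤ n → ∀ φ : K →+* ℂ,
    ‖φ y‖ ^ M < mulHeight₁ (z / y) * ‖φ x‖ ^ M := by
  classical
  obtain ⟨κ, h⟩ := terms_size D M hM
  obtain ⟨N₀, hN₀, hgap⟩ := gap D
  obtain ⟨P, hP⟩ : ∃ P, P = 2 ^ κ := ⟨_, rfl⟩
  obtain ⟨Q, hQ⟩ : ∃ Q, Q = N₀ * (D + 1) := ⟨_, rfl⟩
  refine ⟨P + Q + 1, ?_⟩
  intro K _ _ hKD a b c x y z n ha hb hc hx hy hz heq hnt hn φ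
  have sg : ∀ t : K, (t = 1 ∨ t = -1) → t ≠ 0 ∧ t * t = 1 ∧ mulHeight₁ t = 1 := by
    rintro t (rfl | rfl)
    · exact ⟨one_ne_zero, by ring, mulHeight₁_one⟩
    · exact ⟨neg_ne_zero.2 one_ne_zero, by ring, by rw [mulHeight₁_neg, mulHeight₁_one]⟩
  obtain ⟨ha0, haa, ha1⟩ := sg a ha
  obtain ⟨hb0, hbb, hb1⟩ := sg b hb
  obtain ⟨hc0, hcc, hc1⟩ := sg c hc
  -- no root of unity
  have hroot : ∀ k : ℕ, 1 ≤ k → (z / y) ^ k ≠ 1 := by
    intro k hk hzk
    by_cases hxr : ∃ m : ℕ, 1 ≤ m ∧ (x / y) ^ m = 1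
    · obtain ⟨m, hm, hxm⟩ := hxr
      exact hnt (k * m) (Nat.mul_pos hk hm) (by rw [mul_comm, pow_mul, hxm, one_pow])
        (by rw [pow_mul, hzk, one_pow])
    · push Not at hxr
      have h1 : 2 < mulHeight₁ (x / y) ^ N₀ := hgap K hKD (x / y) hxr (div_ne_zero hx hy)
      have h2 : (x / y) ^ n = -(a * b) + -(a * c) * (z / y) ^ n := by
        have hyn : y ^ n ≠ 0 := pow_ne_zero _ hy
        rw [div_pow, div_pow]
        field_simp
        linear_combination a * heq - x ^ n * haa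
      have h3 : mulHeight₁ ((z / y) ^ n) = 1 := by
        have h4 : mulHeight₁ (z / y) ^ k = 1 := by rw [← mulHeight₁_pow, hzk, mulHeight₁_one]
        have h5 : mulHeight₁ (z / y) = 1 := by
          rcases (one_le_mulHeight₁ (z / y)).eq_or_lt with h | h
          · exact h.symm
          · exact absurd h4 (one_lt_pow₀ h (by omega)).ne'
        rw [mulHeight₁_pow, h5, one_pow]
      have h6 : mulHeight₁ (-(a * b)) ≤ 1 := by
        rw [mulHeight₁_neg]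
        refine (mulHeight₁_mul_le _ _).trans ?_
        rw [ha1, hb1, one_mul]
      have h7 : mulHeight₁ (-(a * c) * (z / y) ^ n) ≤ 1 := by
        refine (mulHeight₁_mul_le _ _).trans ?_
        rw [h3, mul_one, mulHeight₁_neg]
        refine (mulHeight₁_mul_le _ _).trans ?_
        rw [ha1, hc1, one_mul]
      have h8 : mulHeight₁ ((x / y) ^ n) ≤ 2 ^ D := by
        rw [h2]
        refine (mulHeight₁_add_le _ _).trans ?_
        rw [NumberField.totalWeight_eq_finrank]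
        calc (2 : ℝ) ^ Module.finrank ℚ K * mulHeight₁ (-(a * b)) *
              mulHeight₁ (-(a * c) * (z / y) ^ n)
            ≤ 2 ^ Module.finrank ℚ K * 1 * 1 := by
              apply mul_le_mul (mul_le_mul_of_nonneg_left h6 (by positivity)) h7
                (mulHeight₁_nonneg _) (by positivity)
          _ = 2 ^ Module.finrank ℚ K := by ring
          _ ≤ 2 ^ D := pow_le_pow_right₀ (by norm_num) hKD
      have h9 : (2 : ℝ) ^ (D + 1) ≤ mulHeight₁ (x / y) ^ n := by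
        calc (2 : ℝ) ^ (D + 1) ≤ (mulHeight₁ (x / y) ^ N₀) ^ (D + 1) :=
              pow_le_pow_left₀ (by norm_num) h1.le _
          _ = mulHeight₁ (x / y) ^ Q := by rw [hQ, ← pow_mul]
          _ ≤ mulHeight₁ (x / y) ^ n :=
              pow_le_pow_right₀ (one_le_mulHeight₁ _) (by omega)
      rw [mulHeight₁_pow] at h8
      have h10 : (2 : ℝ) ^ D < 2 ^ (D + 1) := pow_lt_pow_right₀ (by norm_num) (by omega)
      linarith
  have hcb : mulHeight₁ (c / b) = 1 := by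
    apply le_antisymm _ (one_le_mulHeight₁ _)
    rw [div_eq_mul_inv]
    refine (mulHeight₁_mul_le _ _).trans ?_
    rw [mulHeight₁_inv, hb1, hc1, one_mul]
  have key := h K hKD a b c x y z n ha0 hb0 hc0 hx hy hz heq hroot (by
    rw [hcb, Real.log_one, add_zero]
    have h1 : 2 ^ κ < n := by omega
    exact_mod_cast h1) φ
  have nrm : ∀ t : K, (t = 1 ∨ t = -1) → ‖φ t‖ = 1 := by
    rintro t (rfl | rfl)
    · rw [map_one, norm_one]
    · rw [map_neg, map_one, norm_neg, norm_one]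
  have hφy : 0 < ‖φ y‖ := norm_pos_iff.2 ((map_ne_zero φ).2 hy)
  have e1 : ‖φ (a * x ^ n) / φ (b * y ^ n)‖ ^ M = (‖φ x‖ ^ M / ‖φ y‖ ^ M) ^ n := by
    rw [norm_div, map_mul, map_mul, norm_mul, norm_mul, nrm a ha, nrm b hb, one_mul, one_mul, map_pow,
      map_pow, norm_pow, norm_pow, div_pow, ← pow_mul, ← pow_mul, div_pow, ← pow_mul, ← pow_mul,
      mul_comm n M]
  rw [e1, ← mul_pow] at key
  have h2 : 1 < mulHeight₁ (z / y) * (‖φ x‖ ^ M / ‖φ y‖ ^ M) := by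
    by_contra hh
    push Not at hh
    have : (mulHeight₁ (z / y) * (‖φ x‖ ^ M / ‖φ y‖ ^ M)) ^ n ≤ 1 :=
      pow_le_one₀ (by positivity) hh
    linarith
  rw [← mul_div_assoc, one_lt_div (by positivity)] at h2
  exact h2

/-- **the three terms** -/
theorem three_terms (D M : ℕ) (hM : 1 ≤ M) : ∃ n₀ : ℕ, ∀ (K : Type) [Field K] [NumberField K],
    Module.finrank ℚ K ≤ D → ∀ (w : Fin 3 → K) (n : ℕ), (∀ i, w i ≠ 0) →
    w 0 ^ n + w 1 ^ n = w 2 ^ n → (¬ ∃ m : ℕ, 0 < m ∧ (w 0 / w 2) ^ m = 1 ∧ (w 1 / w 2) ^ m = 1) →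
    n₀ ≤ n → ∀ i j k : Fin 3, i ≠ j → j ≠ k → i ≠ k → ∀ φ : K →+* ℂ,
    ‖φ (w i)‖ ^ M < mulHeight₁ (w k / w i) * ‖φ (w j)‖ ^ M := by
  obtain ⟨n₀, h⟩ := term_cmp D M hM
  refine ⟨n₀, ?_⟩
  intro K _ _ hKD w n hw heq hnt hn i j k hij hjk hik φ
  have hs1 : ∀ l : Fin 3, (![1, 1, -1] : Fin 3 → K) l = 1 ∨ (![1, 1, -1] : Fin 3 → K) l = -1 := by
    intro l
    fin_cases l
    · exact Or.inl rfl
    · exact Or.inl rfl
    · exact Or.inr rfl
  have hs2 : (![1, 1, -1] : Fin 3 → K) j * w j ^ n + (![1, 1, -1] : Fin 3 → K) i * w i ^ n +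
      (![1, 1, -1] : Fin 3 → K) k * w k ^ n = 0 := by
    have e0 : (![1, 1, -1] : Fin 3 → K) 0 = 1 := rfl
    have e1 : (![1, 1, -1] : Fin 3 → K) 1 = 1 := rfl
    have e2 : (![1, 1, -1] : Fin 3 → K) 2 = -1 := rfl
    have hall : ∀ i j k : Fin 3, i ≠ j → j ≠ k → i ≠ k → (i = 0 ∧ j = 1 ∧ k = 2) ∨
      (i = 0 ∧ j = 2 ∧ k = 1) ∨ (i = 1 ∧ j = 0 ∧ k = 2) ∨ (i = 1 ∧ j = 2 ∧ k = 0) ∨
      (i = 2 ∧ j = 0 ∧ k = 1) ∨ (i = 2 ∧ j = 1 ∧ k = 0) := by decide
    rcases hall i j k hij hjk hik with h | h | h | h | h | h <;> obtain ⟨rfl, rfl, rfl⟩ := h <;>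
      rw [e0, e1, e2] <;> linear_combination heq
  apply h K hKD _ _ _ (w j) (w i) (w k) n (hs1 j) (hs1 i) (hs1 k) (hw j) (hw i) (hw k) hs2 ?_ hn φ
  intro m hm h1 h2
  apply hnt
  have hi : w i ^ m ≠ 0 := pow_ne_zero _ (hw i)
  have hj' : w j ^ m = w i ^ m := by
    rw [div_pow, div_eq_one_iff_eq hi] at h1
    exact h1
  have hk' : w k ^ m = w i ^ m := by
    rw [div_pow, div_eq_one_iff_eq hi] at h2
    exact h2
  have hcase : ∀ i j k l : Fin 3, i ≠ j → j ≠ k → i ≠ k → l = i ∨ l = j ∨ l = k := by decide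
  have hall : ∀ l : Fin 3, w l ^ m = w i ^ m := by
    intro l
    rcases hcase i j k l hij hjk hik with h | h | h
    · rw [h]
    · rw [h, hj']
    · rw [h, hk']
  refine ⟨m, hm, ?_, ?_⟩
  · rw [div_pow, div_eq_one_iff_eq (pow_ne_zero _ (hw 2)), hall 0, hall 2]
  · rw [div_pow, div_eq_one_iff_eq (pow_ne_zero _ (hw 2)), hall 1, hall 2]

theorem prod_mk' {K : Type} [Field K] [NumberField K] (F : InfinitePlace K → ℝ) :
    ∏ v : InfinitePlace K, F v ^ v.mult = ∏ τ : K →+* ℂ, F (InfinitePlace.mk τ) := by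
  classical
  rw [← Finset.prod_fiberwise Finset.univ InfinitePlace.mk (fun τ => F (InfinitePlace.mk τ))]
  refine Finset.prod_congr rfl fun v _ => ?_
  rw [← InfinitePlace.card_filter_mk_eq v, ← Finset.prod_const]
  refine Finset.prod_congr ?_ fun τ hτ => ?_
  · ext τ
    simp
  · rw [(Finset.mem_filter.1 hτ).2]

theorem height_vec' {K : Type} [Field K] [NumberField K] {m : ℕ} (y : Fin m → 𝓞 K) (hy : y ≠ 0) :
    ∏ σ : K →+* ℂ, (⨆ i, ‖σ (y i : K)‖) =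
      mulHeight (fun i => (y i : K)) * (Ideal.absNorm (Ideal.span (Set.range y)) : ℝ) := by
  have hx' : (fun i => (y i : K)) ≠ 0 := by
    intro h
    apply hy
    funext i
    exact RingOfIntegers.coe_eq_zero_iff.1 (congrFun h i)
  have h1 := absNorm_mul_finprod_finitePlace_eq_one hy
  rw [NumberField.mulHeight_eq hx']
  have h0 := prod_mk' (K := K) (fun v : InfinitePlace K => ⨆ i, v (y i : K))
  rw [h0, mul_assoc, mul_comm (∏ᶠ _ : FinitePlace K, _), h1, mul_one]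
  rfl

theorem prod_norm' {K : Type} [Field K] [NumberField K] (a : 𝓞 K) :
    ∏ σ : K →+* ℂ, ‖σ a‖ = (Ideal.absNorm (Ideal.span {a}) : ℝ) := by
  rw [Ideal.absNorm_span_singleton, ← norm_prod]
  have h : (∏ σ : K →+* ℂ, σ a) = ((Algebra.norm ℚ (a : K) : ℚ) : ℂ) := by
    have h1 := Algebra.norm_eq_prod_embeddings ℚ ℂ (a : K)
    rw [eq_ratCast] at h1
    rw [h1]
    exact Fintype.prod_equiv (RingHom.equivRatAlgHom K ℂ) _ _ fun σ => rfl
  rw [h, ← Algebra.coe_norm_int a]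
  push_cast
  rw [Nat.cast_natAbs]
  simp

/-- **the norms of the three terms** -/
theorem norm_size (D M : ℕ) (hD : 1 ≤ D) (hM : 1 ≤ M) : ∃ n₀ : ℕ, ∀ (K : Type) [Field K]
    [NumberField K], Module.finrank ℚ K ≤ D → ∀ (w : Fin 3 → 𝓞 K) (n : ℕ), (∀ i, w i ≠ 0) →
    w 0 ^ n + w 1 ^ n = w 2 ^ n →
    (¬ ∃ m : ℕ, 0 < m ∧ ((w 0 : K) / w 2) ^ m = 1 ∧ ((w 1 : K) / w 2) ^ m = 1) →
    n₀ ≤ n → ∀ i : Fin 3,
    (mulHeight (fun j => (w j : K)) * (Ideal.absNorm (Ideal.span (Set.range w)) : ℝ)) ^ M ≤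
      mulHeight (fun j => (w j : K)) * (Ideal.absNorm (Ideal.span {w i}) : ℝ) ^ M := by
  obtain ⟨n₀, h⟩ := three_terms D (D * M) (Nat.mul_pos hD hM)
  refine ⟨n₀, ?_⟩
  intro K _ _ hKD w n hw heq hnt hn i
  have hwK : ∀ l, (w l : K) ≠ 0 := fun l => RingOfIntegers.coe_ne_zero_iff.2 (hw l)
  have heqK : (w 0 : K) ^ n + (w 1 : K) ^ n = (w 2 : K) ^ n := by
    exact_mod_cast congrArg (fun t : 𝓞 K => (t : K)) heq
  have hH1 : 1 ≤ mulHeight (fun j => (w j : K)) := one_le_mulHeight _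
  have hthird : ∀ i j : Fin 3, i ≠ j → ∃ k : Fin 3, i ≠ k ∧ j ≠ k := by decide
  have hdiv : ∀ j k : Fin 3, mulHeight₁ ((w k : K) / w j) ≤ mulHeight (fun l => (w l : K)) := by
    intro j k
    rw [mulHeight₁_div_eq_mulHeight]
    have h1 := mulHeight_comp_le (![k, j] : Fin 2 → Fin 3) (fun l => (w l : K))
    have h2 : ((fun l => (w l : K)) ∘ (![k, j] : Fin 2 → Fin 3)) = ![(w k : K), (w j : K)] := by
      funext t
      fin_cases t <;> rfl
    rw [h2] at h1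
    exact h1
  have hloc : ∀ σ : K →+* ℂ, (⨆ j, ‖σ (w j : K)‖) ^ (D * M) ≤
      mulHeight (fun j => (w j : K)) * ‖σ (w i : K)‖ ^ (D * M) := by
    intro σ
    obtain ⟨j, hj⟩ := exists_eq_ciSup_of_finite (f := fun j => ‖σ (w j : K)‖)
    rw [← hj]
    by_cases hji : j = i
    · rw [hji]
      exact le_mul_of_one_le_left (by positivity) hH1
    · obtain ⟨k, hjk, hik⟩ := hthird j i hji
      have h1 := h K hKD (fun l => (w l : K)) n hwK heqK hnt hn j i k hji hik hjk σ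
      exact h1.le.trans (mul_le_mul_of_nonneg_right (hdiv j k) (by positivity))
  have hprod : (∏ σ : K →+* ℂ, (⨆ j, ‖σ (w j : K)‖)) ^ (D * M) ≤
      mulHeight (fun j => (w j : K)) ^ D * (∏ σ : K →+* ℂ, ‖σ (w i : K)‖) ^ (D * M) := by
    rw [← Finset.prod_pow, ← Finset.prod_pow]
    refine (Finset.prod_le_prod (fun σ _ => pow_nonneg (Real.iSup_nonneg fun _ => norm_nonneg _) _)
      fun σ _ => hloc σ).trans ?_
    rw [Finset.prod_mul_distrib, Finset.prod_const, Finset.card_univ]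
    apply mul_le_mul_of_nonneg_right _ (Finset.prod_nonneg fun σ _ => by positivity)
    apply pow_le_pow_right₀ hH1
    rw [← Nat.card_eq_fintype_card, Nat.card_eq_fintype_card, Embeddings.card K ℂ]
    exact hKD
  have hw0 : w ≠ 0 := by
    intro h0
    exact hw 0 (congrFun h0 0)
  rw [height_vec' w hw0, prod_norm' (w i), mul_comm D M, pow_mul, pow_mul _ M D, ← mul_pow] at hprod
  exact (pow_le_pow_iff_left₀ (by positivity) (by positivity) (by omega)).1 hprod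

end Run7.h197.D
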