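import Pool.Agent.Run7.h197.D.Fermat2
import Pool.Agent.Run7.h197.U.Total

/-!
All places: the product over the archimedean places and a finite set of primes of the quotients of the
terms of `x ^ n + y ^ n = z ^ n`.
-/

set_option autoImplicit false

namespace Run7.h197.D

open NumberField Finset Height IsDedekindDomain Run7.h197.BK Run7.h197.ST Run7.h197.V Run7.h197.U
open Run7.h197.Q Run7.h197.PB Pool.Agent.H691R3

/-- **the ratios are not roots of unity** -/
theorem not_root (D : ℕ) : ∃ n₁ : ℕ, ∀ (K : Type) [Field K] [NumberField K],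
    Module.finrank ℚ K ≤ D → ∀ (a b c x y z : K) (n : ℕ), (a = 1 ∨ a = -1) → (b = 1 ∨ b = -1) →
    (c = 1 ∨ c = -1) → x ≠ 0 → y ≠ 0 → z ≠ 0 → a * x ^ n + b * y ^ n + c * z ^ n = 0 →
    (∀ m : ℕ, 1 ≤ m → (x / y) ^ m = 1 → (z / y) ^ m = 1 → False) → n₁ ≤ n →
    ∀ k : ℕ, 1 ≤ k → (z / y) ^ k ≠ 1 := by
  classical
  obtain ⟨N₀, hN₀, hgap⟩ := gap D
  obtain ⟨Q, hQ⟩ : ∃ Q, Q = N₀ * (D + 1) := ⟨_, rfl⟩
  refine ⟨Q, ?_⟩
  intro K _ _ hKD a b c x y z n ha hb hc hx hy hz heq hnt hn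
  have sg : ∀ t : K, (t = 1 ∨ t = -1) → t ≠ 0 ∧ t * t = 1 ∧ mulHeight₁ t = 1 := by
    rintro t (rfl | rfl)
    · exact ⟨one_ne_zero, by ring, mulHeight₁_one⟩
    · exact ⟨neg_ne_zero.2 one_ne_zero, by ring, by rw [mulHeight₁_neg, mulHeight₁_one]⟩
  obtain ⟨ha0, haa, ha1⟩ := sg a ha
  obtain ⟨hb0, hbb, hb1⟩ := sg b hb
  obtain ⟨hc0, hcc, hc1⟩ := sg c hc
  intro k hk hzk
  by_cases hxr : ∃ m : ℕ, 1 ≤ m ∧ (x / y) ^ m = 1
  · obtain ⟨m, hm, hxm⟩ := hxr
    exact hnt (k * m) (Nat.mul_pos hk hm) (by rw [mul_comm, pow_mul, hxm, one_pow])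
      (by rw [pow_mul, hzk, one_pow])
  · push Not at hxr
    have h1 : 2 < mulHeight₁ (x / y) ^ N₀ := hgap K hKD (x / y) hxr (div_ne_zero hx hy)
    have h2 : (x / y) ^ n = -(a * b) + -(a * c) * (z / y) ^ n := by
      have hyn : y ^ n ≠ 0 := pow_ne_zero _ hy
      rw [div_pow, div_pow]
      field_simp
      linear_combination a * heq - x ^ n * haa
    have h3 : mulHeight₁ ((z / y) ^ n) = 1 := by
      have h4 : mulHeight₁ (z / y) ^ k = 1 := by rw [← mulHeight₁_pow, hzk, mulHeight₁_one]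
      have h5 : mulHeight₁ (z / y) = 1 := by
        rcases (one_le_mulHeight₁ (z / y)).eq_or_lt with h | h
        · exact h.symm
        · exact absurd h4 (one_lt_pow₀ h (by omega)).ne'
      rw [mulHeight₁_pow, h5, one_pow]
    have h6 : mulHeight₁ (-(a * b)) ≤ 1 := by
      rw [mulHeight₁_neg]
      refine (mulHeight₁_mul_le _ _).trans ?_
      rw [ha1, hb1, one_mul]
    have h7 : mulHeight₁ (-(a * c) * (z / y) ^ n) ≤ 1 := by
      refine (mulHeight₁_mul_le _ _).trans ?_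
      rw [h3, mul_one, mulHeight₁_neg]
      refine (mulHeight₁_mul_le _ _).trans ?_
      rw [ha1, hc1, one_mul]
    have h8 : mulHeight₁ ((x / y) ^ n) ≤ 2 ^ D := by
      rw [h2]
      refine (mulHeight₁_add_le _ _).trans ?_
      rw [NumberField.totalWeight_eq_finrank]
      calc (2 : ℝ) ^ Module.finrank ℚ K * mulHeight₁ (-(a * b)) *
            mulHeight₁ (-(a * c) * (z / y) ^ n)
          ≤ 2 ^ Module.finrank ℚ K * 1 * 1 := by
            apply mul_le_mul (mul_le_mul_of_nonneg_left h6 (by positivity)) h7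
              (mulHeight₁_nonneg _) (by positivity)
        _ = 2 ^ Module.finrank ℚ K := by ring
        _ ≤ 2 ^ D := pow_le_pow_right₀ (by norm_num) hKD
    have h9 : (2 : ℝ) ^ (D + 1) ≤ mulHeight₁ (x / y) ^ n := by
      calc (2 : ℝ) ^ (D + 1) ≤ (mulHeight₁ (x / y) ^ N₀) ^ (D + 1) :=
            pow_le_pow_left₀ (by norm_num) h1.le _
        _ = mulHeight₁ (x / y) ^ Q := by rw [hQ, ← pow_mul]
        _ ≤ mulHeight₁ (x / y) ^ n :=
            pow_le_pow_right₀ (one_le_mulHeight₁ _) (by omega)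
    rw [mulHeight₁_pow] at h8
    have h10 : (2 : ℝ) ^ D < 2 ^ (D + 1) := pow_lt_pow_right₀ (by norm_num) (by omega)
    linarith

/-- one absolute value, the larger term being `y` -/
theorem loc1 {K : Type} [Field K] (v : AbsoluteValue K ℝ) (a b c x y z : K) (n : ℕ)
    (ha : a = 1 ∨ a = -1) (hb : b = 1 ∨ b = -1) (hc : c = 1 ∨ c = -1) (hx : x ≠ 0) (hy : y ≠ 0)
    (heq : a * x ^ n + b * y ^ n + c * z ^ n = 0) (hzy : v z ≤ v y) :
    (max (max (v x) (v y)) (v z) / v x) ^ n * (min 1 (v ((z / y) ^ (2 * n) - 1)) / 2) ≤ 1 := by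
  have hvx : 0 < v x := v.pos hx
  have hvy : 0 < v y := v.pos hy
  have hmin0 : 0 ≤ min 1 (v ((z / y) ^ (2 * n) - 1)) := le_min zero_le_one (v.nonneg _)
  have e1 : max (max (v x) (v y)) (v z) = max (v x) (v y) := max_eq_left (hzy.trans (le_max_right _ _))
  rw [e1]
  rcases le_total (v y) (v x) with hyx | hyx
  · rw [max_eq_left hyx, div_self hvx.ne', one_pow, one_mul]
    have := min_le_left (1 : ℝ) (v ((z / y) ^ (2 * n) - 1))
    linarith
  · rw [max_eq_right hyx]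
    have sg : ∀ t : K, (t = 1 ∨ t = -1) → t * t = 1 ∧ v t = 1 := by
      rintro t (rfl | rfl)
      · exact ⟨by ring, map_one v⟩
      · exact ⟨by ring, by rw [v.map_neg, map_one]⟩
    obtain ⟨haa, hva⟩ := sg a ha
    obtain ⟨hbb, hvb⟩ := sg b hb
    obtain ⟨hcc, hvc⟩ := sg c hc
    have hu1 : v (z / y) ≤ 1 := by
      rw [map_div₀]
      exact (div_le_one hvy).2 hzy
    have hf : (z / y) ^ (2 * n) - 1 = -((1 + b * c * (z / y) ^ n) * (1 - b * c * (z / y) ^ n)) := by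
      have h1 : (b * c) * (b * c) = 1 := by linear_combination hcc + c * c * hbb
      rw [two_mul, pow_add]
      linear_combination -((z / y) ^ n * (z / y) ^ n) * h1
    have h2 : 1 + b * c * (z / y) ^ n = -(a * b) * (x ^ n / y ^ n) := by
      have hyn : y ^ n ≠ 0 := pow_ne_zero _ hy
      rw [div_pow]
      field_simp
      linear_combination b * heq - y ^ n * hbb
    have h3 : v (1 + b * c * (z / y) ^ n) = v x ^ n / v y ^ n := by
      rw [h2, map_mul, v.map_neg, map_mul, hva, hvb, map_div₀, map_pow, map_pow]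
      ring
    have h4 : v (1 - b * c * (z / y) ^ n) ≤ 2 := by
      calc v (1 - b * c * (z / y) ^ n) ≤ v 1 + v (b * c * (z / y) ^ n) := by
            rw [sub_eq_add_neg, ← v.map_neg (b * c * (z / y) ^ n)]
            exact v.add_le _ _
        _ = 1 + v (z / y) ^ n := by
            rw [map_one, map_mul, map_mul, hvb, hvc, map_pow, one_mul, one_mul]
        _ ≤ 2 := by
            have := pow_le_one₀ (n := n) (v.nonneg (z / y)) hu1
            linarith
    have h5 : v ((z / y) ^ (2 * n) - 1) ≤ v x ^ n / v y ^ n * 2 := by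
      rw [hf, v.map_neg, map_mul, h3]
      exact mul_le_mul_of_nonneg_left h4 (by positivity)
    calc (v y / v x) ^ n * (min 1 (v ((z / y) ^ (2 * n) - 1)) / 2)
        ≤ (v y / v x) ^ n * ((v x ^ n / v y ^ n * 2) / 2) := by
          apply mul_le_mul_of_nonneg_left _ (by positivity)
          apply div_le_div_of_nonneg_right _ (by norm_num)
          exact (min_le_right _ _).trans h5
      _ = 1 := by
          rw [div_pow]
          field_simp

/-- one absolute value -/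
theorem loc2 {K : Type} [Field K] (v : AbsoluteValue K ℝ) (a b c x y z : K) (n : ℕ)
    (ha : a = 1 ∨ a = -1) (hb : b = 1 ∨ b = -1) (hc : c = 1 ∨ c = -1) (hx : x ≠ 0) (hy : y ≠ 0)
    (hz : z ≠ 0) (heq : a * x ^ n + b * y ^ n + c * z ^ n = 0) :
    (max (max (v x) (v y)) (v z) / v x) ^ n * ((min 1 (v ((z / y) ^ (2 * n) - 1)) / 2) *
      (min 1 (v ((y / z) ^ (2 * n) - 1)) / 2)) ≤ 1 := by
  have hvx : 0 < v x := v.pos hx
  have m1 : ∀ t : K, 0 ≤ min 1 (v t) / 2 ∧ min 1 (v t) / 2 ≤ 1 := by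
    intro t
    have h1 : 0 ≤ min 1 (v t) := le_min zero_le_one (v.nonneg _)
    have h2 := min_le_left (1 : ℝ) (v t)
    constructor <;> linarith
  have hA : 0 ≤ (max (max (v x) (v y)) (v z) / v x) ^ n := by
    apply pow_nonneg
    apply div_nonneg _ hvx.le
    exact le_trans hvx.le ((le_max_left _ _).trans (le_max_left _ _))
  rcases le_total (v z) (v y) with h | h
  · have h1 := loc1 v a b c x y z n ha hb hc hx hy heq h
    refine le_trans ?_ h1
    apply mul_le_mul_of_nonneg_left _ hA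
    exact mul_le_of_le_one_right (m1 _).1 (m1 _).2
  · have h1 := loc1 v a c b x z y n ha hc hb hx hz (by linear_combination heq) h
    have e1 : max (max (v x) (v z)) (v y) = max (max (v x) (v y)) (v z) := by
      rw [max_assoc, max_comm (v z) (v y), ← max_assoc]
    rw [e1] at h1
    refine le_trans ?_ h1
    apply mul_le_mul_of_nonneg_left _ hA
    exact mul_le_of_le_one_left (m1 _).1 (m1 _).2

/-- **all places together** -/
theorem places_cmp (D M : ℕ) : ∃ n₀ Λ : ℕ, ∀ (K : Type) [Field K] [NumberField K],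
    Module.finrank ℚ K ≤ D → ∀ (a b c x y z : K) (n : ℕ), (a = 1 ∨ a = -1) → (b = 1 ∨ b = -1) →
    (c = 1 ∨ c = -1) → x ≠ 0 → y ≠ 0 → z ≠ 0 → a * x ^ n + b * y ^ n + c * z ^ n = 0 →
    (∀ m : ℕ, 1 ≤ m → (x / y) ^ m = 1 → (z / y) ^ m = 1 → False) → n₀ ≤ n →
    ∀ S : Finset (HeightOneSpectrum (𝓞 K)), Λ * ∑ v ∈ S, Ideal.absNorm v.asIdeal ≤ n →
    (PP S fun v => max (max (v x) (v y)) (v z) / v x) ^ M ≤ mulHeight₁ (z / y) := by
  classical
  obtain ⟨n₁, hnr⟩ := not_root D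
  obtain ⟨N₀, hN₀, hgap⟩ := gap D
  obtain ⟨E, hE⟩ : ∃ E, E = 4 + 8 * N₀ := ⟨_, rfl⟩
  obtain ⟨d₀, Λ, hfar⟩ := far_total D (M * E) 1
  refine ⟨n₁ + d₀ + 1, Λ, ?_⟩
  intro K _ _ hKD a b c x y z n ha hb hc hx hy hz heq hnt hn S hS
  have hroot := hnr K hKD a b c x y z n ha hb hc hx hy hz heq hnt (by omega)
  have hn1 : 1 ≤ n := by omega
  have hu0 : z / y ≠ 0 := div_ne_zero hz hy
  have hH1 := one_le_mulHeight₁ (z / y)
  have hHpos : 0 < mulHeight₁ (z / y) := by linarith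
  have hg2 : 2 < mulHeight₁ (z / y) ^ N₀ := hgap K hKD (z / y) hroot hu0
  obtain ⟨X, hX1, hX2⟩ := exists_nat_pow_near hH1 (by norm_num : (1 : ℝ) < 2)
  have hinv : y / z = (z / y)⁻¹ := by rw [inv_div]
  have hf1 := hfar K hKD S (2 * n) (by omega) (by omega) (z / y) hu0 (hroot _ (by omega)) (X + 1) hX2.le
  have hf2 := hfar K hKD S (2 * n) (by omega) (by omega) (y / z) (div_ne_zero hy hz) (by
    rw [hinv, inv_pow]
    intro h
    exact hroot (2 * n) (by omega) (inv_eq_one.1 h)) (X + 1) (by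
      rw [hinv, mulHeight₁_inv]
      exact hX2.le)
  simp only [pow_one] at hf1 hf2
  obtain ⟨G, hG⟩ : ∃ G : AbsoluteValue K ℝ → ℝ, G = fun v => max (max (v x) (v y)) (v z) / v x :=
    ⟨_, rfl⟩
  obtain ⟨A, hA⟩ : ∃ A : AbsoluteValue K ℝ → ℝ, A = fun v => min 1 (v ((z / y) ^ (2 * n) - 1)) / 2 :=
    ⟨_, rfl⟩
  obtain ⟨B, hB⟩ : ∃ B : AbsoluteValue K ℝ → ℝ, B = fun v => min 1 (v ((y / z) ^ (2 * n) - 1)) / 2 :=
    ⟨_, rfl⟩
  rw [← hA] at hf1
  rw [← hB] at hf2
  rw [← hG]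
  have hG0 : ∀ v, 0 ≤ G v := by
    intro v
    rw [hG]
    exact div_nonneg (le_trans (v.nonneg x) ((le_max_left _ _).trans (le_max_left _ _))) (v.nonneg x)
  have hA0 : ∀ v, 0 ≤ A v := by
    intro v
    rw [hA]
    exact div_nonneg (le_min zero_le_one (v.nonneg _)) (by norm_num)
  have hB0 : ∀ v, 0 ≤ B v := by
    intro v
    rw [hB]
    exact div_nonneg (le_min zero_le_one (v.nonneg _)) (by norm_num)
  have hle : PP S G ^ n * (PP S A * PP S B) ≤ 1 := by
    rw [← PP_pow, ← PP_mul, ← PP_mul, ← PP_one S]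
    apply PP_mono
    · intro v
      exact mul_nonneg (pow_nonneg (hG0 v) _) (mul_nonneg (hA0 v) (hB0 v))
    · intro v
      rw [hG, hA, hB]
      exact loc2 v a b c x y z n ha hb hc hx hy hz heq
  have hPG : 0 ≤ PP S G := PP_nonneg S hG0
  have hPA : 0 ≤ PP S A := PP_nonneg S hA0
  have hPB : 0 ≤ PP S B := PP_nonneg S hB0
  have h1 : (PP S G ^ (M * E)) ^ n ≤ (2 ^ (4 * (X + 2))) ^ n := by
    have h2 : (PP S G ^ (M * E)) ^ n * ((1 / 2 : ℝ) ^ (2 * n * (X + 1 + 1)) *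
        (1 / 2 : ℝ) ^ (2 * n * (X + 1 + 1))) ≤ 1 := by
      calc (PP S G ^ (M * E)) ^ n * ((1 / 2 : ℝ) ^ (2 * n * (X + 1 + 1)) *
            (1 / 2 : ℝ) ^ (2 * n * (X + 1 + 1)))
          ≤ (PP S G ^ (M * E)) ^ n * (PP S A ^ (M * E) * PP S B ^ (M * E)) := by
            apply mul_le_mul_of_nonneg_left _ (by positivity)
            exact mul_le_mul hf1 hf2 (by positivity) (by positivity)
        _ = (PP S G ^ n * (PP S A * PP S B)) ^ (M * E) := by ring
        _ ≤ 1 := pow_le_one₀ (by positivity) hle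
    have h3 : (1 / 2 : ℝ) ^ (2 * n * (X + 1 + 1)) * (1 / 2 : ℝ) ^ (2 * n * (X + 1 + 1)) =
        ((2 ^ (4 * (X + 2))) ^ n)⁻¹ := by
      rw [← pow_add, one_div, inv_pow, ← pow_mul]
      congr 2
      ring
    rw [h3, mul_inv_le_iff₀ (by positivity), one_mul] at h2
    exact h2
  have h2 : PP S G ^ (M * E) ≤ 2 ^ (4 * (X + 2)) :=
    (pow_le_pow_iff_left₀ (by positivity) (by positivity) (by omega)).1 h1
  have h3 : (2 : ℝ) ^ (4 * (X + 2)) ≤ mulHeight₁ (z / y) ^ E := by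
    calc (2 : ℝ) ^ (4 * (X + 2)) = (2 ^ X) ^ 4 * 2 ^ 8 := by rw [← pow_mul, ← pow_add]; congr 1; ring
      _ ≤ mulHeight₁ (z / y) ^ 4 * (mulHeight₁ (z / y) ^ N₀) ^ 8 := by
          apply mul_le_mul (pow_le_pow_left₀ (by positivity) hX1 _)
            (pow_le_pow_left₀ (by norm_num) hg2.le _) (by positivity) (by positivity)
      _ = mulHeight₁ (z / y) ^ E := by rw [hE]; ring
  have h4 := h2.trans h3
  rw [pow_mul] at h4
  exact (pow_le_pow_iff_left₀ (by positivity) (by positivity) (by omega)).1 h4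

end Run7.h197.D
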