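import Pool.Agent.Run7.h197.D.Param
import Pool.Agent.Run7.h197.V.Ext

/-!
The final form of the bounds for parameters which are close to a point of small height and bounded
degree.
-/

set_option autoImplicit false

namespace Run7.h197.D

open NumberField IsDedekindDomain Finset Pool.Agent.H691R3 Pool.Agent.Y673.Loc Pool.Agent.Y673.Cnt
open Run7.h197.ST Height Pool.Agent.H951R3.V Run7.h197.Q Pool.Agent.Y673.Loc.ZV
open Pool.Agent.K4H56.IF Run7.h197.FMS Run7.h197.N Polynomial Pool.Agent.TH876.Loc Run7.h197.V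

section
variable {K : Type} [Field K] [NumberField K]

/-- **the bound** -/
theorem finalU (F G : K[X]) (hcop : IsCoprime F G) (hG : G ≠ 0) (S : Set (HeightOneSpectrum (𝓞 K))) (hS : S.Finite) (M B s : ℕ)
    (hB : 1 ≤ B) (D : ℕ) :
    ∃ κ : ℕ, ∀ (n m N : ℕ) (t : K) (L : Type) [Field L] [NumberField L] [Algebra K L],
      Module.finrank K L ≤ D → ∀ (a : Option L) (ψ : L →+* ℂ), m ≠ 0 → N ≠ 0 →
      N.primeFactors.card ≤ s → TwoPoles F G (ψ.comp (algebraMap K L)) (a.map ψ) →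
      NearL ψ M t a → G.eval t ≠ 0 → PoleV S n m N B (F.eval t / G.eval t) →
      min (n : ℝ) (Real.log (mulHeight₁ t)) ≤
        (2 + Real.log m + Real.log N + Real.log (hp a)) ^ κ := by
  obtain ⟨κ₁, g₀, hmain⟩ := paramVU F G hcop hG S hS M B s hB D
  refine ⟨(g₀ + 4) * κ₁, ?_⟩
  intro n m N t L _ _ _ hLD a ψ hm hN hNs htwo hnear hGt hV
  obtain ⟨R, hR⟩ : ∃ R, R = 2 + Real.log m + Real.log N + Real.log (hp a) := ⟨_, rfl⟩
  rw [← hR]
  have l1 : 0 ≤ Real.log m := Real.log_natCast_nonneg m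
  have l2 : 0 ≤ Real.log N := Real.log_natCast_nonneg N
  have l3 : 0 ≤ Real.log (hp a) := Real.log_nonneg (one_le_hp a)
  have hR2 : 2 ≤ R := by rw [hR]; linarith
  obtain ⟨g, hg⟩ : ∃ g, g = g₀ + ⌈2 * R⌉₊ := ⟨_, rfl⟩
  have hgR : 2 * R ≤ g := by
    rw [hg]
    push_cast
    have := Nat.le_ceil (2 * R)
    have h0 : (0 : ℝ) ≤ g₀ := Nat.cast_nonneg _
    linarith
  have hlog2 : (1 / 2 : ℝ) ≤ Real.log 2 := by
    have := Real.log_two_gt_d9
    linarith
  have hle : ∀ x : ℝ, 0 < x → Real.log x ≤ R → x ≤ 2 ^ g := by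
    intro x hx hxR
    rw [← Real.log_le_log_iff hx (by positivity), Real.log_pow]
    have h1 : R ≤ g * (1 / 2) := by linarith
    exact hxR.trans (h1.trans (mul_le_mul_of_nonneg_left hlog2 (Nat.cast_nonneg _)))
  have hmg : m ≤ 2 ^ g := by
    have h := hle m (by exact_mod_cast Nat.pos_of_ne_zero hm) (by rw [hR]; linarith)
    exact_mod_cast h
  have hNg : N ≤ 2 ^ g := by
    have h := hle N (by exact_mod_cast Nat.pos_of_ne_zero hN) (by rw [hR]; linarith)
    exact_mod_cast h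
  have hag : hp a ≤ 2 ^ g := hle _ (lt_of_lt_of_le one_pos (one_le_hp a)) (by rw [hR]; linarith)
  have hgκ : ((g ^ κ₁ : ℕ) : ℝ) ≤ R ^ ((g₀ + 4) * κ₁) := by
    rw [pow_mul]
    push_cast
    apply pow_le_pow_left₀ (Nat.cast_nonneg _)
    have h1 : (g : ℝ) ≤ g₀ + (2 * R + 1) := by
      rw [hg]
      push_cast
      have := (Nat.ceil_lt_add_one (show 0 ≤ 2 * R by linarith)).le
      linarith
    have h2 : (g₀ : ℝ) + 4 ≤ 2 ^ (g₀ + 3) := by
      have h3 : g₀ + 4 ≤ 2 ^ (g₀ + 3) := by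
        have h4 : g₀ + 3 < 2 ^ (g₀ + 3) := Nat.lt_two_pow_self
        omega
      exact_mod_cast h3
    calc (g : ℝ) ≤ g₀ + (2 * R + 1) := h1
      _ ≤ (g₀ + 4) * R := by nlinarith [(Nat.cast_nonneg g₀ : (0 : ℝ) ≤ g₀)]
      _ ≤ 2 ^ (g₀ + 3) * R := mul_le_mul_of_nonneg_right h2 (by linarith)
      _ ≤ R ^ (g₀ + 3) * R :=
          mul_le_mul_of_nonneg_right (pow_le_pow_left₀ (by norm_num) hR2 _) (by linarith)
      _ = R ^ (g₀ + 4) := by rw [← pow_succ]
  by_contra hcon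
  push Not at hcon
  obtain ⟨c1, c2⟩ := lt_min_iff.1 hcon
  have h1 : g ^ κ₁ ≤ n := by
    have : ((g ^ κ₁ : ℕ) : ℝ) ≤ n := hgκ.trans c1.le
    exact_mod_cast this
  have hHpos : 0 < mulHeight₁ t := lt_of_lt_of_le one_pos (one_le_mulHeight₁ _)
  have h2 : (2 : ℝ) ^ (g ^ κ₁) ≤ mulHeight₁ t := by
    rw [← Real.log_le_log_iff (by positivity) hHpos, Real.log_pow]
    have h3 : Real.log 2 ≤ 1 := by
      have := Real.log_two_lt_d9
      linarith
    have h4 : ((g ^ κ₁ : ℕ) : ℝ) * Real.log 2 ≤ ((g ^ κ₁ : ℕ) : ℝ) * 1 :=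
      mul_le_mul_of_nonneg_left h3 (Nat.cast_nonneg _)
    rw [mul_one] at h4
    exact h4.trans (hgκ.trans c2.le)
  exact hmain g n m N (by omega) h1 hm hN hmg hNg hNs t L hLD a ψ htwo hag hnear h2 hGt hV

/-- **the bound by counting functions** -/
theorem placesU (F G : K[X]) (hcop : IsCoprime F G) (hG : G ≠ 0) (S : Set (HeightOneSpectrum (𝓞 K))) (hS : S.Finite) (M B s : ℕ)
    (hB : 1 ≤ B) (D : ℕ) :
    ∃ κ : ℕ, ∀ (n : ℕ) (t : K) (L : Type) [Field L] [NumberField L] [Algebra K L],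
      Module.finrank K L ≤ D → ∀ (a : Option L) (ψ : L →+* ℂ) (T : Finset (HeightOneSpectrum (𝓞 K))),
      T.card ≤ s → TwoPoles F G (ψ.comp (algebraMap K L)) (a.map ψ) →
      NearL ψ M t a → G.eval t ≠ 0 →
      min (n : ℝ) (Real.log (mulHeight₁ t)) ≤
        (2 + Real.log (hp a) + ∑ v ∈ T, Real.log (Ideal.absNorm v.asIdeal) +
          V.cnt S T n B (F.eval t / G.eval t)) ^ κ := by
  obtain ⟨κ, hκ⟩ := finalU F G hcop hG S hS M B s hB D
  refine ⟨κ, ?_⟩
  intro n t L _ _ _ hLD a ψ T hT htwo hnear hGt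
  obtain ⟨m, N, hm, hN, hNc, hlm, hlN, hV⟩ := exists_mN S T n B (F.eval t / G.eval t)
  refine (hκ n m N t L hLD a ψ hm hN (hNc.trans hT) htwo hnear hGt hV).trans ?_
  have l1 : 0 ≤ Real.log m := Real.log_natCast_nonneg m
  have l2 : 0 ≤ Real.log N := Real.log_natCast_nonneg N
  have l3 : 0 ≤ Real.log (hp a) := Real.log_nonneg (one_le_hp a)
  apply pow_le_pow_left₀ (by linarith)
  rw [← hlm]
  linarith

/-- **the bound if all but a few pole orders are divisible by `n`** -/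
theorem fewU (F G : K[X]) (hcop : IsCoprime F G) (hG : G ≠ 0) (S : Set (HeightOneSpectrum (𝓞 K))) (hS : S.Finite) (M B s : ℕ)
    (hB : 1 ≤ B) (D : ℕ) :
    ∃ κ : ℕ, ∀ (n : ℕ) (t : K) (L : Type) [Field L] [NumberField L] [Algebra K L],
      Module.finrank K L ≤ D → ∀ (a : Option L) (ψ : L →+* ℂ) (T : Finset (HeightOneSpectrum (𝓞 K))),
      T.card ≤ s → TwoPoles F G (ψ.comp (algebraMap K L)) (a.map ψ) →
      NearL ψ M t a → G.eval t ≠ 0 →
      (∀ v ∉ S, v ∉ T → (adv K v).v (F.eval t / G.eval t) < 0 →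
        (n : ℤ) ∣ B * (adv K v).v (F.eval t / G.eval t)) →
      min (n : ℝ) (Real.log (mulHeight₁ t)) ≤
        (2 + Real.log (hp a) + ∑ v ∈ T, Real.log (Ideal.absNorm v.asIdeal)) ^ κ := by
  obtain ⟨κ, hκ⟩ := placesU F G hcop hG S hS M B s hB D
  refine ⟨κ, ?_⟩
  intro n t L _ _ _ hLD a ψ T hT htwo hnear hGt hd
  have h1 := hκ n t L hLD a ψ T hT htwo hnear hGt
  have h2 : V.cnt S T n B (F.eval t / G.eval t) = 0 := by
    unfold V.cnt
    apply finsum_mem_eq_zero_of_forall_eq_zero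
    rintro v ⟨hvS, hvT, hv⟩
    have h3 := dist_le n (B * (adv K v).v (F.eval t / G.eval t)) 0 (by
      rw [add_zero]
      exact hd v hvS hvT hv)
    rw [abs_zero] at h3
    have h4 : dist n (B * (adv K v).v (F.eval t / G.eval t)) = 0 := by omega
    rw [h4, Nat.cast_zero, zero_mul]
  rwa [h2, add_zero] at h1

/-- **poles over extensions of bounded degree** -/
theorem fewExtU (F G : K[X]) (hcop : IsCoprime F G) (hG : G ≠ 0) (q : ℕ) (hq : q ≠ 0) (M s D DL : ℕ) :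
    ∃ κ : ℕ, ∀ (n : ℕ) (t : K) (L : Type) [Field L] [NumberField L] [Algebra K L],
      Module.finrank K L ≤ DL → ∀ (a : Option L) (ψ : L →+* ℂ), G.eval t ≠ 0 →
      TwoPoles F G (ψ.comp (algebraMap K L)) (a.map ψ) → NearL ψ M t a →
      ∀ (P : Type) [Field P] [NumberField P] [Algebra K P], Module.finrank K P ≤ D →
      ∀ T : Finset (HeightOneSpectrum (𝓞 P)), T.card ≤ s →
      (∀ w : HeightOneSpectrum (𝓞 P), (q : 𝓞 P) ∉ w.asIdeal → w ∉ T →
        (adv P w).v (algebraMap K P (F.eval t / G.eval t)) < 0 →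
        (n : ℤ) ∣ (adv P w).v (algebraMap K P (F.eval t / G.eval t))) →
      min (n : ℝ) (Real.log (mulHeight₁ t)) ≤
        (2 + Real.log (hp a) + ∑ v ∈ T, Real.log (Ideal.absNorm v.asIdeal)) ^ κ := by
  classical
  have hqK : (q : K) ≠ 0 := Nat.cast_ne_zero.2 hq
  obtain ⟨κ, hκ⟩ := finalU F G hcop hG {v | (adv K v).v (q : K) ≠ 0} (supp_finite hqK) M
    D.factorial s (Nat.factorial_pos D) DL
  refine ⟨κ, ?_⟩
  intro n t L _ _ _ hLD a ψ hGt htwo hnear P _ _ _ hPD T hT hd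
  have hpv : ∀ w ∈ T, pv w ≠ 0 := fun w _ => (pv_prime w).ne_zero
  have hN0 : ∏ w ∈ T, pv w ≠ 0 := Finset.prod_ne_zero_iff.2 hpv
  have hNc : (∏ w ∈ T, pv w).primeFactors.card ≤ s := by
    have h1 : (∏ w ∈ T, pv w).primeFactors ⊆ T.image pv := by
      intro p hp
      rw [Nat.mem_primeFactors] at hp
      obtain ⟨v, hv, hpv'⟩ := (hp.1.prime.dvd_finsetProd_iff _).1 hp.2.1
      rw [Nat.prime_dvd_prime_iff_eq hp.1 (pv_prime v)] at hpv'
      exact Finset.mem_image.2 ⟨v, hv, hpv'.symm⟩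
    exact ((Finset.card_le_card h1).trans Finset.card_image_le).trans hT
  have hNl : Real.log ((∏ w ∈ T, pv w : ℕ) : ℝ) ≤ ∑ v ∈ T, Real.log (Ideal.absNorm v.asIdeal) := by
    rw [Nat.cast_prod, Real.log_prod]
    · refine Finset.sum_le_sum fun v _ => ?_
      apply Real.log_le_log
      · exact_mod_cast (pv_prime v).pos
      · exact_mod_cast pv_le v
    · intro v hv
      exact Nat.cast_ne_zero.2 (hpv v hv)
  have h1 := hκ n 1 (∏ w ∈ T, pv w) t L hLD a ψ one_ne_zero hN0 hNc htwo hnear hGt (by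
    intro v hvS hvN hneg
    simp only [Set.mem_ofPred_eq, not_not] at hvS
    obtain ⟨w, e, he1, heL, hwe⟩ := above_le P v
    have he0 : (0 : ℤ) < e := by exact_mod_cast he1
    have hnat : ∀ c : ℕ, (adv P w).v (c : P) = e * (adv K v).v (c : K) := by
      intro c
      have := hwe (c : K)
      rwa [map_natCast] at this
    have hqw : (q : 𝓞 P) ∉ w.asIdeal := by
      rw [← val_nat_pos_iff w hq, not_not, hnat, hvS, mul_zero]
    have hwT : w ∉ T := by
      intro hwT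
      have h2 : (adv K v).v ((∏ w ∈ T, pv w : ℕ) : K) = ∑ w ∈ T, (adv K v).v (pv w : K) :=
        val_prod_nat v T pv hpv
      have h3 : (adv K v).v (pv w : K) ≤ ∑ w ∈ T, (adv K v).v (pv w : K) :=
        Finset.single_le_sum (f := fun w => (adv K v).v (pv w : K))
          (fun w _ => val_nat_nonneg v _ (pv_prime w).ne_zero) hwT
      have h4 := one_le_val_pv w
      rw [hnat] at h4
      have h5 : (adv K v).v (pv w : K) ≤ 0 := by rw [← h2, hvN] at h3; exact h3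
      nlinarith
    have h2 : (adv P w).v (algebraMap K P (F.eval t / G.eval t)) < 0 := by
      rw [hwe]
      nlinarith
    have h3 := hd w hqw hwT h2
    rw [hwe] at h3
    obtain ⟨k, hk⟩ := Nat.dvd_factorial he1 (heL.trans hPD)
    refine ⟨0, by rw [abs_zero]; exact val_nat_nonneg v 1 one_ne_zero, ?_⟩
    rw [hk, add_zero]
    push_cast
    have h4 := Dvd.dvd.mul_left h3 (k : ℤ)
    have h5 : (k : ℤ) * ((e : ℤ) * (adv K v).v (F.eval t / G.eval t)) =
        (e : ℤ) * k * (adv K v).v (F.eval t / G.eval t) := by ring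
    rwa [h5] at h4)
  refine h1.trans ?_
  have l2 : 0 ≤ Real.log ((∏ w ∈ T, pv w : ℕ) : ℝ) := Real.log_natCast_nonneg _
  have l3 : 0 ≤ Real.log (hp a) := Real.log_nonneg (one_le_hp a)
  rw [Nat.cast_one, Real.log_one]
  apply pow_le_pow_left₀ (by linarith)
  linarith

end

end Run7.h197.D
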