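import Pool.Agent.Run7.h197.D.Near

/-!
The integer points on `T(x, y) = C P(x, y) ^ n` with `|x| ≤ |y|`, for arbitrary `P` of bounded degree.
-/

set_option autoImplicit false

namespace Run7.h197.D

open NumberField IsDedekindDomain Finset Pool.Agent.H691R3 Pool.Agent.Y673.Loc Pool.Agent.Y673.Cnt
open Height Pool.Agent.Y673.Loc.ZV Run7.h197.V
open MvPolynomial (eval IsHomogeneous aeval rename)
open Run7.h197.ES (len len_nonneg one_le_len eval_bound restr restr_eval restr_coeff int_root lines)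
open Run7.h197.FMS (adv_zero)

open Run7.h197.W

/-- **the points with `|x| ≤ |y|`** -/
theorem halfU {T : MvPolynomial (Fin 2) ℤ} {e : ℕ} (hT : T.IsHomogeneous e) (hT0 : T ≠ 0)
    (he : 1 ≤ e) (s D : ℕ) :
    ∃ κ : ℕ, ∀ (n : ℕ) (C₁ C₂ c₀ : ℤ) (d : ℕ) (Q P' : MvPolynomial (Fin 2) ℤ),
      C₁ ≠ 0 → C₂ ≠ 0 → 1 ≤ d → d ≤ D → Q.IsHomogeneous d → Q ≠ 0 → P'.totalDegree < d →
      Sep T Q → eval ![0, 0] P' = c₀ → c₀ ≠ 0 →
      (C₂ * c₀).natAbs.primeFactors.card ≤ s → ∀ R : ℝ,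
      R = 2 + Real.log C₁.natAbs + Real.log (rad (C₂ * c₀)) +
        Real.log ((len Q + len P' : ℤ) : ℝ) → R ^ κ < n →
      ∀ x y : ℤ, |x| ≤ |y| → eval ![x, y] T = C₁ * C₂ * (eval ![x, y] (Q + P')) ^ n →
        ((∃ t : ℤ, eval ![t * x, t * y] (Q + P') ≠ eval ![0, 0] (Q + P')) →
          |(y : ℝ)| ≤ Real.exp (R ^ κ)) ∧
        |(y : ℝ)| ≤ |((C₁ * C₂ : ℤ) : ℝ)| * |(c₀ : ℝ)| ^ n * Real.exp (R ^ κ) := by
  obtain ⟨κ₀, hnear⟩ := near_caseU hT hT0 he s D
  obtain ⟨μT, hμT, hlines⟩ := lines T hT hT0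
  have ht1 : 1 ≤ len T := one_le_len hT0
  have ht1r : (1 : ℝ) ≤ (len T : ℝ) := by exact_mod_cast ht1
  have hμTr : (1 : ℝ) ≤ (μT : ℝ) := by exact_mod_cast hμT
  obtain ⟨τ, hτ⟩ : ∃ τ : ℕ, Real.log (len T : ℝ) ≤ τ := ⟨_, Nat.le_ceil _⟩
  obtain ⟨ν, hν⟩ : ∃ ν : ℕ, Real.log (μT : ℝ) ≤ ν := ⟨_, Nat.le_ceil _⟩
  obtain ⟨κ₁, hκ₁⟩ := absorb ((2 + τ) ^ κ₀) κ₀
  obtain ⟨κ₂, hκ₂⟩ := absorb (5 + 2 * τ + D) (κ₁ + 1)
  obtain ⟨κ₃, hκ₃⟩ := absorb (2 + (D + 1) * ν) 1
  obtain ⟨κ, hκ⟩ : ∃ κ, κ = κ₁ + κ₂ + κ₃ + 2 * e := ⟨_, rfl⟩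
  refine ⟨κ, ?_⟩
  intro n C₁ C₂ c₀ d Q P' hC₁ hC₂ hd hdD hQ hQ0 hP' hsep hc₀ h0 hs R hR hRn x y hxy heq
  have hC : C₁ * C₂ ≠ 0 := mul_ne_zero hC₁ hC₂
  have hu1 : 1 ≤ len Q + len P' := by
    have := one_le_len hQ0
    have := len_nonneg P'
    omega
  have hu1r : (1 : ℝ) ≤ ((len Q + len P' : ℤ) : ℝ) := by exact_mod_cast hu1
  obtain ⟨u, hu⟩ : ∃ u : ℤ, u = len Q + len P' := ⟨_, rfl⟩
  rw [← hu] at hR hu1 hu1r
  have l1 : 0 ≤ Real.log C₁.natAbs := Real.log_natCast_nonneg _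
  have l2 : 0 ≤ Real.log (rad (C₂ * c₀)) := Real.log_natCast_nonneg _
  have l3 : 0 ≤ Real.log (u : ℝ) := Real.log_nonneg hu1r
  have hR2 : 2 ≤ R := by rw [hR]; linarith
  have hR1 : 1 ≤ R := by linarith
  have huR : Real.log (u : ℝ) ≤ R := by rw [hR]; linarith
  have hpow : ∀ i, i ≤ κ → R ^ i ≤ R ^ κ := fun i hi => pow_le_pow_right₀ hR1 hi
  have hn2e : 2 * e ≤ n := by
    have h1 : (2 : ℝ) ^ (2 * e) ≤ R ^ κ :=
      (pow_le_pow_left₀ (by norm_num) hR2 _).trans (hpow _ (by omega))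
    have h2 : ((2 * e : ℕ) : ℝ) ≤ 2 ^ (2 * e) := by exact_mod_cast Nat.lt_two_pow_self.le
    have h3 : ((2 * e : ℕ) : ℝ) < n := lt_of_le_of_lt (h2.trans h1) hRn
    have h4 : 2 * e < n := by exact_mod_cast h3
    omega
  have hn1 : 1 ≤ n := by omega
  have hPdeg : (Q + P').totalDegree ≤ D := by
    refine (MvPolynomial.totalDegree_add _ _).trans (max_le ?_ ?_)
    · exact hQ.totalDegree_le.trans hdD
    · omega
  have hPlen : len (Q + P') ≤ u := by
    rw [hu]
    exact len_add _ _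
  have hP0 : eval ![0, 0] (Q + P') = c₀ := by
    have h1 := Run7.h197.ES.hom_eval hQ (0 : ℤ) 0 0
    rw [zero_mul, zero_pow (by omega), zero_mul] at h1
    rw [map_add, h1, hc₀, zero_add]
  have hC1r : (1 : ℝ) ≤ |((C₁ * C₂ : ℤ) : ℝ)| := by
    have := Int.one_le_abs hC
    exact_mod_cast this
  have hc01r : (1 : ℝ) ≤ |(c₀ : ℝ)| ^ n := by
    apply one_le_pow₀
    have := Int.one_le_abs h0
    exact_mod_cast this
  have hfac : (1 : ℝ) ≤ |((C₁ * C₂ : ℤ) : ℝ)| * |(c₀ : ℝ)| ^ n := one_le_mul_of_one_le_of_one_le hC1r hc01r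
  have both : |(y : ℝ)| ≤ Real.exp (R ^ κ) → ((∃ t : ℤ, eval ![t * x, t * y] (Q + P') ≠
      eval ![0, 0] (Q + P')) → |(y : ℝ)| ≤ Real.exp (R ^ κ)) ∧
        |(y : ℝ)| ≤ |((C₁ * C₂ : ℤ) : ℝ)| * |(c₀ : ℝ)| ^ n * Real.exp (R ^ κ) := by
    intro h
    exact ⟨fun _ => h, h.trans (le_mul_of_one_le_left (Real.exp_pos _).le hfac)⟩
  by_cases hTxy : eval ![x, y] T = 0
  · -- on a line on which `T` vanishes
    apply both
    have hz : eval ![x, y] (Q + P') = 0 := by
      rw [hTxy] at heq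
      have h1 := (mul_eq_zero.1 heq.symm).resolve_left hC
      exact (pow_eq_zero_iff (by omega)).1 h1
    obtain ⟨r, x₀, y₀, hx₀, hy₀, -, rfl, rfl⟩ := hlines x y hTxy
    have h1 := restr_eval (Q + P') x₀ y₀ r
    rw [hz] at h1
    have h2 : restr (Q + P') x₀ y₀ ≠ 0 := by
      intro h3
      have h4 := restr_eval (Q + P') x₀ y₀ 0
      rw [h3, Polynomial.eval_zero, zero_mul, zero_mul, hP0] at h4
      exact h0 h4.symm
    have h3 := int_root (restr (Q + P') x₀ y₀) h2 (len (Q + P') * μT ^ D) r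
      (mul_nonneg (len_nonneg _) (by positivity))
      (fun i => restr_coeff (Q + P') x₀ y₀ μT hμT hx₀ hy₀ hPdeg i) h1
    have h4 : |r * y₀| ≤ 2 * u * μT ^ (D + 1) := by
      rw [abs_mul]
      have h5 : |r| ≤ 2 * (u * μT ^ D) := by
        have h6 : len (Q + P') * μT ^ D ≤ u * μT ^ D :=
          mul_le_mul_of_nonneg_right hPlen (by positivity)
        have h7 : 1 ≤ u * μT ^ D := by
          have : 1 ≤ μT ^ D := one_le_pow₀ hμT
          nlinarith
        omega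
      calc |r| * |y₀| ≤ (2 * (u * μT ^ D)) * μT := mul_le_mul h5 hy₀ (abs_nonneg _) (by positivity)
        _ = 2 * u * μT ^ (D + 1) := by ring
    have h5 : |((r * y₀ : ℤ) : ℝ)| ≤ 2 * u * (μT : ℝ) ^ (D + 1) := by exact_mod_cast h4
    refine h5.trans ?_
    rw [← Real.log_le_iff_le_exp (by positivity), Real.log_mul (by positivity) (by positivity),
      Real.log_mul (by norm_num) (by positivity), Real.log_pow]
    have h6 : Real.log 2 ≤ 1 := by
      have := Real.log_two_lt_d9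
      linarith
    have h7 := hκ₃ R hR2
    rw [pow_one] at h7
    push_cast at h7 ⊢
    have h8 : ((D : ℝ) + 1) * Real.log (μT : ℝ) ≤ ((D : ℝ) + 1) * ν :=
      mul_le_mul_of_nonneg_left hν (by positivity)
    have h9 : ((D : ℝ) + 1) * ν ≤ ((D : ℝ) + 1) * ν * R :=
      le_mul_of_one_le_right (by positivity) hR1
    have h10 := hpow κ₃ (by omega)
    nlinarith
  · -- the primitive point
    have hy0 : y ≠ 0 := by
      rintro rfl
      rw [abs_zero] at hxy
      have hx0 : x = 0 := abs_eq_zero.1 (le_antisymm hxy (abs_nonneg _))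
      rw [hx0] at hTxy
      have h1 := Run7.h197.ES.hom_eval hT (0 : ℤ) 0 0
      rw [zero_mul, zero_pow (by omega), zero_mul] at h1
      exact hTxy h1
    have hgpos : 0 < Int.gcd x y := Int.gcd_pos_of_ne_zero_right x hy0
    obtain ⟨x', y', hcop', hx', hy'⟩ := Int.exists_gcd_one hgpos
    obtain ⟨g, hg⟩ : ∃ g : ℤ, g = (Int.gcd x y : ℤ) := ⟨_, rfl⟩
    rw [← hg] at hx' hy'
    have hg1 : 1 ≤ g := by
      rw [hg]
      exact_mod_cast hgpos
    have ex : x = g * x' := by rw [hx']; ring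
    have ey : y = g * y' := by rw [hy']; ring
    have hcop : IsCoprime x' y' := Int.isCoprime_iff_gcd_eq_one.2 hcop'
    have hy'0 : y' ≠ 0 := by
      rintro rfl
      rw [mul_zero] at ey
      exact hy0 ey
    have hxy' : |x'| ≤ |y'| := by
      rw [ex, ey, abs_mul, abs_mul] at hxy
      exact le_of_mul_le_mul_left hxy (abs_pos.2 (by omega))
    rw [ex, ey] at heq
    have hThom : eval ![g * x', g * y'] T = g ^ e * eval ![x', y'] T := Run7.h197.ES.hom_eval hT g x' y'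
    have hTxy' : eval ![x', y'] T ≠ 0 := by
      intro h1
      apply hTxy
      rw [ex, ey, hThom, h1, mul_zero]
    obtain ⟨z, hz⟩ : ∃ z, z = eval ![g * x', g * y'] (Q + P') := ⟨_, rfl⟩
    obtain ⟨Λ, hΛ⟩ : ∃ Λ : ℕ, (Λ : ℤ) = len T + u := by
      obtain ⟨k, hk⟩ := Int.eq_ofNat_of_zero_le (show 0 ≤ len T + u by omega)
      exact ⟨k, hk.symm⟩
    have heq2 : g ^ e * eval ![x', y'] T = C₁ * C₂ * z ^ n := by
      rw [← hThom, heq, hz]
    have hP'0 := len_nonneg P'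
    have hQ'0 := len_nonneg Q
    have hm := hnear n C₁ C₂ (rad (C₂ * c₀)) d Q Λ x' y' g z hC₁ hC₂ (rad_ne _)
      (by rw [rad_primeFactors]; exact hs) (fun v hv => val_C₂ C₂ c₀ h0 hC₂ v hv) hdD hQ hQ0
      hsep (by omega) hy'0 hcop (by omega) hxy' hTxy' heq2
      (fun v hv hgv => by
        rw [hz]
        exact gcd_val C₂ c₀ hP0 h0 hC₂ x' y' g v hv hgv)
      (near_of_eq hT hQ hd hP' hT0 n hn1 hn2e (C₁ * C₂) hC x' y' g hy'0 hg1 hxy' heq Λ
        (by omega))
    have hΛr : (Λ : ℝ) ≤ 2 * (len T : ℝ) * (u : ℝ) := by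
      have h1 : (Λ : ℤ) ≤ 2 * len T * u := by
        rw [hΛ]
        nlinarith
      exact_mod_cast h1
    have hΛ1 : (1 : ℝ) ≤ Λ := by
      have h1 : (1 : ℤ) ≤ Λ := by omega
      exact_mod_cast h1
    have hlogΛ : Real.log Λ ≤ 1 + τ + Real.log (u : ℝ) := by
      have h1 := Real.log_le_log (by linarith) hΛr
      rw [Real.log_mul (by positivity) (by positivity), Real.log_mul (by norm_num) (by positivity)] at h1
      have h6 : Real.log 2 ≤ 1 := by
        have := Real.log_two_lt_d9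
        linarith
      linarith
    have hbase : 2 + Real.log C₁.natAbs + Real.log (rad (C₂ * c₀)) + Real.log Λ ≤
        ((2 + τ : ℕ) : ℝ) * R := by
      push_cast
      have h1 : (0 : ℝ) ≤ τ := Nat.cast_nonneg _
      have h2 : (τ : ℝ) ≤ τ * R := le_mul_of_one_le_right h1 hR1
      have h3 : 2 + Real.log C₁.natAbs + Real.log (rad (C₂ * c₀)) + Real.log Λ ≤ R + 1 + τ := by
        rw [hR]
        linarith
      have h4 : ((2 : ℝ) + τ) * R = R + R + τ * R := by ring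
      rw [h4]
      linarith
    have hl0 : 0 ≤ Real.log (Λ : ℝ) := Real.log_natCast_nonneg _
    have hmin : min (n : ℝ) (Real.log |(y' : ℝ)|) ≤ R ^ κ₁ := by
      refine hm.trans ((pow_le_pow_left₀ (by linarith) hbase _).trans ?_)
      have h1 := hκ₁ R hR2
      rw [mul_pow]
      exact_mod_cast h1
    have hlog : Real.log |(y' : ℝ)| ≤ R ^ κ₁ := by
      rcases min_le_iff.1 hmin with h1 | h1
      · have := hpow κ₁ (by omega)
        linarith
      · exact h1
    have hμ1 : 1 ≤ |y'| := Int.one_le_abs hy'0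
    have hμ1r : (1 : ℝ) ≤ |(y' : ℝ)| := by exact_mod_cast hμ1
    have hμexp : |(y' : ℝ)| ≤ Real.exp (R ^ κ₁) := (Real.log_le_iff_le_exp (by linarith)).1 hlog
    have hgr : (1 : ℝ) ≤ g := by exact_mod_cast hg1
    have hyr : |(y : ℝ)| = g * |(y' : ℝ)| := by
      rw [ey, Int.cast_mul, abs_mul, abs_of_nonneg (by linarith : (0 : ℝ) ≤ g)]
    by_cases hnc : ∃ t : ℤ, eval ![t * x', t * y'] (Q + P') ≠ eval ![0, 0] (Q + P')
    · apply both
      have h1 := gcd_bound hT hT0 hPdeg n hn1 hn2e (C₁ * C₂) hC x' y' g |y'| hμ1 hxy' le_rfl hg1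
        heq hnc
      have h2 : g * |y'| ≤ 6 * u * len T ^ 2 * |y'| ^ (D + 2) := by
        have h3 : g ≤ 2 * (u * |y'| ^ D) + 4 * len T ^ 2 * |y'| := by
          have : len (Q + P') * |y'| ^ D ≤ u * |y'| ^ D :=
            mul_le_mul_of_nonneg_right hPlen (by positivity)
          omega
        have a1 : 1 ≤ len T ^ 2 := one_le_pow₀ ht1
        have a2 : 0 ≤ u := by omega
        have a3 : |y'| ^ D ≤ |y'| ^ (D + 1) := pow_le_pow_right₀ hμ1 (by omega)
        have a4 : |y'| ≤ |y'| ^ (D + 1) := le_self_pow₀ hμ1 (by omega)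
        have a5 : 0 ≤ |y'| ^ (D + 1) := by positivity
        have b1 : u * |y'| ^ D ≤ u * len T ^ 2 * |y'| ^ (D + 1) := by
          calc u * |y'| ^ D ≤ u * |y'| ^ (D + 1) := mul_le_mul_of_nonneg_left a3 a2
            _ = u * 1 * |y'| ^ (D + 1) := by ring
            _ ≤ u * len T ^ 2 * |y'| ^ (D + 1) :=
              mul_le_mul_of_nonneg_right (mul_le_mul_of_nonneg_left a1 a2) a5
        have b2 : len T ^ 2 * |y'| ≤ u * len T ^ 2 * |y'| ^ (D + 1) := by
          calc len T ^ 2 * |y'| ≤ len T ^ 2 * |y'| ^ (D + 1) :=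
                mul_le_mul_of_nonneg_left a4 (by positivity)
            _ = 1 * (len T ^ 2 * |y'| ^ (D + 1)) := by ring
            _ ≤ u * (len T ^ 2 * |y'| ^ (D + 1)) :=
              mul_le_mul_of_nonneg_right hu1 (by positivity)
            _ = _ := by ring
        calc g * |y'| ≤ (6 * (u * len T ^ 2 * |y'| ^ (D + 1))) * |y'| := by
              apply mul_le_mul_of_nonneg_right _ (abs_nonneg _)
              linarith
          _ = 6 * u * len T ^ 2 * |y'| ^ (D + 2) := by ring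
      have h3 : |(y : ℝ)| ≤ 6 * u * (len T : ℝ) ^ 2 * |(y' : ℝ)| ^ (D + 2) := by
        rw [hyr]
        exact_mod_cast h2
      refine h3.trans ?_
      rw [← Real.log_le_iff_le_exp (by positivity), Real.log_mul (by positivity) (by positivity),
        Real.log_mul (by positivity) (by positivity), Real.log_mul (by norm_num) (by positivity),
        Real.log_pow, Real.log_pow]
      have h6 : Real.log 6 ≤ 2 := by
        have h7 : (6 : ℝ) ≤ Real.exp 2 := by
          have h8 : (2.7 : ℝ) < Real.exp 1 := by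
            have := Real.exp_one_gt_d9
            linarith
          have h9 : Real.exp 2 = Real.exp 1 * Real.exp 1 := by rw [← Real.exp_add]; norm_num
          rw [h9]
          nlinarith
        rw [Real.log_le_iff_le_exp (by norm_num)]
        exact h7
      have h7 := hκ₂ R hR2
      push_cast at h7 ⊢
      have hR0 : 0 ≤ R ^ κ₁ := by positivity
      have hRk : R ^ κ₁ ≤ R ^ (κ₁ + 1) := pow_le_pow_right₀ hR1 (by omega)
      have hRk1 : R ≤ R ^ (κ₁ + 1) := le_self_pow₀ hR1 (by omega)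
      have h1k : 1 ≤ R ^ (κ₁ + 1) := one_le_pow₀ hR1
      have h8 : ((D : ℝ) + 2) * Real.log |(y' : ℝ)| ≤ ((D : ℝ) + 2) * R ^ (κ₁ + 1) :=
        mul_le_mul_of_nonneg_left (hlog.trans hRk) (by positivity)
      have h9 : (2 * τ : ℝ) ≤ 2 * τ * R ^ (κ₁ + 1) := le_mul_of_one_le_right (by positivity) h1k
      have h10 := hpow κ₂ (by omega)
      nlinarith
    · -- the polynomial is constant on the line
      have hconst : ∀ t : ℤ, eval ![t * x', t * y'] (Q + P') = eval ![0, 0] (Q + P') := by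
        intro t
        by_contra hcon
        exact hnc ⟨t, hcon⟩
      have hzc : z = c₀ := by rw [hz, hconst, hP0]
      constructor
      · rintro ⟨t, ht⟩
        exfalso
        apply ht
        have := hconst (t * g)
        rw [ex, ey, ← mul_assoc, ← mul_assoc]
        exact this
      · have h1 : g ≤ |C₁ * C₂| * |c₀| ^ n := by
          have h2 : |g ^ e * eval ![x', y'] T| = |C₁ * C₂| * |c₀| ^ n := by
            rw [heq2, hzc, abs_mul, abs_pow]
          rw [← h2, abs_mul, abs_pow, abs_of_nonneg (by omega : 0 ≤ g)]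
          calc g ≤ g ^ e := le_self_pow₀ hg1 (by omega)
            _ = g ^ e * 1 := (mul_one _).symm
            _ ≤ g ^ e * |eval ![x', y'] T| :=
              mul_le_mul_of_nonneg_left (Int.one_le_abs hTxy') (by positivity)
        have h1r : (g : ℝ) ≤ |((C₁ * C₂ : ℤ) : ℝ)| * |(c₀ : ℝ)| ^ n := by exact_mod_cast h1
        rw [hyr]
        apply mul_le_mul h1r _ (abs_nonneg _) (by positivity)
        refine hμexp.trans (Real.exp_le_exp.2 (hpow κ₁ (by omega)))

end Run7.h197.D
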