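import Pool.Agent.Run7.h197.D.Final
import Pool.Agent.Run7.h197.W.All

/-!
The equation `T(x, y) = C₁ C₂ z ^ n` for `x / y` close to a zero of an arbitrary form of bounded degree.
-/

set_option autoImplicit false

namespace Run7.h197.D

open NumberField IsDedekindDomain Finset Pool.Agent.H691R3 Pool.Agent.Y673.Loc Pool.Agent.Y673.Cnt
open Run7.h197.ST Height Run7.h197.Q Pool.Agent.Y673.Loc.ZV
open Pool.Agent.K4H56.IF Run7.h197.FMS Run7.h197.N Run7.h197.V Run7.h197.W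
open MvPolynomial (eval IsHomogeneous aeval)
open Run7.h197.ES (len len_nonneg one_le_len)
open Polynomial (X C)
open IntermediateField (adjoin)
open scoped IntermediateField

/-- **near a zero of `Q`** -/
theorem near_caseU {T : MvPolynomial (Fin 2) ℤ} {e : ℕ} (hT : T.IsHomogeneous e) (hT0 : T ≠ 0)
    (he : 1 ≤ e) (s D : ℕ) :
    ∃ κ : ℕ, ∀ (n : ℕ) (C₁ C₂ : ℤ) (N d : ℕ) (Q : MvPolynomial (Fin 2) ℤ) (Λ : ℕ) (x y g z : ℤ),
      C₁ ≠ 0 → C₂ ≠ 0 → N ≠ 0 → N.primeFactors.card ≤ s →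
      (∀ v : HeightOneSpectrum (𝓞 ℚ), (adv ℚ v).v (N : ℚ) = 0 → (adv ℚ v).v (C₂ : ℚ) = 0) →
      d ≤ D → Q.IsHomogeneous d → Q ≠ 0 →
      Sep T Q → len Q ≤ Λ → y ≠ 0 → IsCoprime x y →
      g ≠ 0 → |x| ≤ |y| → eval ![x, y] T ≠ 0 → g ^ e * eval ![x, y] T = C₁ * C₂ * z ^ n →
      (∀ v : HeightOneSpectrum (𝓞 ℚ), (adv ℚ v).v (N : ℚ) = 0 → (g : 𝓞 ℚ) ∈ v.asIdeal →
        (z : 𝓞 ℚ) ∉ v.asIdeal) →
      |eval ![x, y] Q| ^ 2 * |y| ≤ Λ ^ 2 * |y| ^ (2 * d) →
      min (n : ℝ) (Real.log |(y : ℝ)|) ≤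
        (2 + Real.log C₁.natAbs + Real.log N + Real.log Λ) ^ κ := by
  classical
  obtain ⟨c, hc⟩ := exists_c (deh_ne hT hT0)
  have hinj : Function.Injective (Int.castRingHom ℚ) := RingHom.injective_int _
  have hG : (deh T).map (Int.castRingHom ℚ) ≠ 0 :=
    (Polynomial.map_ne_zero_iff hinj).2 (deh_ne hT hT0)
  have hGc : ((deh T).map (Int.castRingHom ℚ)).eval (c : ℚ) ≠ 0 := by
    rw [Polynomial.eval_intCast_map]
    simpa using hc
  have hcop : IsCoprime ((X - C (c : ℚ)) ^ e : Polynomial ℚ) ((deh T).map (Int.castRingHom ℚ)) := by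
    apply IsCoprime.pow_left
    rw [(Polynomial.irreducible_X_sub_C (c : ℚ)).coprime_iff_not_dvd, Polynomial.dvd_iff_isRoot]
    exact hGc
  have hcQ : (((deh T).eval c : ℤ) : ℚ) ≠ 0 := Int.cast_ne_zero.2 hc
  obtain ⟨κ₀, hκ₀⟩ := finalU ((X - C (c : ℚ)) ^ e : Polynomial ℚ) ((deh T).map (Int.castRingHom ℚ))
    hcop hG {v : HeightOneSpectrum (𝓞 ℚ) | (adv ℚ v).v (((deh T).eval c : ℤ) : ℚ) ≠ 0}
    (supp_finite hcQ) (4 * D) 1 s le_rfl D
  obtain ⟨A, hA⟩ : ∃ A : ℕ, A = 1 + 2 * D := ⟨_, rfl⟩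
  obtain ⟨κ₁, hκ₁⟩ := absorb (A ^ κ₀) κ₀
  refine ⟨max κ₁ 3, ?_⟩
  intro n C₁ C₂ N d Q Λ x y g z hC₁ hC₂ hN hNs hNC hdD hQ hQ0 hsep hlen hy hxy hg hxy' hTxy
    heq hgz hnear
  have hΛ1 : 1 ≤ Λ := by
    have := one_le_len hQ0
    omega
  have hΛR : (1 : ℝ) ≤ Λ := by exact_mod_cast hΛ1
  obtain ⟨R, hR⟩ : ∃ R : ℝ, R = 2 + Real.log C₁.natAbs + Real.log N + Real.log Λ := ⟨_, rfl⟩
  have l1 : 0 ≤ Real.log C₁.natAbs := Real.log_natCast_nonneg _
  have l2 : 0 ≤ Real.log N := Real.log_natCast_nonneg _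
  have l3 : 0 ≤ Real.log Λ := Real.log_natCast_nonneg _
  have hR2 : 2 ≤ R := by rw [hR]; linarith
  rw [← hR]
  have hy1 : (1 : ℝ) ≤ |(y : ℝ)| := by
    have := Int.one_le_abs hy
    exact_mod_cast this
  have hyQ : (y : ℚ) ≠ 0 := Int.cast_ne_zero.2 hy
  have hyC : (y : ℂ) ≠ 0 := Int.cast_ne_zero.2 hy
  -- small height
  have small : |(y : ℝ)| ≤ (Λ : ℝ) ^ 4 → min (n : ℝ) (Real.log |(y : ℝ)|) ≤ R ^ max κ₁ 3 := by
    intro h
    refine (min_le_right _ _).trans ?_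
    have h1 : Real.log |(y : ℝ)| ≤ 4 * Real.log Λ := by
      have := Real.log_le_log (by linarith) h
      rwa [Real.log_pow] at this
    have h2 : 4 * Real.log Λ ≤ 4 * R := by rw [hR]; linarith
    have h3 : 4 * R ≤ R ^ 3 := by
      have h4 : 4 ≤ R ^ 2 := by nlinarith
      calc 4 * R ≤ R ^ 2 * R := mul_le_mul_of_nonneg_right h4 (by linarith)
        _ = R ^ 3 := by ring
    exact h1.trans (h2.trans (h3.trans (pow_le_pow_right₀ (by linarith) (le_max_right _ _))))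
  -- the value of the dehomogenized form
  obtain ⟨w, hw⟩ : ∃ w : ℂ, w = ((deh Q).map (Int.castRingHom ℂ)).eval ((x : ℂ) / y) := ⟨_, rfl⟩
  have hwQ : w * (y : ℂ) ^ d = ((eval ![x, y] Q : ℤ) : ℂ) := by
    have h1 := ev_hom hQ (y : ℂ) ((x : ℂ) / y) 1
    rw [mul_one, mul_div_cancel₀ _ hyC] at h1
    rw [hw, deh_eval, ev_cast, h1]
    ring
  have hwn : ‖w‖ ^ 2 * |(y : ℝ)| ≤ (Λ : ℝ) ^ 2 := by
    have h1 : ‖w‖ * |(y : ℝ)| ^ d = |((eval ![x, y] Q : ℤ) : ℝ)| := by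
      have := congrArg norm hwQ
      rw [norm_mul, norm_pow, Complex.norm_intCast, Complex.norm_intCast] at this
      exact this
    have h2 : (|((eval ![x, y] Q : ℤ) : ℝ)|) ^ 2 * |(y : ℝ)| ≤ (Λ : ℝ) ^ 2 * |(y : ℝ)| ^ (2 * d) := by
      exact_mod_cast hnear
    rw [← h1] at h2
    have h3 : 0 < |(y : ℝ)| ^ (2 * d) := by positivity
    have h4 : (‖w‖ * |(y : ℝ)| ^ d) ^ 2 * |(y : ℝ)| = (‖w‖ ^ 2 * |(y : ℝ)|) * |(y : ℝ)| ^ (2 * d) := by
      rw [mul_pow, ← pow_mul, mul_comm d 2]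
      ring
    rw [h4] at h2
    exact le_of_mul_le_mul_right h2 h3
  have hΛ2 : (Λ : ℝ) ^ 2 ≤ (Λ : ℝ) ^ 4 := pow_le_pow_right₀ hΛR (by norm_num)
  rcases Nat.eq_zero_or_pos (deh Q).natDegree with hk | hk
  · -- a constant
    apply small
    have h1 : (1 : ℝ) ≤ ‖w‖ := by
      rw [hw, Polynomial.eq_C_of_natDegree_eq_zero hk, Polynomial.map_C, Polynomial.eval_C]
      show 1 ≤ ‖(((deh Q).coeff 0 : ℤ) : ℂ)‖
      rw [Complex.norm_intCast]
      have h2 : (deh Q).coeff 0 ≠ 0 := by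
        intro h0
        apply deh_ne hQ hQ0
        rw [Polynomial.eq_C_of_natDegree_eq_zero hk, h0, map_zero]
      have := Int.one_le_abs h2
      exact_mod_cast this
    have h2 : |(y : ℝ)| ≤ ‖w‖ ^ 2 * |(y : ℝ)| := le_mul_of_one_le_left (by linarith) (one_le_pow₀ h1)
    linarith
  · obtain ⟨ξ, hξ, hξn⟩ := near_root (deh Q) (deh_ne hQ hQ0) (RingHom.id ℂ) (IsAlgClosed.splits _) hk
      ((x : ℂ) / y)
    rw [← hw] at hξn
    have hkD : (deh Q).natDegree ≤ D := (deh_natDegree_le hQ.totalDegree_le).trans hdD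
    -- the field of the root
    have hq0 : (deh Q).map (Int.castRingHom ℚ) ≠ 0 :=
      (Polynomial.map_ne_zero_iff (RingHom.injective_int (Int.castRingHom ℚ))).2 (deh_ne hQ hQ0)
    have hξa : Polynomial.aeval ξ ((deh Q).map (Int.castRingHom ℚ)) = 0 := by
      rw [Polynomial.aeval_def, Polynomial.eval₂_map]
      rw [Polynomial.eval_map] at hξ
      rw [show (algebraMap ℚ ℂ).comp (Int.castRingHom ℚ) = Int.castRingHom ℂ from
        RingHom.ext_int _ _]
      exact hξ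
    have hξi : IsIntegral ℚ ξ := IsAlgebraic.isIntegral ⟨_, hq0, hξa⟩
    have hfin : FiniteDimensional ℚ ℚ⟮ξ⟯ := IntermediateField.adjoin.finiteDimensional hξi
    have hNF : NumberField ℚ⟮ξ⟯ := { to_charZero := inferInstance, to_finiteDimensional := hfin }
    obtain ⟨L, instF, instN, ψ, α, hψα, hLD⟩ : ∃ (L : Type) (_ : Field L) (_ : NumberField L)
        (ψ : L →+* ℂ) (α : L), ψ α = ξ ∧ Module.finrank ℚ L ≤ D := by
      refine ⟨ℚ⟮ξ⟯, inferInstance, hNF, ℚ⟮ξ⟯.val.toRingHom, IntermediateField.AdjoinSimple.gen ℚ ξ,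
        IntermediateField.AdjoinSimple.algebraMap_gen ℚ ξ, ?_⟩
      have h1 := IntermediateField.adjoin.finrank hξi
      have h2 : (minpoly ℚ ξ).natDegree ≤ ((deh Q).map (Int.castRingHom ℚ)).natDegree :=
        Polynomial.natDegree_le_of_dvd (minpoly.dvd ℚ ξ hξa) hq0
      have h3 : ((deh Q).map (Int.castRingHom ℚ)).natDegree ≤ (deh Q).natDegree :=
        Polynomial.natDegree_map_le
      calc _ = (minpoly ℚ ξ).natDegree := h1
        _ ≤ _ := (h2.trans h3).trans hkD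
    have hα : ((deh Q).map (Int.castRingHom L)).eval α = 0 := by
      apply ψ.injective
      rw [map_zero, deh_eval, ev_map, map_one, hψα, ← deh_eval]
      exact hξ
    have hαn : ‖(x : ℂ) / y - ψ α‖ ^ (deh Q).natDegree ≤ ‖w‖ := by
      rw [hψα]
      exact hξn
    rcases le_or_gt |(y : ℝ)| ((Λ : ℝ) ^ 4) with hs | hs
    · exact small hs
    · -- the main case
      obtain ⟨δ, hδ⟩ : ∃ δ : ℝ, δ = ‖(x : ℂ) / y - ψ α‖ := ⟨_, rfl⟩
      rw [← hδ] at hαn
      have hδ0 : 0 ≤ δ := by rw [hδ]; exact norm_nonneg _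
      have hδk : δ ^ (4 * (deh Q).natDegree) * |(y : ℝ)| ^ 2 ≤ (Λ : ℝ) ^ 4 := by
        have h1 : (δ ^ (deh Q).natDegree) ^ 2 * |(y : ℝ)| ≤ (Λ : ℝ) ^ 2 :=
          le_trans (mul_le_mul_of_nonneg_right (pow_le_pow_left₀ (by positivity) hαn 2)
            (by linarith)) hwn
        have h2 := pow_le_pow_left₀ (by positivity) h1 2
        have h3 : ((δ ^ (deh Q).natDegree) ^ 2 * |(y : ℝ)|) ^ 2 =
            δ ^ (4 * (deh Q).natDegree) * |(y : ℝ)| ^ 2 := by
          rw [mul_pow, ← pow_mul, ← pow_mul]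
          congr 2
          ring
        rw [h3, ← pow_mul] at h2
        exact h2
      have hδ1 : δ ^ (4 * (deh Q).natDegree) * |(y : ℝ)| ≤ 1 := by
        have h1 : (δ ^ (4 * (deh Q).natDegree) * |(y : ℝ)|) * |(y : ℝ)| ≤ 1 * |(y : ℝ)| := by
          calc _ = δ ^ (4 * (deh Q).natDegree) * |(y : ℝ)| ^ 2 := by ring
            _ ≤ (Λ : ℝ) ^ 4 := hδk
            _ ≤ 1 * |(y : ℝ)| := by rw [one_mul]; exact hs.le
        exact le_of_mul_le_mul_right h1 (by linarith)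
      have hδle : δ ≤ 1 := by
        by_contra hcon
        push Not at hcon
        have h1 : 1 < δ ^ (4 * (deh Q).natDegree) := one_lt_pow₀ hcon (by omega)
        have h2 : 1 < δ ^ (4 * (deh Q).natDegree) * |(y : ℝ)| := by nlinarith
        linarith
      have hHt : mulHeight₁ ((x : ℚ) / y) = |(y : ℝ)| := by
        rw [height_div hy hxy, max_eq_right]
        exact_mod_cast hxy'
      have hN1 : NearL ψ (4 * D) ((x : ℚ) / y) (some α) := by
        show mulHeight₁ ((x : ℚ) / y) *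
          ‖ψ (algebraMap ℚ L ((x : ℚ) / y)) - ψ α‖ ^ (4 * D) ≤ 1
        have h1 : ψ (algebraMap ℚ L ((x : ℚ) / y)) = (x : ℂ) / y := by
          rw [map_div₀, map_div₀, map_intCast, map_intCast, map_intCast, map_intCast]
        rw [h1, ← hδ, hHt]
        calc |(y : ℝ)| * δ ^ (4 * D) ≤ |(y : ℝ)| * δ ^ (4 * (deh Q).natDegree) := by
              apply mul_le_mul_of_nonneg_left _ (by linarith)
              exact pow_le_pow_of_le_one hδ0 hδle (by omega)
          _ ≤ 1 := by rw [mul_comm]; exact hδ1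
      have hG0 : ((deh T).map (Int.castRingHom ℚ)).eval ((x : ℚ) / y) ≠ 0 := by
        intro h0
        apply hTxy
        have h1 := ev_hom hT (y : ℚ) ((x : ℚ) / y) 1
        rw [mul_one, mul_div_cancel₀ _ hyQ, ← deh_eval, h0, mul_zero, ← ev_cast] at h1
        exact_mod_cast h1
      have hmain := hκ₀ n C₁.natAbs N ((x : ℚ) / y) L hLD (some α) ψ (Int.natAbs_ne_zero.2 hC₁) hN hNs
        (twoPoles_of hT hT0 he c hsep ψ _ α hα) hN1 hG0
        (poleV_of hT he c hc n C₁ C₂ z N hC₁ hC₂ hNC x y g hy hxy hg hTxy heq hgz)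
      rw [hHt] at hmain
      refine hmain.trans ?_
      have hH : hp (some α) ≤ (Λ : ℝ) ^ (2 * totalWeight L) := by
        have h1 := height_root (deh Q) (deh_ne hQ hQ0) (Λ : ℤ)
          ((deh_sum Q _).trans hlen) α hα
        exact_mod_cast h1
      have hlogH : Real.log (hp (some α)) ≤ 2 * D * Real.log Λ := by
        have h1 := Real.log_le_log (lt_of_lt_of_le one_pos (one_le_hp (some α))) hH
        rw [Real.log_pow] at h1
        push_cast at h1
        have h2 : (totalWeight L : ℝ) ≤ D := by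
          rw [totalWeight_eq_finrank]
          exact_mod_cast hLD
        refine h1.trans ?_
        apply mul_le_mul_of_nonneg_right _ l3
        linarith
      have hl0 : 0 ≤ Real.log (hp (some α)) := Real.log_nonneg (one_le_hp _)
      have hAR : 2 + Real.log C₁.natAbs + Real.log N + Real.log (hp (some α)) ≤ A * R := by
        rw [hA, hR]
        push_cast
        have h0 : (0 : ℝ) ≤ D := Nat.cast_nonneg _
        nlinarith [mul_nonneg h0 l1, mul_nonneg h0 l2, mul_nonneg h0 l3]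
      calc (2 + Real.log C₁.natAbs + Real.log N + Real.log (hp (some α))) ^ κ₀ ≤ (A * R) ^ κ₀ :=
            pow_le_pow_left₀ (by linarith) hAR _
        _ = ((A ^ κ₀ : ℕ) : ℝ) * R ^ κ₀ := by rw [mul_pow]; push_cast; ring
        _ ≤ R ^ κ₁ := hκ₁ R hR2
        _ ≤ R ^ max κ₁ 3 := pow_le_pow_right₀ (by linarith) (le_max_left _ _)

end Run7.h197.D
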