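import Pool.Agent.Run7.h197.D.Core

/-!
Parameters which are close to a point of small height and bounded degree, and for which the pole
orders of a rational function are almost divisible by `n`.
-/

set_option autoImplicit false

namespace Run7.h197.D

open NumberField IsDedekindDomain Finset Pool.Agent.H691R3 Pool.Agent.Y673.Loc Pool.Agent.Y673.Cnt
open Run7.h197.ST Height Pool.Agent.H951R3.V Run7.h197.Q Pool.Agent.Y673.Loc.ZV
open Pool.Agent.K4H56.IF Run7.h197.FMS Run7.h197.N Polynomial Run7.h197.V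

section
variable {K : Type} [Field K] [NumberField K]

/-- **over the splitting field** -/
theorem paramKU (F G : K[X]) (hcop : IsCoprime F G) (hG : G ≠ 0)
    (S : Set (HeightOneSpectrum (𝓞 K))) (hS : S.Finite) (M B s : ℕ) (hB : 1 ≤ B) (D : ℕ) :
    ∃ κ g₀ μ : ℕ, ∀ g n m N : ℕ, g₀ < g → g ^ κ ≤ n → m ≠ 0 → N ≠ 0 → m ^ μ ≤ 2 ^ g →
      N ≤ 2 ^ g → N.primeFactors.card ≤ s → ∀ (t : K) (b c : Option K) (L : Type) [Field L]
      [NumberField L] [Algebra K L], Module.finrank ℚ L ≤ D → ∀ (a : Option L) (φ : L →+* ℂ),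
      b ≠ c → b.map (algebraMap K L) ≠ a → c.map (algebraMap K L) ≠ a → PoleK F G b → PoleK F G c →
      hp a ≤ 2 ^ g → NearL φ M t a → (2 : ℝ) ^ (g ^ κ) ≤ mulHeight₁ t → G.eval t ≠ 0 →
      PoleV S n m N B (F.eval t / G.eval t) → False := by
  classical
  -- the pairs
  let P : Finset (Option K) := insert none ((G.roots.toFinset).image some)
  have hP : ∀ c, PoleK F G c → c ∈ P := by
    intro c hc
    rcases c with _ | γ
    · exact Finset.mem_insert_self _ _
    · apply Finset.mem_insert_of_mem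
      apply Finset.mem_image_of_mem
      rw [Multiset.mem_toFinset]
      exact (mem_roots hG).2 hc
  obtain ⟨μ, hμ⟩ : ∃ μ, μ = ∑ c ∈ P, mlt F G c := ⟨_, rfl⟩
  have hμc : ∀ c, PoleK F G c → mlt F G c ≤ μ := by
    intro c hc
    rw [hμ]
    exact Finset.single_le_sum (f := fun c => mlt F G c) (fun _ _ => Nat.zero_le _) (hP c hc)
  obtain ⟨κ, g₀, hall⟩ := common (P ×ˢ P)
    (fun i κ g₀ => ∀ β : K, i.1 = some β → i.2 ≠ i.1 → PoleK F G i.1 → PoleK F G i.2 →
      ∀ g n m N : ℕ, g₀ < g → g ^ κ ≤ n → m ≠ 0 → N ≠ 0 → m ^ μ ≤ 2 ^ g →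
      N ≤ 2 ^ g → N.primeFactors.card ≤ s → ∀ (t : K) (L : Type) [Field L] [NumberField L]
      [Algebra K L], Module.finrank ℚ L ≤ D → ∀ (a : Option L) (φ : L →+* ℂ),
      a ≠ i.1.map (algebraMap K L) → a ≠ i.2.map (algebraMap K L) → hp a ≤ 2 ^ g → NearL φ M t a → (2 : ℝ) ^ (g ^ κ) ≤ mulHeight₁ t → G.eval t ≠ 0 →
      PoleV S n m N B (F.eval t / G.eval t) → False)
    (by
      rintro ⟨b, c⟩ -
      rcases b with _ | β
      · exact ⟨0, 0, fun β h => by simp at h⟩
      by_cases hcb : c ≠ some β ∧ PoleK F G (some β) ∧ PoleK F G c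
      swap
      · exact ⟨0, 0, fun β' h h1 h2 h3 => absurd ⟨h1, h2, h3⟩ hcb⟩
      obtain ⟨hcb, hb, hc⟩ := hcb
      obtain ⟨S₁, f₁, h₁⟩ := pole_ord F G hcop hG (some β) hb
      obtain ⟨S₂, f₂, h₂⟩ := pole_ord F G hcop hG c hc
      have e1 := mlt_pos F G hG _ hb
      have e2 := mlt_pos F G hG _ hc
      obtain ⟨κ, g₀, hmain⟩ := targets_allU (S ∪ S₁ ∪ S₂) ((hS.union f₁).union f₂) β c hcb M
        (B * mlt F G (some β) * mlt F G c) s (Nat.mul_pos (Nat.mul_pos hB e1) e2) D
      refine ⟨κ, g₀, ?_⟩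
      rintro β' hβ' - - - g n m N hg hgn hm hN hmg hNg hNs t L _ _ _ hLD a φ hab hac hag hnear hH hGt hV
      have hmK : (m : K) ≠ 0 := Nat.cast_ne_zero.2 hm
      have hmv : ∀ v : HeightOneSpectrum (𝓞 K), (adv K v).v ((m ^ μ : ℕ) : K) = μ * (adv K v).v (m : K) := by
        intro v
        rw [Nat.cast_pow]
        exact ((E_of_ne (w := adv K v) hmK).pow μ).2
      have conv : ∀ (x y : Option K), PoleK F G y → ∀ v ∉ S, (adv K v).v (N : K) = 0 →
          0 < ordP v x t →
          (adv K v).v (F.eval t / G.eval t) = -((mlt F G x : ℤ) * ordP v x t) → 0 < mlt F G x →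
          ∃ r : ℤ, |r| ≤ (adv K v).v ((m ^ μ : ℕ) : K) ∧
            (n : ℤ) ∣ ((B * mlt F G x * mlt F G y : ℕ) : ℤ) * ordP v x t + r := by
        intro x y hy v hv hN0 hpos hval hmx
        have hneg : (adv K v).v (F.eval t / G.eval t) < 0 := by
          rw [hval]
          have : 0 < (mlt F G x : ℤ) * ordP v x t := mul_pos (by exact_mod_cast hmx) hpos
          omega
        obtain ⟨r, hr1, hr2⟩ := hV v hv hN0 hneg
        rw [hval] at hr2
        refine ⟨-((mlt F G y : ℤ) * r), ?_, ?_⟩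
        · rw [hmv, abs_neg, abs_mul, Nat.abs_cast]
          have h1 : (mlt F G y : ℤ) ≤ μ := by exact_mod_cast hμc y hy
          exact mul_le_mul h1 hr1 (abs_nonneg _) (by positivity)
        · have h1 := Dvd.dvd.mul_left hr2 (-(mlt F G y : ℤ))
          have h2 : -(mlt F G y : ℤ) * ((B : ℤ) * -((mlt F G x : ℤ) * ordP v x t) + r) =
              ((B * mlt F G x * mlt F G y : ℕ) : ℤ) * ordP v x t + -((mlt F G y : ℤ) * r) := by
            push_cast
            ring
          rwa [h2] at h1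
      have htβ : t ≠ β := fun h => hGt (by rw [h]; exact hb)
      have htc : some t ≠ c := by
        rintro rfl
        exact hGt hc
      refine hmain g n (m ^ μ) N hg.le hgn (pow_ne_zero _ hm) hN hmg hNg hNs t L hLD a φ hab hac hag hnear hH
        htβ htc ?_ ?_
      · intro v hv hN0 hpos
        simp only [Set.mem_union, not_or] at hv
        exact conv (some β) c hc v hv.1.1 hN0 hpos (h₁ v hv.1.2 t hGt hpos) e1
      · rw [posP_iff]
        intro v hv hN0 hpos
        simp only [Set.mem_union, not_or] at hv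
        obtain ⟨r, hr1, hr2⟩ := conv c (some β) hb v hv.1.1 hN0 hpos (h₂ v hv.2 t hGt hpos) e2
        refine ⟨r, hr1, ?_⟩
        have h3 : B * mlt F G (some β) * mlt F G c = B * mlt F G c * mlt F G (some β) := by ring
        rw [h3]
        exact hr2)
    (by
      intro i κ g κ' g' hκ hg h β h1 h2 h3 h4 g'' n m N hg'' hgn hm hN hmg hNg hNs t L _ _ _ hLD a φ
        hab hac hag hnear hH hGt hV
      have h5 : g'' ^ κ ≤ g'' ^ κ' := Nat.pow_le_pow_right (by omega) hκ
      exact h β h1 h2 h3 h4 g'' n m N (by omega) (h5.trans hgn) hm hN hmg hNg hNs t L hLD a φ hab hac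
        hag hnear ((pow_le_pow_right₀ (by norm_num) h5).trans hH) hGt hV)
  refine ⟨κ, g₀, μ, ?_⟩
  intro g n m N hg hgn hm hN hmg hNg hNs t b c L _ _ _ hLD a φ hbc hba hca hb hc hag hnear hH hGt hV
  rcases b with _ | β
  · rcases c with _ | γ
    · exact hbc rfl
    · exact hall (some γ, none) (Finset.mem_product.2 ⟨hP _ hc, hP _ hb⟩) γ rfl hbc hc hb g n m N hg hgn
        hm hN hmg hNg hNs t L hLD a φ hca.symm hba.symm hag hnear hH hGt hV
  · exact hall (some β, c) (Finset.mem_product.2 ⟨hP _ hb, hP _ hc⟩) β rfl hbc.symm hb hc g n m N hg hgn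
      hm hN hmg hNg hNs t L hLD a φ hba.symm hca.symm hag hnear hH hGt hV

end

section ext
variable {K : Type} [Field K] [NumberField K]

/-- **the main theorem for the orders of poles** -/
theorem paramVU (F G : K[X]) (hcop : IsCoprime F G) (hG : G ≠ 0)
    (S : Set (HeightOneSpectrum (𝓞 K))) (hS : S.Finite) (M B s : ℕ) (hB : 1 ≤ B) (D : ℕ) :
    ∃ κ g₀ : ℕ, ∀ g n m N : ℕ, g₀ ≤ g → g ^ κ ≤ n → m ≠ 0 → N ≠ 0 → m ≤ 2 ^ g →
      N ≤ 2 ^ g → N.primeFactors.card ≤ s → ∀ (t : K) (L : Type) [Field L] [NumberField L]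
      [Algebra K L], Module.finrank K L ≤ D → ∀ (a : Option L) (ψ : L →+* ℂ),
      TwoPoles F G (ψ.comp (algebraMap K L)) (a.map ψ) →
      hp a ≤ 2 ^ g → NearL ψ M t a → (2 : ℝ) ^ (g ^ κ) ≤ mulHeight₁ t → G.eval t ≠ 0 →
      PoleV S n m N B (F.eval t / G.eval t) → False := by
  classical
  let E := SplittingField G
  have : NumberField E := NumberField.of_module_finite K E
  obtain ⟨φ, hφ⟩ : ∃ φ : K →+* E, φ = algebraMap K E := ⟨_, rfl⟩
  have hs : (G.map φ).Splits := by rw [hφ]; exact SplittingField.splits G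
  have hGm : G.map φ ≠ 0 := Polynomial.map_ne_zero hG
  obtain ⟨T, hT, hTv⟩ := above_finite E S hS
  obtain ⟨d, hd⟩ : ∃ d, d = Module.finrank K E := ⟨_, rfl⟩
  have hd1 : 1 ≤ d := by rw [hd]; exact Module.finrank_pos
  obtain ⟨D', hD'⟩ : ∃ D', D' = Module.finrank ℚ K * (D * d) := ⟨_, rfl⟩
  obtain ⟨κ, g₀, μ, hmain⟩ := paramKU (F.map φ) (G.map φ) (hcop.map (mapRingHom φ)) hGm T hT
    (M * d) B s hB D'
  obtain ⟨Q, hQ⟩ : ∃ Q, Q = μ + D' + 1 := ⟨_, rfl⟩
  refine ⟨κ + 1, g₀ + Q ^ κ + 1, ?_⟩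
  intro g n m N hg hgn hm hN hmg hNg hNs t L _ _ _ hLD a ψ htwo hag hnear hH hGt hV
  obtain ⟨g', hg'⟩ : ∃ g', g' = Q * g := ⟨_, rfl⟩
  have hg1 : 1 ≤ g := by omega
  have hgg' : g ≤ g' := by rw [hg']; exact Nat.le_mul_of_pos_left _ (by omega)
  have hpow : g' ^ κ ≤ g ^ (κ + 1) := by
    rw [hg', mul_pow, pow_succ, mul_comm]
    exact Nat.mul_le_mul_left _ (by omega)
  -- the compositum
  let _ : Algebra K ℂ := (ψ.comp (algebraMap K L)).toAlgebra
  let ψL : L →ₐ[K] ℂ := { ψ with commutes' := fun _ => rfl }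
  let ψE : E →ₐ[K] ℂ := IsAlgClosed.lift
  have hψL : ∀ x : L, ψL x = ψ x := fun _ => rfl
  have hfA : FiniteDimensional K ψL.fieldRange :=
    Module.Finite.equiv (AlgEquiv.ofInjectiveField ψL).toLinearEquiv
  have hfB : FiniteDimensional K ψE.fieldRange :=
    Module.Finite.equiv (AlgEquiv.ofInjectiveField ψE).toLinearEquiv
  have hrA : Module.finrank K ψL.fieldRange = Module.finrank K L :=
    (AlgEquiv.ofInjectiveField ψL).toLinearEquiv.finrank_eq.symm
  have hrB : Module.finrank K ψE.fieldRange = d := by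
    rw [hd]
    exact (AlgEquiv.ofInjectiveField ψE).toLinearEquiv.finrank_eq.symm
  let W : IntermediateField K ℂ := ψL.fieldRange ⊔ ψE.fieldRange
  have hfW : FiniteDimensional K W := IntermediateField.finiteDimensional_sup _ _
  have hrW : Module.finrank K W ≤ D * d := by
    calc Module.finrank K W ≤ Module.finrank K ψL.fieldRange * Module.finrank K ψE.fieldRange :=
          IntermediateField.finrank_sup_le _ _
      _ ≤ D * d := by
          rw [hrA, hrB]
          exact Nat.mul_le_mul_right _ hLD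
  have hNW : NumberField W := NumberField.of_module_finite K W
  let jL : L →+* W := ((IntermediateField.inclusion
    (le_sup_left : ψL.fieldRange ≤ W)).toRingHom).comp (AlgEquiv.ofInjectiveField ψL).toRingEquiv.toRingHom
  let jE : E →+* W := ((IntermediateField.inclusion
    (le_sup_right : ψE.fieldRange ≤ W)).toRingHom).comp (AlgEquiv.ofInjectiveField ψE).toRingEquiv.toRingHom
  let Ψ : W →+* ℂ := W.val.toRingHom
  have hjL : ∀ x : L, Ψ (jL x) = ψ x := fun _ => rfl
  have hjE : ∀ x : E, Ψ (jE x) = ψE x := fun _ => rfl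
  let _ : Algebra L W := jL.toAlgebra
  let _ : Algebra E W := jE.toAlgebra
  have hWQ : Module.finrank ℚ W ≤ D' := by
    have h1 : Module.finrank ℚ K * Module.finrank K W = Module.finrank ℚ W :=
      Module.finrank_mul_finrank ℚ K W
    rw [← h1, hD']
    exact Nat.mul_le_mul_left _ hrW
  have hψK : ∀ x : K, ψE (φ x) = ψ (algebraMap K L x) := fun x => by
    rw [hφ]
    exact ψE.commutes x
  have hcomp : (ψE.toRingHom).comp φ = ψ.comp (algebraMap K L) := RingHom.ext hψK
  -- the poles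
  have hlift : ∀ z : Option ℂ, Pole F G (ψ.comp (algebraMap K L)) z →
      ∃ b : Option E, b.map ψE = z ∧ PoleK (F.map φ) (G.map φ) b := by
    intro z hz
    rcases z with _ | z
    · refine ⟨none, rfl, ?_⟩
      show (G.map φ).natDegree < (F.map φ).natDegree
      rw [natDegree_map, natDegree_map]
      exact hz
    · have hz' : ((G.map φ).map ψE.toRingHom).eval z = 0 := by
        rw [Polynomial.map_map, hcomp]
        exact hz
      have h1 := hs.roots_map ψE.toRingHom
      have h2 : z ∈ ((G.map φ).map ψE.toRingHom).roots :=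
        (mem_roots (Polynomial.map_ne_zero hGm)).2 hz'
      rw [h1, Multiset.mem_map] at h2
      obtain ⟨β, hβ, hβz⟩ := h2
      refine ⟨some β, ?_, (mem_roots hGm).1 hβ⟩
      rw [Option.map_some, ← hβz]
      rfl
  obtain ⟨z₁, z₂, h12, h1a, h2a, hz1, hz2⟩ := htwo
  obtain ⟨b, hbz, hb⟩ := hlift z₁ hz1
  obtain ⟨c, hcz, hc⟩ := hlift z₂ hz2
  have haψ : (a.map (algebraMap L W)).map Ψ = a.map ψ := by
    rw [Option.map_map]
    rfl
  have hEΨ : ∀ b : Option E, (b.map (algebraMap E W)).map Ψ = b.map ψE := by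
    intro b
    rw [Option.map_map]
    rfl
  have hbc : b ≠ c := by
    rintro rfl
    exact h12 (hbz.symm.trans hcz)
  have hba : b.map (algebraMap E W) ≠ a.map (algebraMap L W) := by
    intro h
    have h1 := congrArg (Option.map Ψ) h
    rw [hEΨ, haψ, hbz] at h1
    exact h1a h1
  have hca : c.map (algebraMap E W) ≠ a.map (algebraMap L W) := by
    intro h
    have h1 := congrArg (Option.map Ψ) h
    rw [hEΨ, haψ, hcz] at h1
    exact h2a h1
  have e1 : (G.map φ).eval (φ t) = φ (G.eval t) := eval_map_apply _ _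
  have e2 : (F.map φ).eval (φ t) = φ (F.eval t) := eval_map_apply _ _
  have hHt : mulHeight₁ (φ t) = mulHeight₁ t ^ d := by rw [hφ, hd]; exact mulHeight₁_ext E t
  have hH1 : 1 ≤ mulHeight₁ t := one_le_mulHeight₁ t
  have hΨt : Ψ (algebraMap E W (φ t)) = ψ (algebraMap K L t) := (hjE (φ t)).trans (hψK t)
  refine hmain g' n m N (by omega) (hpow.trans hgn) hm hN ?_ (hNg.trans (Nat.pow_le_pow_right (by norm_num) hgg'))
    hNs (φ t) b c W hWQ (a.map (algebraMap L W)) Ψ hbc hba hca hb hc ?_ ?_ ?_ ?_ ?_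
  · calc m ^ μ ≤ (2 ^ g) ^ μ := Nat.pow_le_pow_left hmg _
      _ = 2 ^ (g * μ) := by rw [← pow_mul]
      _ ≤ 2 ^ g' := by
          apply Nat.pow_le_pow_right (by norm_num)
          rw [hg', mul_comm]
          exact Nat.mul_le_mul_right _ (by omega)
  · rw [hp_map]
    have h0 : 0 ≤ hp a := by
      rcases a with _ | α
      · exact zero_le_one
      · exact mulHeight₁_nonneg _
    calc hp a ^ Module.finrank L W ≤ (2 ^ g) ^ Module.finrank L W := pow_le_pow_left₀ h0 hag _
      _ = 2 ^ (g * Module.finrank L W) := by rw [← pow_mul]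
      _ ≤ 2 ^ g' := by
          apply pow_le_pow_right₀ (by norm_num)
          rw [hg', mul_comm]
          apply Nat.mul_le_mul_right
          have h1 : Module.finrank L W ≤ D' := finrank_le_of hWQ
          omega
  · rcases a with _ | α
    · have h1 : mulHeight₁ t ≤ ‖ψ (algebraMap K L t)‖ ^ M := hnear
      show mulHeight₁ (φ t) ≤ ‖Ψ (algebraMap E W (φ t))‖ ^ (M * d)
      rw [hHt, hΨt, pow_mul]
      exact pow_le_pow_left₀ (mulHeight₁_nonneg _) h1 _
    · have h1 : mulHeight₁ t * ‖ψ (algebraMap K L t) - ψ α‖ ^ M ≤ 1 := hnear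
      show mulHeight₁ (φ t) * ‖Ψ (algebraMap E W (φ t)) - Ψ (algebraMap L W α)‖ ^ (M * d) ≤ 1
      have h2 : Ψ (algebraMap L W α) = ψ α := hjL α
      rw [hHt, hΨt, h2, pow_mul, ← mul_pow]
      exact pow_le_one₀ (mul_nonneg (mulHeight₁_nonneg _) (pow_nonneg (norm_nonneg _) _)) h1
  · rw [hHt]
    calc (2 : ℝ) ^ (g' ^ κ) ≤ 2 ^ (g ^ (κ + 1)) := pow_le_pow_right₀ (by norm_num) hpow
      _ ≤ mulHeight₁ t := hH
      _ ≤ mulHeight₁ t ^ d := le_self_pow₀ hH1 (by omega)
  · rw [e1]
    exact (map_ne_zero_iff _ φ.injective).2 hGt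
  · intro w hw hN0 hneg
    obtain ⟨v, hvS, i, hi, hvi⟩ := hTv w hw
    rw [e1, e2, ← map_div₀, hφ, hvi] at hneg ⊢
    have hvN : (adv K v).v (N : K) = 0 := by
      have h1 := hvi (N : K)
      rw [map_natCast, hN0] at h1
      rcases mul_eq_zero.1 h1.symm with h2 | h2
      · omega
      · exact h2
    have hvm : (adv E w).v (m : E) = i * (adv K v).v (m : K) := by
      have h1 := hvi (m : K)
      rwa [map_natCast] at h1
    have h1 : (adv K v).v (F.eval t / G.eval t) < 0 := by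
      by_contra hcon
      push Not at hcon
      have := mul_nonneg hi.le hcon
      omega
    obtain ⟨r, hr1, hr2⟩ := hV v hvS hvN h1
    refine ⟨i * r, ?_, ?_⟩
    · rw [hvm, abs_mul, abs_of_pos hi]
      exact mul_le_mul_of_nonneg_left hr1 hi.le
    · have h3 := Dvd.dvd.mul_left hr2 i
      have h4 : i * ((B : ℤ) * (adv K v).v (F.eval t / G.eval t) + r) =
          (B : ℤ) * (i * (adv K v).v (F.eval t / G.eval t)) + i * r := by ring
      rwa [h4] at h3

end ext

end Run7.h197.D
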